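import Mathlib
import Pool.Agent.H71.TD.Ifc
import Pool.Agent.H2.FC.Defs

/-!
The region of the labels in which the windows of the exceptional vertices lie (project MP_b8729f_AP, uniform in `p`): definitions.

`F` is the graph of the defect edges, `nd v < m` are the pieces, `Lo = pt nd m` the exceptional set, `Z` the set of allowed vertices of the
pieces.
-/

set_option autoImplicit false

namespace Pool.Agent.H90.KB

open Finset Classical
open Pool.Agent.H71.DN Pool.Agent.H71.HL Pool.Agent.H71.DC Pool.Agent.H2.FC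

/-- The number of labels `ℓ < K` at which `w` is joined to a vertex of `Q`. -/
noncomputable def un {V : Type} (mm : ℕ → V → V) (K : ℕ) (Q : Finset V) (w : V) : ℕ :=
  ((range K).filter fun ℓ => mm ℓ w ≠ w ∧ mm ℓ w ∈ Q).card

/-- The number of pairs of a label `ℓ < K` and a vertex of `A` that is joined to a vertex of `B`. -/
noncomputable def up {V : Type} (mm : ℕ → V → V) (K : ℕ) (A B : Finset V) : ℕ :=
  ∑ v ∈ A, un mm K B v

/-- The number of neighbours (in all pieces `< m`) of the vertices of the piece `P`. -/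
noncomputable def yy {V : Type} [Fintype V] (F : SimpleGraph V) (nd : V → ℕ) (m P : ℕ) : ℝ :=
  ∑ v ∈ pt nd P, (dgi F (univ.filter fun u => nd u < m) v : ℝ)

/-- Matchings `mm ℓ`, `ℓ < K`, of edges of `F` that are not inside the exceptional set `pt nd m`; at the label `ℓ` exactly the exceptional
vertices of `W ℓ` are covered, only vertices of `Z` in the pieces, and the number of covered vertices in the piece `P` is nearly
proportional. -/
structure Pl {V : Type} [Fintype V] (F : SimpleGraph V) (nd : V → ℕ) (m Δ : ℕ) (Z : Finset V)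
    (W : ℕ → Finset V) (ρ : ℕ → ℝ) (C : ℝ) (K : ℕ) (mm : ℕ → V → V) : Prop where
  inv : ∀ ℓ < K, Inv (mm ℓ)
  adj : ∀ ℓ < K, ∀ v, mm ℓ v ≠ v → F.Adj v (mm ℓ v) ∧ (nd v < m ∨ nd (mm ℓ v) < m)
  dis : ∀ i < K, ∀ j < K, i ≠ j → ∀ v, mm i v ≠ v → mm i v ≠ mm j v
  cov : ∀ ℓ < K, ∀ w ∈ pt nd m, (mm ℓ w ≠ w ↔ w ∈ W ℓ)
  al : ∀ ℓ < K, ∀ v, mm ℓ v ≠ v → nd v < m → v ∈ Z
  ct : ∀ ℓ < K, ∀ P < m, |(((pt nd P).filter fun v => mm ℓ v ≠ v).card : ℝ) -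
    ∑ w ∈ W ℓ, qq F nd m Δ w P - ρ ℓ / Δ * yy F nd m P| ≤ C

/-- The exceptional vertices whose windows contain the label `ℓ`. -/
noncomputable def Ms {V : Type} (Lo : Finset V) (p : ℕ) (c0 : V → ℕ) (ℓ : ℕ) : Finset V :=
  Lo.filter fun w => c0 w < ℓ + p ∧ ℓ ≤ c0 w + p

/-- The output: matchings `mm ℓ`, `ℓ < κ`, of edges of `F`; the exceptional vertex `w` is uncovered exactly at the `2 p` labels of its
window `(c0 w - p, c0 w + p]`. -/
structure KbOut {V : Type} [Fintype V] (F : SimpleGraph V) (nd : V → ℕ) (m Δ p : ℕ) (Z : Finset V)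
    (C : ℝ) (κ : ℕ) (mm : ℕ → V → V) (c0 : V → ℕ) : Prop where
  inv : ∀ ℓ < κ, Inv (mm ℓ)
  adj : ∀ ℓ < κ, ∀ v, mm ℓ v ≠ v → F.Adj v (mm ℓ v)
  dis : ∀ i < κ, ∀ j < κ, i ≠ j → ∀ v, mm i v ≠ v → mm i v ≠ mm j v
  al : ∀ ℓ < κ, ∀ v, mm ℓ v ≠ v → nd v < m → v ∈ Z
  c1 : ∀ w ∈ pt nd m, p ≤ c0 w ∧ c0 w + p < κ
  c2 : ∀ w ∈ pt nd m, ∀ w' ∈ pt nd m, c0 w = c0 w' → w = w'
  c3 : ∀ w ∈ pt nd m, ∀ ℓ < κ, (mm ℓ w = w ↔ c0 w < ℓ + p ∧ ℓ ≤ c0 w + p)
  ct : ∀ ℓ < κ, ∃ ρ : ℝ, 0 ≤ ρ ∧ ρ ≤ 1 ∧ ∀ P < m,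
    |(((pt nd P).filter fun v => mm ℓ v ≠ v).card : ℝ) - ρ / Δ * ∑ v ∈ pt nd P, (dg F v : ℝ)| ≤ C

/-- Bounds for the used edges: at the exceptional vertices into the sets `Qs j`, and between the sets `Qs j`, `Qs j'`. -/
structure Us {V : Type} [Fintype V] (F : SimpleGraph V) (Lo : Finset V) (s : ℕ)
    (Qs : ℕ → Finset V) (K : ℕ) (mm : ℕ → V → V) (b1 b2 : ℝ) : Prop where
  u1 : ((∑ w ∈ Lo, ∑ j ∈ range s, (50 * un mm K (Qs j) w - dgi F (Qs j) w) : ℕ) : ℝ) ≤ b1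
  u2 : ((∑ j ∈ range s, ∑ j' ∈ range s,
    (50 * up mm K (Qs j) (Qs j') - ee F (Qs j) (Qs j')) : ℕ) : ℝ) ≤ b2

end Pool.Agent.H90.KB
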