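import Mathlib

/-!
STP: one step of a linear rounding procedure (60 - 100 lines).

Proof.  The map `y ↦ (P ↦ ∑_{e ∈ A} y e * v e P)` from the functions `A → ℝ` (dimension `#A > d`) to `Fin d → ℝ` is linear, so there is `y : E → ℝ`, `y e = 0` for `e ∉ A`, `y e ≠ 0` for some `e ∈ A`, with
`∑_{e ∈ A} y e * v e P = 0` for all `P < d` (e.g. `LinearMap.exists_ne_zero_...`/`LinearMap.ker_ne_bot_of_finrank_lt`, or `Matrix.exists_mulVec_eq_zero_iff`-type lemmas, or linear dependence of more than `d` vectors in `Fin d → ℝ` indexed by `A`: `exists_nontrivial_relation_of_finrank_lt_card` needs distinct vectors,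
so better use the linear map on `A → ℝ`, `A` coerced to a type). For `e ∈ A` with `y e ≠ 0` let `s e := (1 - x e) / y e` if `y e > 0` and `s e := x e / (- y e)` if `y e < 0`: `s e > 0`. Let `e0` be such an `e` with the smallest `s e` (`Finset.exists_min_image`), `s := s e0`, `z e := x e + s * y e`. For `e ∈ A`: `0 ≤ z e ≤ 1`
(`y e > 0`: `x e ≤ z e ≤ x e + s e * y e = 1`; `y e < 0`: `1 > x e ≥ z e ≥ 0`; `y e = 0`: `z e = x e`), and `z e0 ∈ {0, 1}`.
-/

set_option autoImplicit false

namespace Pool.Agent.H90.KB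

open Finset Classical

theorem stp {E : Type} (A : Finset E) (d : ℕ) (v : E → ℕ → ℝ) (x : E → ℝ)
    (hA : d < A.card) (hx : ∀ e ∈ A, 0 < x e ∧ x e < 1) :
    ∃ z : E → ℝ, (∀ e, e ∉ A → z e = x e) ∧ (∀ e ∈ A, 0 ≤ z e ∧ z e ≤ 1) ∧
      (∃ e ∈ A, z e = 0 ∨ z e = 1) ∧
      ∀ P < d, ∑ e ∈ A, z e * v e P = ∑ e ∈ A, x e * v e P := by
  -- linear map
  let f : (A → ℝ) →ₗ[ℝ] (Fin d → ℝ) :=
    { toFun := fun y P => ∑ e : A, y e * v e.1 P.1
      map_add' := by
        intro a b
        funext P
        simp only [Pi.add_apply, add_mul, Finset.sum_add_distrib]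
      map_smul' := by
        intro c a
        funext P
        simp only [Pi.smul_apply, smul_eq_mul, RingHom.id_apply, Finset.mul_sum, mul_assoc] }
  have hker : LinearMap.ker f ≠ ⊥ := by
    apply LinearMap.ker_ne_bot_of_finrank_lt
    simp only [Module.finrank_fintype_fun_eq_card, Fintype.card_fin, Fintype.card_coe]
    exact hA
  obtain ⟨y0, hy0, hne⟩ := Submodule.exists_mem_ne_zero_of_ne_bot hker
  rw [LinearMap.mem_ker] at hy0
  let y : E → ℝ := fun e => if h : e ∈ A then y0 ⟨e, h⟩ else 0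
  have hyA : ∀ e (h : e ∈ A), y e = y0 ⟨e, h⟩ := fun e h => by simp [y, h]
  have hynot : ∀ e, e ∉ A → y e = 0 := fun e h => by simp [y, h]
  have hysum : ∀ P < d, ∑ e ∈ A, y e * v e P = 0 := by
    intro P hP
    have h1 : f y0 ⟨P, hP⟩ = 0 := by rw [hy0]; rfl
    have h2 : f y0 ⟨P, hP⟩ = ∑ e : A, y0 e * v e.1 P := rfl
    rw [h2] at h1
    rw [← h1, ← Finset.sum_coe_sort A (fun e => y e * v e P)]
    apply Finset.sum_congr rfl
    intro e _
    rw [hyA e.1 e.2]
  obtain ⟨e1, he1⟩ : ∃ e : A, y0 e ≠ 0 := by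
    by_contra hcon
    push Not at hcon
    exact hne (funext hcon)
  let s : E → ℝ := fun e => if 0 < y e then (1 - x e) / y e else x e / (- y e)
  let B := A.filter (fun e => y e ≠ 0)
  have hB : B.Nonempty := ⟨e1.1, by
    simp only [B, Finset.mem_filter]
    exact ⟨e1.2, by rw [hyA e1.1 e1.2]; exact he1⟩⟩
  obtain ⟨e0, he0, hmin⟩ := Finset.exists_min_image B s hB
  have he0A : e0 ∈ A := (Finset.mem_filter.mp he0).1
  have he0y : y e0 ≠ 0 := (Finset.mem_filter.mp he0).2
  have hs0 : 0 < s e0 := by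
    simp only [s]
    split_ifs with h
    · exact div_pos (by linarith [(hx e0 he0A).2]) h
    · have : y e0 < 0 := lt_of_le_of_ne (not_lt.mp h) he0y
      exact div_pos (hx e0 he0A).1 (by linarith)
  refine ⟨fun e => x e + s e0 * y e, ?_, ?_, ?_, ?_⟩
  · intro e he
    simp [hynot e he]
  · intro e he
    show 0 ≤ x e + s e0 * y e ∧ x e + s e0 * y e ≤ 1
    obtain ⟨hx0, hx1⟩ := hx e he
    rcases lt_trichotomy (y e) 0 with hlt | heq | hgt
    · have heB : e ∈ B := Finset.mem_filter.mpr ⟨he, hlt.ne⟩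
      have h1 := hmin e heB
      have h2 : s e = x e / (- y e) := by
        simp only [s]; rw [if_neg (not_lt.mpr hlt.le)]
      rw [h2, le_div_iff₀ (by linarith)] at h1
      constructor
      · nlinarith
      · nlinarith
    · rw [heq]; constructor <;> linarith
    · have heB : e ∈ B := Finset.mem_filter.mpr ⟨he, hgt.ne'⟩
      have h1 := hmin e heB
      have h2 : s e = (1 - x e) / y e := by
        simp only [s]; rw [if_pos hgt]
      rw [h2, le_div_iff₀ hgt] at h1
      constructor
      · nlinarith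
      · nlinarith
  · refine ⟨e0, he0A, ?_⟩
    rcases lt_or_gt_of_ne he0y with hlt | hgt
    · left
      have h2 : s e0 = x e0 / (- y e0) := by
        simp only [s]; rw [if_neg (not_lt.mpr hlt.le)]
      show x e0 + s e0 * y e0 = 0
      rw [h2]
      field_simp
      ring
    · right
      have h2 : s e0 = (1 - x e0) / y e0 := by
        simp only [s]; rw [if_pos hgt]
      show x e0 + s e0 * y e0 = 1
      rw [h2]
      field_simp
      ring
  · intro P hP
    have : ∀ e ∈ A, (x e + s e0 * y e) * v e P = x e * v e P + s e0 * (y e * v e P) := by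
      intro e _; ring
    rw [Finset.sum_congr rfl this, Finset.sum_add_distrib, ← Finset.mul_sum, hysum P hP]
    simp

end Pool.Agent.H90.KB
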