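import Mathlib
import Pool.Agent.H71.HL.Defs
import Pool.Agent.H90.KB.Stp

/-!
HLC: rounding that keeps a family of quadratic forms up to a linear error (200 - 280 lines). Use the STATEMENT of `stp`.

`ff F Lo q x P = ∑_{w, w' ∈ Lo, w ~ w'} x w * x w' * q w P`, `bb F Lo q x w P = ∑_{w' ∈ Lo, w' ~ w} x w' * (q w P + q w' P)`.
Proof.  (1) `ff_add`: `ff (x + y) = ff x + ∑_{w ∈ Lo} y w * bb x w + ff y` (expand; `∑_{w,w'} (x w y w' + y w x w') q w = ∑_{w,w'} y w x w' (q w + q w')` by exchanging the names in the first part, `F` is symmetric).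
(2) If `y` vanishes outside `A ⊆ Lo` and `|y| ≤ 1` then `|ff y P| ≤ #A ^ 2` (`0 ≤ q ≤ 1`).
(3) `|bb x w P| ≤ 2 #Lo` for `0 ≤ x ≤ 1`.
(4) Let `D := 3 m + 1`. Strong induction on `k = #A`, `A := {w ∈ Lo : 0 < x w < 1}`: the claim of `hlc` with `k` in place of `#Lo` in the term `#Lo * (D + 1)^2`, i.e. errors of `ff` at most `k * (D + 1)^2 + 2 D #Lo + D^2`, errors of the linear sums at most `D`.
 `k ≤ D`: put `z w := 0` for `w ∈ A`, `z := x` otherwise: `y := z - x` vanishes outside `A`, `|y| ≤ 1`: `|∑_Lo y| ≤ D`, `|∑_Lo y q| ≤ D`, `|ff z - ff x| ≤ ∑_{w ∈ A} |bb x w| + #A^2 ≤ 2 D #Lo + D^2`; for the complement: `1 - z = (1 - x) - y`, the same bound (`ff (1-x + (-y)) = ff (1-x) - ∑ y bb (1-x) + ff y`).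
 `k > D`: choose `A' ⊆ A` with exactly `D + 1` elements and apply `stp A' D v x` with the linear forms `v w P := bb x w P` (`P < m`), `v w (m + P) := bb (fun _ => 1) w P`, `v w (2 m + P) := q w P`, `v w (3 m) := 1`. It gives `z` (equal to `x` outside `A'`), `y := z - x`, `|y| ≤ 1`, `∑ y bb x = 0`, `∑ y bb 1 = 0`, so `∑ y bb (1 - x) = 0`
 (`bb (1 - x) = bb 1 - bb x`), `∑ y q = 0`, `∑ y = 0`. So `|ff z - ff x| = |ff y| ≤ (D + 1)^2` and `|ff (1 - z) - ff (1 - x)| = |ff y| ≤ (D + 1)^2`, the linear sums are unchanged, and `z` has at most `k - 1` fractional coordinates in `Lo` (one more is `0` or `1`): induction.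
-/

set_option autoImplicit false

namespace Pool.Agent.H90.KB

open Finset Classical

/-- The quadratic form. -/
noncomputable def ff {V : Type} (F : SimpleGraph V) (Lo : Finset V) (q : V → ℕ → ℝ) (x : V → ℝ)
    (P : ℕ) : ℝ :=
  ∑ w ∈ Lo, ∑ w' ∈ Lo, if F.Adj w w' then x w * x w' * q w P else 0

/-- The bilinear part. -/
noncomputable def bb {V : Type} (F : SimpleGraph V) (Lo : Finset V) (q : V → ℕ → ℝ) (x : V → ℝ)
    (w : V) (P : ℕ) : ℝ :=
  ∑ w' ∈ Lo, if F.Adj w w' then x w' * (q w P + q w' P) else 0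

lemma ff_add {V : Type} (F : SimpleGraph V) (Lo : Finset V) (q : V → ℕ → ℝ) (x y : V → ℝ)
    (P : ℕ) : ff F Lo q (fun w => x w + y w) P =
      ff F Lo q x P + ∑ w ∈ Lo, y w * bb F Lo q x w P + ff F Lo q y P := by
  have h2 : ∑ w ∈ Lo, ∑ w' ∈ Lo, (if F.Adj w w' then x w * y w' * q w P else 0) =
      ∑ w ∈ Lo, ∑ w' ∈ Lo, (if F.Adj w w' then y w * x w' * q w' P else 0) := by
    rw [Finset.sum_comm]
    refine Finset.sum_congr rfl fun w _ => Finset.sum_congr rfl fun w' _ => ?_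
    by_cases h : F.Adj w w'
    · rw [if_pos h, if_pos h.symm]; ring
    · rw [if_neg h, if_neg (fun h' => h h'.symm)]
  have h3 : ∑ w ∈ Lo, y w * bb F Lo q x w P =
      ∑ w ∈ Lo, ∑ w' ∈ Lo, (if F.Adj w w' then y w * x w' * q w P else 0) +
      ∑ w ∈ Lo, ∑ w' ∈ Lo, (if F.Adj w w' then y w * x w' * q w' P else 0) := by
    rw [← Finset.sum_add_distrib]
    refine Finset.sum_congr rfl fun w _ => ?_
    rw [bb, Finset.mul_sum, ← Finset.sum_add_distrib]
    refine Finset.sum_congr rfl fun w' _ => ?_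
    split_ifs
    · ring
    · ring
  have h1 : ff F Lo q (fun w => x w + y w) P =
      ff F Lo q x P + (∑ w ∈ Lo, ∑ w' ∈ Lo, (if F.Adj w w' then x w * y w' * q w P else 0)) +
      (∑ w ∈ Lo, ∑ w' ∈ Lo, (if F.Adj w w' then y w * x w' * q w P else 0)) +
      ff F Lo q y P := by
    unfold ff
    rw [← Finset.sum_add_distrib, ← Finset.sum_add_distrib, ← Finset.sum_add_distrib]
    refine Finset.sum_congr rfl fun w _ => ?_
    rw [← Finset.sum_add_distrib, ← Finset.sum_add_distrib, ← Finset.sum_add_distrib]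
    refine Finset.sum_congr rfl fun w' _ => ?_
    split_ifs
    · ring
    · ring
  rw [h1, h2, h3]
  ring

lemma ff_neg {V : Type} (F : SimpleGraph V) (Lo : Finset V) (q : V → ℕ → ℝ) (y : V → ℝ)
    (P : ℕ) : ff F Lo q (fun w => - y w) P = ff F Lo q y P := by
  unfold ff
  refine Finset.sum_congr rfl fun w _ => Finset.sum_congr rfl fun w' _ => ?_
  split_ifs
  · ring
  · rfl

lemma bb_sub {V : Type} (F : SimpleGraph V) (Lo : Finset V) (q : V → ℕ → ℝ) (x : V → ℝ)
    (w : V) (P : ℕ) : bb F Lo q (fun w => 1 - x w) w P =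
      bb F Lo q (fun _ => 1) w P - bb F Lo q x w P := by
  unfold bb
  rw [← Finset.sum_sub_distrib]
  refine Finset.sum_congr rfl fun w' _ => ?_
  split_ifs
  · ring
  · ring

lemma bb_le {V : Type} (F : SimpleGraph V) (Lo : Finset V) (m : ℕ) (q : V → ℕ → ℝ)
    (hq : ∀ w ∈ Lo, ∀ P < m, 0 ≤ q w P ∧ q w P ≤ 1) (x : V → ℝ)
    (hx : ∀ w ∈ Lo, 0 ≤ x w ∧ x w ≤ 1) (w : V) (hw : w ∈ Lo) (P : ℕ) (hP : P < m) :
    |bb F Lo q x w P| ≤ 2 * Lo.card := by
  unfold bb
  refine le_trans (Finset.abs_sum_le_sum_abs _ _) ?_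
  have : ∀ w' ∈ Lo, |if F.Adj w w' then x w' * (q w P + q w' P) else 0| ≤ (2 : ℝ) := by
    intro w' hw'
    obtain ⟨a1, a2⟩ := hx w' hw'
    obtain ⟨b1, b2⟩ := hq w hw P hP
    obtain ⟨c1, c2⟩ := hq w' hw' P hP
    split_ifs
    · rw [abs_le]
      constructor
      · nlinarith
      · nlinarith
    · simp
  refine le_trans (Finset.sum_le_sum this) ?_
  rw [Finset.sum_const, nsmul_eq_mul]
  linarith

lemma ff_small {V : Type} (F : SimpleGraph V) (Lo : Finset V) (m : ℕ) (q : V → ℕ → ℝ)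
    (hq : ∀ w ∈ Lo, ∀ P < m, 0 ≤ q w P ∧ q w P ≤ 1) (A : Finset V) (hA : A ⊆ Lo) (y : V → ℝ)
    (hy0 : ∀ w ∈ Lo, w ∉ A → y w = 0) (hy : ∀ w ∈ A, |y w| ≤ 1) (P : ℕ) (hP : P < m) :
    |ff F Lo q y P| ≤ (A.card : ℝ) ^ 2 := by
  have h1 : ff F Lo q y P = ∑ w ∈ A, ∑ w' ∈ A, (if F.Adj w w' then y w * y w' * q w P else 0) := by
    unfold ff
    rw [← Finset.sum_subset hA]
    · refine Finset.sum_congr rfl fun w _ => ?_
      rw [← Finset.sum_subset hA]
      intro w' h1 h2
      rw [hy0 w' h1 h2]; simp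
    · intro w h1 h2
      rw [hy0 w h1 h2]; simp
  rw [h1]
  refine le_trans (Finset.abs_sum_le_sum_abs _ _) ?_
  have h2 : ∀ w ∈ A, |∑ w' ∈ A, (if F.Adj w w' then y w * y w' * q w P else 0)| ≤ (A.card : ℝ) := by
    intro w hw
    refine le_trans (Finset.abs_sum_le_sum_abs _ _) ?_
    have h3 : ∀ w' ∈ A, |if F.Adj w w' then y w * y w' * q w P else 0| ≤ (1 : ℝ) := by
      intro w' hw'
      split_ifs
      · rw [abs_mul, abs_mul]
        obtain ⟨b1, b2⟩ := hq w (hA hw) P hP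
        have e1 := hy w hw
        have e2 := hy w' hw'
        have e3 : |q w P| ≤ 1 := by rw [abs_of_nonneg b1]; exact b2
        have e4 : |y w| * |y w'| ≤ 1 := by nlinarith [abs_nonneg (y w), abs_nonneg (y w')]
        nlinarith [abs_nonneg (y w), abs_nonneg (y w'), abs_nonneg (q w P),
          mul_nonneg (abs_nonneg (y w)) (abs_nonneg (y w'))]
      · simp
    refine le_trans (Finset.sum_le_sum h3) ?_
    simp
  refine le_trans (Finset.sum_le_sum h2) ?_
  rw [Finset.sum_const, nsmul_eq_mul]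
  linarith [sq (A.card : ℝ)]

/-- Change of `ff` and of the complementary form. -/
lemma ff_change {V : Type} (F : SimpleGraph V) (Lo : Finset V) (q : V → ℕ → ℝ) (x z : V → ℝ)
    (P : ℕ) : ff F Lo q z P - ff F Lo q x P =
        ∑ w ∈ Lo, (z w - x w) * bb F Lo q x w P + ff F Lo q (fun w => z w - x w) P ∧
      ff F Lo q (fun w => 1 - z w) P - ff F Lo q (fun w => 1 - x w) P =
        - ∑ w ∈ Lo, (z w - x w) * bb F Lo q (fun w => 1 - x w) w P +
          ff F Lo q (fun w => z w - x w) P := by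
  constructor
  · have h := ff_add F Lo q x (fun w => z w - x w) P
    have e : (fun w => x w + (z w - x w)) = z := by funext w; ring
    rw [e] at h
    linarith
  · have h := ff_add F Lo q (fun w => 1 - x w) (fun w => - (z w - x w)) P
    have e : (fun w => 1 - x w + -(z w - x w)) = fun w => 1 - z w := by funext w; ring
    rw [e, ff_neg F Lo q (fun w => z w - x w) P] at h
    have e2 : ∑ w ∈ Lo, -(z w - x w) * bb F Lo q (fun w => 1 - x w) w P =
        - ∑ w ∈ Lo, (z w - x w) * bb F Lo q (fun w => 1 - x w) w P := by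
      rw [← Finset.sum_neg_distrib]
      exact Finset.sum_congr rfl fun w _ => by ring
    linarith

/-- The sums over `Lo` of a function vanishing outside `A`. -/
lemma sum_A {V : Type} (Lo A : Finset V) (hA : A ⊆ Lo) (y g : V → ℝ)
    (hy0 : ∀ w ∈ Lo, w ∉ A → y w = 0) : ∑ w ∈ Lo, y w * g w = ∑ w ∈ A, y w * g w := by
  rw [← Finset.sum_subset hA]
  intro w h1 h2
  rw [hy0 w h1 h2]; simp

lemma sum_A_le {V : Type} (A : Finset V) (y g : V → ℝ) (B : ℝ)
    (hy : ∀ w ∈ A, |y w| ≤ 1) (hg : ∀ w ∈ A, |g w| ≤ B) :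
    |∑ w ∈ A, y w * g w| ≤ A.card * B := by
  refine le_trans (Finset.abs_sum_le_sum_abs _ _) ?_
  have : ∀ w ∈ A, |y w * g w| ≤ B := by
    intro w hw
    rw [abs_mul]
    nlinarith [hy w hw, hg w hw, abs_nonneg (y w), abs_nonneg (g w)]
  refine le_trans (Finset.sum_le_sum this) ?_
  rw [Finset.sum_const, nsmul_eq_mul]

lemma hlc_aux {V : Type} (F : SimpleGraph V) (Lo : Finset V) (m : ℕ) (q : V → ℕ → ℝ)
    (hq : ∀ w ∈ Lo, ∀ P < m, 0 ≤ q w P ∧ q w P ≤ 1) (k : ℕ) : ∀ (x : V → ℝ)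
    (_ : ∀ w ∈ Lo, 0 ≤ x w ∧ x w ≤ 1) (_ : (Lo.filter fun w => 0 < x w ∧ x w < 1).card ≤ k),
    ∃ z : V → ℝ, (∀ w ∈ Lo, z w = 0 ∨ z w = 1) ∧
      |∑ w ∈ Lo, z w - ∑ w ∈ Lo, x w| ≤ 3 * m + 1 ∧
      (∀ P < m, |∑ w ∈ Lo, z w * q w P - ∑ w ∈ Lo, x w * q w P| ≤ 3 * m + 1) ∧
      ∀ P < m, |ff F Lo q z P - ff F Lo q x P| ≤
          k * (3 * m + 2) ^ 2 + 2 * (3 * m + 1) * Lo.card + (3 * m + 1) ^ 2 ∧
        |ff F Lo q (fun w => 1 - z w) P - ff F Lo q (fun w => 1 - x w) P| ≤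
          k * (3 * m + 2) ^ 2 + 2 * (3 * m + 1) * Lo.card + (3 * m + 1) ^ 2 := by
  -- the base
  have base : ∀ (k : ℕ) (x : V → ℝ)
    (_ : ∀ w ∈ Lo, 0 ≤ x w ∧ x w ≤ 1) (_ : (Lo.filter fun w => 0 < x w ∧ x w < 1).card ≤ 3 * m + 1),
    ∃ z : V → ℝ, (∀ w ∈ Lo, z w = 0 ∨ z w = 1) ∧
      |∑ w ∈ Lo, z w - ∑ w ∈ Lo, x w| ≤ 3 * m + 1 ∧
      (∀ P < m, |∑ w ∈ Lo, z w * q w P - ∑ w ∈ Lo, x w * q w P| ≤ 3 * m + 1) ∧
      ∀ P < m, |ff F Lo q z P - ff F Lo q x P| ≤
          k * (3 * m + 2) ^ 2 + 2 * (3 * m + 1) * Lo.card + (3 * m + 1) ^ 2 ∧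
        |ff F Lo q (fun w => 1 - z w) P - ff F Lo q (fun w => 1 - x w) P| ≤
          k * (3 * m + 2) ^ 2 + 2 * (3 * m + 1) * Lo.card + (3 * m + 1) ^ 2 := by
    intro k x hx hc
    obtain ⟨A, hAdef⟩ : ∃ A, A = Lo.filter fun w => 0 < x w ∧ x w < 1 := ⟨_, rfl⟩
    rw [← hAdef] at hc
    have hA : A ⊆ Lo := hAdef ▸ Finset.filter_subset _ _
    have hAc : (A.card : ℝ) ≤ 3 * m + 1 := by exact_mod_cast hc
    obtain ⟨z, hz⟩ : ∃ z : V → ℝ, z = fun w => if w ∈ A then 0 else x w := ⟨_, rfl⟩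
    have hy0 : ∀ w ∈ Lo, w ∉ A → z w - x w = 0 := by
      intro w _ h; rw [hz]; simp [h]
    have hyA : ∀ w ∈ A, |z w - x w| ≤ 1 := by
      intro w h
      obtain ⟨h1, h2⟩ := hx w (hA h)
      rw [hz]; simp only [h, if_true]
      rw [abs_le]; constructor <;> linarith
    have hx1 : ∀ w ∈ Lo, 0 ≤ 1 - x w ∧ 1 - x w ≤ 1 := by
      intro w hw; obtain ⟨h1, h2⟩ := hx w hw; constructor <;> linarith
    have hkk : (0 : ℝ) ≤ k * (3 * m + 2) ^ 2 := by positivity
    have hsum : ∀ g : V → ℝ, (∀ w ∈ A, |g w| ≤ 1) →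
        |∑ w ∈ Lo, z w * g w - ∑ w ∈ Lo, x w * g w| ≤ 3 * m + 1 := by
      intro g hg
      have e : ∑ w ∈ Lo, z w * g w - ∑ w ∈ Lo, x w * g w = ∑ w ∈ A, (z w - x w) * g w := by
        rw [← sum_A Lo A hA (fun w => z w - x w) g hy0, ← Finset.sum_sub_distrib]
        exact Finset.sum_congr rfl fun w _ => by ring
      rw [e]
      have := sum_A_le A (fun w => z w - x w) g 1 hyA hg
      linarith
    refine ⟨z, ?_, ?_, ?_, ?_⟩
    · intro w hw
      by_cases h : w ∈ A
      · left; rw [hz]; simp [h]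
      · have h1 : ¬ (0 < x w ∧ x w < 1) := fun h' => h (by rw [hAdef]; exact Finset.mem_filter.2 ⟨hw, h'⟩)
        have h2 : z w = x w := by rw [hz]; simp [h]
        rw [h2]
        obtain ⟨g1, g2⟩ := hx w hw
        by_cases h3 : 0 < x w
        · right
          by_contra hcon
          exact h1 ⟨h3, lt_of_le_of_ne g2 hcon⟩
        · left; linarith
    · have := hsum (fun _ => 1) (fun w _ => by simp)
      simp only [mul_one] at this
      exact this
    · intro P hP
      refine hsum (fun w => q w P) (fun w hw => ?_)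
      obtain ⟨h1, h2⟩ := hq w (hA hw) P hP
      rw [abs_le]; constructor <;> linarith
    · intro P hP
      obtain ⟨c1, c2⟩ := ff_change F Lo q x z P
      have hff := ff_small F Lo m q hq A hA (fun w => z w - x w) hy0 hyA P hP
      have hL : (0 : ℝ) ≤ Lo.card := Nat.cast_nonneg _
      have hA0 : (0 : ℝ) ≤ A.card := Nat.cast_nonneg _
      have hA2 : (A.card : ℝ) ^ 2 ≤ (3 * m + 1) ^ 2 := by nlinarith
      constructor
      · rw [c1, sum_A Lo A hA (fun w => z w - x w) _ hy0]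
        have h1 := sum_A_le A (fun w => z w - x w) (fun w => bb F Lo q x w P) (2 * Lo.card) hyA
          (fun w hw => bb_le F Lo m q hq x hx w (hA hw) P hP)
        have h2 := abs_add_le (∑ w ∈ A, (z w - x w) * bb F Lo q x w P)
          (ff F Lo q (fun w => z w - x w) P)
        have h3 : (A.card : ℝ) * (2 * Lo.card) ≤ 2 * (3 * m + 1) * Lo.card := by nlinarith
        linarith
      · rw [c2, sum_A Lo A hA (fun w => z w - x w) _ hy0]
        have h1 := sum_A_le A (fun w => z w - x w) (fun w => bb F Lo q (fun w => 1 - x w) w P)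
          (2 * Lo.card) hyA (fun w hw => bb_le F Lo m q hq _ hx1 w (hA hw) P hP)
        have h2 := abs_add_le (- ∑ w ∈ A, (z w - x w) * bb F Lo q (fun w => 1 - x w) w P)
          (ff F Lo q (fun w => z w - x w) P)
        rw [abs_neg] at h2
        have h3 : (A.card : ℝ) * (2 * Lo.card) ≤ 2 * (3 * m + 1) * Lo.card := by nlinarith
        linarith
  induction k with
  | zero =>
    intro x hx hc
    exact base 0 x hx (by omega)
  | succ k ih =>
    intro x hx hc
    by_cases hD : (Lo.filter fun w => 0 < x w ∧ x w < 1).card ≤ 3 * m + 1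
    · exact base (k + 1) x hx hD
    push Not at hD
    obtain ⟨A, hAF, hAcard⟩ := Finset.exists_subset_card_eq (show 3 * m + 2 ≤
      (Lo.filter fun w => 0 < x w ∧ x w < 1).card by omega)
    have hA : A ⊆ Lo := hAF.trans (Finset.filter_subset _ _)
    have hfrac : ∀ e ∈ A, 0 < x e ∧ x e < 1 := fun e he => (Finset.mem_filter.1 (hAF he)).2
    obtain ⟨z, hz1, hz2, ⟨e0, he0, hz3⟩, hz4⟩ := stp A (3 * m + 1)
      (fun w P => if P < m then bb F Lo q x w P else if P < 2 * m then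
        bb F Lo q (fun _ => 1) w (P - m) else if P < 3 * m then q w (P - 2 * m) else 1) x
      (by omega) hfrac
    have s1 : ∀ P < m, ∑ e ∈ A, (z e - x e) * bb F Lo q x e P = 0 := by
      intro P hP
      have h := hz4 P (by omega)
      simp only [hP, if_true] at h
      have e : ∑ e ∈ A, (z e - x e) * bb F Lo q x e P =
        ∑ e ∈ A, z e * bb F Lo q x e P - ∑ e ∈ A, x e * bb F Lo q x e P := by
        rw [← Finset.sum_sub_distrib]
        exact Finset.sum_congr rfl fun w _ => by ring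
      rw [e, h]; ring
    have s2 : ∀ P < m, ∑ e ∈ A, (z e - x e) * bb F Lo q (fun _ => 1) e P = 0 := by
      intro P hP
      have h := hz4 (m + P) (by omega)
      have g1 : ¬ (m + P < m) := by omega
      have g2 : m + P < 2 * m := by omega
      have g3 : m + P - m = P := by omega
      simp only [g1, g2, if_true, if_false, g3] at h
      have e : ∑ e ∈ A, (z e - x e) * bb F Lo q (fun _ => 1) e P =
        ∑ e ∈ A, z e * bb F Lo q (fun _ => 1) e P - ∑ e ∈ A, x e * bb F Lo q (fun _ => 1) e P := by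
        rw [← Finset.sum_sub_distrib]
        exact Finset.sum_congr rfl fun w _ => by ring
      rw [e, h]; ring
    have s3 : ∀ P < m, ∑ e ∈ A, z e * q e P = ∑ e ∈ A, x e * q e P := by
      intro P hP
      have h := hz4 (2 * m + P) (by omega)
      have g1 : ¬ (2 * m + P < m) := by omega
      have g2 : ¬ (2 * m + P < 2 * m) := by omega
      have g4 : 2 * m + P < 3 * m := by omega
      have g3 : 2 * m + P - 2 * m = P := by omega
      simp only [g1, g2, g4, if_true, if_false, g3] at h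
      exact h
    have s4 : ∑ e ∈ A, z e * 1 = ∑ e ∈ A, x e * 1 := by
      have h := hz4 (3 * m) (by omega)
      have g1 : ¬ (3 * m < m) := by omega
      have g2 : ¬ (3 * m < 2 * m) := by omega
      have g4 : ¬ (3 * m < 3 * m) := by omega
      simp only [g1, g2, g4, if_false] at h
      exact h
    have hy0 : ∀ w ∈ Lo, w ∉ A → z w - x w = 0 := by
      intro w _ h; rw [hz1 w h]; ring
    have hyA : ∀ w ∈ A, |z w - x w| ≤ 1 := by
      intro w h
      obtain ⟨h1, h2⟩ := hfrac w h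
      obtain ⟨h3, h4⟩ := hz2 w h
      rw [abs_le]; constructor <;> linarith
    have hzx : ∀ w ∈ Lo, 0 ≤ z w ∧ z w ≤ 1 := by
      intro w hw
      by_cases h : w ∈ A
      · exact hz2 w h
      · rw [hz1 w h]; exact hx w hw
    have hlt : (Lo.filter fun w => 0 < z w ∧ z w < 1).card ≤ k := by
      have hsub : (Lo.filter fun w => 0 < z w ∧ z w < 1) ⊂
          (Lo.filter fun w => 0 < x w ∧ x w < 1) := by
        rw [Finset.ssubset_iff_of_subset]
        · refine ⟨e0, hAF he0, fun h => ?_⟩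
          obtain ⟨_, g1, g2⟩ := Finset.mem_filter.1 h
          rcases hz3 with h3 | h3
          · rw [h3] at g1; exact lt_irrefl _ g1
          · rw [h3] at g2; exact lt_irrefl _ g2
        · intro w hw
          obtain ⟨g0, g1, g2⟩ := Finset.mem_filter.1 hw
          by_cases h : w ∈ A
          · exact hAF h
          · rw [hz1 w h] at g1 g2
            exact Finset.mem_filter.2 ⟨g0, g1, g2⟩
      have := Finset.card_lt_card hsub
      omega
    have hsum : ∀ g : V → ℝ, ∑ e ∈ A, z e * g e = ∑ e ∈ A, x e * g e →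
        ∑ w ∈ Lo, z w * g w = ∑ w ∈ Lo, x w * g w := by
      intro g hg
      have e : ∑ w ∈ Lo, z w * g w - ∑ w ∈ Lo, x w * g w = ∑ w ∈ A, (z w - x w) * g w := by
        rw [← sum_A Lo A hA (fun w => z w - x w) g hy0, ← Finset.sum_sub_distrib]
        exact Finset.sum_congr rfl fun w _ => by ring
      have e2 : ∑ w ∈ A, (z w - x w) * g w = ∑ w ∈ A, z w * g w - ∑ w ∈ A, x w * g w := by
        rw [← Finset.sum_sub_distrib]
        exact Finset.sum_congr rfl fun w _ => by ring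
      rw [e2, hg] at e
      linarith
    obtain ⟨z', r1, r2, r3, r4⟩ := ih z hzx hlt
    refine ⟨z', r1, ?_, ?_, ?_⟩
    · have h := hsum (fun _ => 1) s4
      simp only [mul_one] at h
      rw [← h]; exact r2
    · intro P hP
      have h := hsum (fun w => q w P) (s3 P hP)
      rw [← h]; exact r3 P hP
    · intro P hP
      obtain ⟨c1, c2⟩ := ff_change F Lo q x z P
      have hff := ff_small F Lo m q hq A hA (fun w => z w - x w) hy0 hyA P hP
      have hAc : (A.card : ℝ) = 3 * m + 2 := by rw [hAcard]; push_cast; ring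
      rw [hAc] at hff
      rw [sum_A Lo A hA (fun w => z w - x w) _ hy0] at c1 c2
      rw [s1 P hP] at c1
      have s5 : ∑ w ∈ A, (z w - x w) * bb F Lo q (fun w => 1 - x w) w P = 0 := by
        have e : ∑ w ∈ A, (z w - x w) * bb F Lo q (fun w => 1 - x w) w P =
          ∑ w ∈ A, (z w - x w) * bb F Lo q (fun _ => 1) w P -
            ∑ w ∈ A, (z w - x w) * bb F Lo q x w P := by
          rw [← Finset.sum_sub_distrib]
          refine Finset.sum_congr rfl fun w _ => ?_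
          rw [bb_sub]; ring
        rw [e, s1 P hP, s2 P hP]; ring
      rw [s5] at c2
      obtain ⟨t1, t2⟩ := r4 P hP
      push_cast
      constructor
      · have h := abs_add_le (ff F Lo q z' P - ff F Lo q z P) (ff F Lo q z P - ff F Lo q x P)
        have e : ff F Lo q z' P - ff F Lo q z P + (ff F Lo q z P - ff F Lo q x P) =
          ff F Lo q z' P - ff F Lo q x P := by ring
        rw [e] at h
        have h5 : |ff F Lo q z P - ff F Lo q x P| ≤ (3 * m + 2) ^ 2 := by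
          rw [c1, zero_add]; exact hff
        linarith
      · have h := abs_add_le (ff F Lo q (fun w => 1 - z' w) P - ff F Lo q (fun w => 1 - z w) P)
          (ff F Lo q (fun w => 1 - z w) P - ff F Lo q (fun w => 1 - x w) P)
        have e : ff F Lo q (fun w => 1 - z' w) P - ff F Lo q (fun w => 1 - z w) P +
            (ff F Lo q (fun w => 1 - z w) P - ff F Lo q (fun w => 1 - x w) P) =
          ff F Lo q (fun w => 1 - z' w) P - ff F Lo q (fun w => 1 - x w) P := by ring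
        rw [e] at h
        have h5 : |ff F Lo q (fun w => 1 - z w) P - ff F Lo q (fun w => 1 - x w) P| ≤
            (3 * m + 2) ^ 2 := by
          rw [c2, neg_zero, zero_add]; exact hff
        linarith

theorem hlc {V : Type} (F : SimpleGraph V) (Lo : Finset V) (m : ℕ) (q : V → ℕ → ℝ)
    (hq : ∀ w ∈ Lo, ∀ P < m, 0 ≤ q w P ∧ q w P ≤ 1) (x : V → ℝ)
    (hx : ∀ w ∈ Lo, 0 ≤ x w ∧ x w ≤ 1) :
    ∃ z : V → ℝ, (∀ w ∈ Lo, z w = 0 ∨ z w = 1) ∧
      |∑ w ∈ Lo, z w - ∑ w ∈ Lo, x w| ≤ 3 * m + 1 ∧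
      (∀ P < m, |∑ w ∈ Lo, z w * q w P - ∑ w ∈ Lo, x w * q w P| ≤ 3 * m + 1) ∧
      ∀ P < m, |ff F Lo q z P - ff F Lo q x P| ≤
          Lo.card * (3 * m + 2) ^ 2 + 2 * (3 * m + 1) * Lo.card + (3 * m + 1) ^ 2 ∧
        |ff F Lo q (fun w => 1 - z w) P - ff F Lo q (fun w => 1 - x w) P| ≤
          Lo.card * (3 * m + 2) ^ 2 + 2 * (3 * m + 1) * Lo.card + (3 * m + 1) ^ 2 := by
  obtain ⟨z, h1, h2, h3, h4⟩ := hlc_aux F Lo m q hq Lo.card x hx (Finset.card_filter_le _ _)
  exact ⟨z, h1, h2, h3, h4⟩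

end Pool.Agent.H90.KB
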