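import Mathlib
import Pool.Agent.H90.KB.Hlc

/-!
HLV: the exceptional set is divided into two parts, each of which contains nearly a quarter of the (weighted) edges (60 - 110 lines). Use the STATEMENT of `hlc`.

Proof.  If `Lo = ∅`: `T = ∅`, everything is `0`. Otherwise `hlc` with `x := 1 / 2` gives `z`; `T := {w ∈ Lo : z w = 1}`. `∑_Lo z = #T`, `∑_Lo z q = ∑_T q`, `ff z P = ∑_{w ∈ T} dgi F T w * q w P` (only the terms `w, w' ∈ T` remain), `ff (1 - z) P = ∑_{w ∈ Lo \ T} dgi F (Lo \ T) w * q w P`,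
`ff (1/2) P = ff (1 - 1/2) P = (∑_Lo dgi F Lo w * q w P) / 4`. The error is at most `#Lo (3 m + 2)^2 + 2 (3 m + 1) #Lo + (3 m + 1)^2 ≤ 2 (3 m + 2)^2 #Lo` as `#Lo ≥ 1`: `2 (3 m + 1) + (3 m + 1)^2 ≤ (3 m + 2)^2`.
-/

set_option autoImplicit false

namespace Pool.Agent.H90.KB

open Finset Classical
open Pool.Agent.H71.HL

private theorem hlv_ff {V : Type} (F : SimpleGraph V) (Lo T : Finset V) (hT : T ⊆ Lo)
    (q : V → ℕ → ℝ) (x : V → ℝ) (h1 : ∀ w ∈ T, x w = 1) (h0 : ∀ w ∈ Lo, w ∉ T → x w = 0) (P : ℕ) :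
    ff F Lo q x P = ∑ w ∈ T, (dgi F T w : ℝ) * q w P := by
  unfold ff
  rw [← Finset.sum_subset hT]
  · apply Finset.sum_congr rfl
    intro w hw
    rw [← Finset.sum_subset hT]
    · have h2 : ∀ w' ∈ T, (if F.Adj w w' then x w * x w' * q w P else 0) =
          if F.Adj w w' then q w P else 0 := by
        intro w' hw'
        rw [h1 w hw, h1 w' hw', one_mul, one_mul]
      rw [Finset.sum_congr rfl h2, ← Finset.sum_filter, Finset.sum_const, nsmul_eq_mul]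
      rfl
    · intro w' hw' hn
      rw [h0 w' hw' hn]
      split_ifs <;> simp
  · intro w hw hn
    apply Finset.sum_eq_zero
    intro w' _
    rw [h0 w hw hn]
    split_ifs <;> simp

private theorem hlv_c {V : Type} (F : SimpleGraph V) (Lo : Finset V)
    (q : V → ℕ → ℝ) (x : V → ℝ) (hx : ∀ w, x w = 1 / 2) (P : ℕ) :
    ff F Lo q x P = (∑ w ∈ Lo, (dgi F Lo w : ℝ) * q w P) / 4 := by
  unfold ff
  rw [Finset.sum_div]
  apply Finset.sum_congr rfl
  intro w hw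
  have h2 : ∀ w' ∈ Lo, (if F.Adj w w' then x w * x w' * q w P else 0) =
      if F.Adj w w' then q w P / 4 else 0 := by
    intro w' hw'
    rw [hx w, hx w']
    split_ifs
    · ring
    · rfl
  rw [Finset.sum_congr rfl h2, ← Finset.sum_filter, Finset.sum_const, nsmul_eq_mul]
  have h3 : ((Lo.filter fun w' => F.Adj w w').card : ℝ) = (dgi F Lo w : ℝ) := rfl
  rw [h3]
  ring

theorem hlv {V : Type} (F : SimpleGraph V) (Lo : Finset V) (m : ℕ) (q : V → ℕ → ℝ)
    (hq : ∀ w ∈ Lo, ∀ P < m, 0 ≤ q w P ∧ q w P ≤ 1) :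
    ∃ T ⊆ Lo, |(T.card : ℝ) - Lo.card / 2| ≤ 3 * m + 1 ∧
      (∀ P < m, |∑ w ∈ T, q w P - (∑ w ∈ Lo, q w P) / 2| ≤ 3 * m + 1) ∧
      ∀ P < m, |∑ w ∈ T, (dgi F T w : ℝ) * q w P - (∑ w ∈ Lo, (dgi F Lo w : ℝ) * q w P) / 4| ≤
          2 * (3 * m + 2) ^ 2 * Lo.card ∧
        |∑ w ∈ Lo \ T, (dgi F (Lo \ T) w : ℝ) * q w P -
            (∑ w ∈ Lo, (dgi F Lo w : ℝ) * q w P) / 4| ≤ 2 * (3 * m + 2) ^ 2 * Lo.card := by
  have hm0 : (0 : ℝ) ≤ m := Nat.cast_nonneg m
  rcases Lo.eq_empty_or_nonempty with rfl | hne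
  · refine ⟨∅, Finset.Subset.refl _, ?_, ?_, ?_⟩
    · simp only [Finset.card_empty, Nat.cast_zero, zero_div, sub_zero, abs_zero]
      linarith
    · intro P _
      simp only [Finset.sum_empty, zero_div, sub_zero, abs_zero]
      linarith
    · intro P _
      simp
  · obtain ⟨z, hz, hz1, hz2, hz3⟩ := hlc F Lo m q hq (fun _ => 1 / 2)
      (fun w _ => by constructor <;> norm_num)
    set T : Finset V := Lo.filter fun w => z w = 1 with hTdef
    have hTs : T ⊆ Lo := Finset.filter_subset _ _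
    have hT1 : ∀ w ∈ T, z w = 1 := fun w hw => (Finset.mem_filter.1 hw).2
    have hT0 : ∀ w ∈ Lo, w ∉ T → z w = 0 := by
      intro w hw hn
      rcases hz w hw with h | h
      · exact h
      · exact absurd (Finset.mem_filter.2 ⟨hw, h⟩) hn
    have hS1 : ∀ w ∈ Lo \ T, 1 - z w = 1 := by
      intro w hw
      rw [Finset.mem_sdiff] at hw
      rw [hT0 w hw.1 hw.2, sub_zero]
    have hS0 : ∀ w ∈ Lo, w ∉ Lo \ T → 1 - z w = 0 := by
      intro w hw hn
      have h3 : w ∈ T := by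
        by_contra h4
        exact hn (Finset.mem_sdiff.2 ⟨hw, h4⟩)
      rw [hT1 w h3, sub_self]
    have e1 : ∑ w ∈ Lo, z w = (T.card : ℝ) := by
      rw [← Finset.sum_subset hTs (fun w hw hn => hT0 w hw hn), Finset.sum_congr rfl hT1,
        Finset.sum_const, nsmul_eq_mul, mul_one]
    have e2 : ∑ w ∈ Lo, (1 / 2 : ℝ) = (Lo.card : ℝ) / 2 := by
      rw [Finset.sum_const, nsmul_eq_mul]
      ring
    have e3 : ∀ P, ∑ w ∈ Lo, z w * q w P = ∑ w ∈ T, q w P := by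
      intro P
      rw [← Finset.sum_subset hTs (fun w hw hn => by rw [hT0 w hw hn, zero_mul])]
      apply Finset.sum_congr rfl
      intro w hw
      rw [hT1 w hw, one_mul]
    have e4 : ∀ P, ∑ w ∈ Lo, (1 / 2 : ℝ) * q w P = (∑ w ∈ Lo, q w P) / 2 := by
      intro P
      rw [← Finset.mul_sum]
      ring
    have hcard : (1 : ℝ) ≤ Lo.card := by
      have := Finset.card_pos.2 hne
      exact_mod_cast this
    have herr : (Lo.card : ℝ) * (3 * m + 2) ^ 2 + 2 * (3 * m + 1) * Lo.card + (3 * m + 1) ^ 2 ≤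
        2 * (3 * m + 2) ^ 2 * Lo.card := by
      have h5 : (3 * (m : ℝ) + 1) ^ 2 ≤ (3 * (m : ℝ) + 1) ^ 2 * Lo.card :=
        le_mul_of_one_le_right (sq_nonneg _) hcard
      nlinarith
    refine ⟨T, hTs, ?_, ?_, ?_⟩
    · have h6 := hz1
      rw [e1] at h6
      have h7 : ∑ w ∈ Lo, (fun _ : V => (1 / 2 : ℝ)) w = (Lo.card : ℝ) / 2 := e2
      rwa [h7] at h6
    · intro P hP
      have h6 := hz2 P hP
      rw [e3] at h6
      have h7 : ∑ w ∈ Lo, (fun _ : V => (1 / 2 : ℝ)) w * q w P = (∑ w ∈ Lo, q w P) / 2 := e4 P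
      rwa [h7] at h6
    · intro P hP
      obtain ⟨h6, h7⟩ := hz3 P hP
      rw [hlv_ff F Lo T hTs q z hT1 hT0 P, hlv_c F Lo q _ (fun _ => rfl) P] at h6
      rw [hlv_ff F Lo (Lo \ T) Finset.sdiff_subset q _ hS1 hS0 P,
        hlv_c F Lo q _ (fun _ => by norm_num) P] at h7
      exact ⟨h6.trans herr, h7.trans herr⟩

end Pool.Agent.H90.KB
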