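import Mathlib
import Pool.Agent.H90.KB.Stp

/-!
RND: rounding of real coefficients with `d` linear forms (60 - 100 lines). Use the STATEMENT of `stp`.

Proof.  Strong induction on `#{e ∈ S : 0 < x e < 1}` (for all `x`), `A :=` this set. If `#A ≤ d`: `T := {e ∈ S : 0 < x e}`. For `e ∈ S \ A`: `x e = 0` (not in `T`) or `x e = 1` (in `T`), so `∑_T v e P - ∑_S x e * v e P = ∑_{e ∈ A} (1 - x e) * v e P`, at most `#A * M ≤ d * M` in absolute value.
If `#A > d`: `stp A d v x` gives `z`; `z e = x e` for `e ∉ A`, so `0 ≤ z ≤ 1` on `S`, `∑_S z e * v e P = ∑_S x e * v e P` (`P < d`), and `{e ∈ S : 0 < z e < 1}` is a proper subset of `A`: use the induction hypothesis for `z`.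
-/

set_option autoImplicit false

namespace Pool.Agent.H90.KB

open Finset Classical

private lemma KbRnd_base {E : Type} (S : Finset E) (d : ℕ) (v : E → ℕ → ℝ) (M : ℝ) (hM0 : 0 ≤ M)
    (hM : ∀ e ∈ S, ∀ P < d, |v e P| ≤ M) (x : E → ℝ) (hx : ∀ e ∈ S, 0 ≤ x e ∧ x e ≤ 1)
    (hA : (S.filter fun e => 0 < x e ∧ x e < 1).card ≤ d) :
    ∃ T ⊆ S, ∀ P < d, |∑ e ∈ T, v e P - ∑ e ∈ S, x e * v e P| ≤ d * M := by
  refine ⟨S.filter fun e => 0 < x e, filter_subset _ _, fun P hP => ?_⟩
  rw [sum_filter, ← sum_sub_distrib]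
  have h1 : ∀ e ∈ S, ((if 0 < x e then v e P else 0) - x e * v e P) =
      if (0 < x e ∧ x e < 1) then (1 - x e) * v e P else 0 := by
    intro e he
    obtain ⟨h0, h1⟩ := hx e he
    split_ifs with ha hb hb
    · ring
    · have : x e = 1 := le_antisymm h1 (not_lt.1 fun h => hb ⟨ha, h⟩)
      rw [this]
      ring
    · exact absurd hb.1 ha
    · have : x e = 0 := le_antisymm (not_lt.1 ha) h0
      rw [this]
      ring
  rw [sum_congr rfl h1, ← sum_filter]
  refine (abs_sum_le_sum_abs _ _).trans ?_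
  calc ∑ e ∈ S.filter (fun e => 0 < x e ∧ x e < 1), |(1 - x e) * v e P|
      ≤ ∑ e ∈ S.filter (fun e => 0 < x e ∧ x e < 1), M := by
        refine sum_le_sum fun e he => ?_
        rw [mem_filter] at he
        rw [abs_mul, abs_of_nonneg (by linarith [he.2.2])]
        calc (1 - x e) * |v e P| ≤ 1 * M :=
              mul_le_mul (by linarith [he.2.1]) (hM e he.1 P hP) (abs_nonneg _) zero_le_one
          _ = M := one_mul M
    _ = (S.filter fun e => 0 < x e ∧ x e < 1).card * M := by rw [sum_const, nsmul_eq_mul]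
    _ ≤ d * M := mul_le_mul_of_nonneg_right (by exact_mod_cast hA) hM0

theorem rnd {E : Type} (S : Finset E) (d : ℕ) (v : E → ℕ → ℝ) (M : ℝ) (hM0 : 0 ≤ M)
    (hM : ∀ e ∈ S, ∀ P < d, |v e P| ≤ M) (x : E → ℝ) (hx : ∀ e ∈ S, 0 ≤ x e ∧ x e ≤ 1) :
    ∃ T ⊆ S, ∀ P < d, |∑ e ∈ T, v e P - ∑ e ∈ S, x e * v e P| ≤ d * M := by
  obtain ⟨n, hn⟩ : ∃ n, (S.filter fun e => 0 < x e ∧ x e < 1).card = n := ⟨_, rfl⟩
  induction n using Nat.strong_induction_on generalizing x with
  | _ n ih =>
    by_cases h : (S.filter fun e => 0 < x e ∧ x e < 1).card ≤ d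
    · exact KbRnd_base S d v M hM0 hM x hx h
    · rw [not_le] at h
      obtain ⟨z, hz1, hz2, ⟨e0, he0, hz3⟩, hz4⟩ := stp (S.filter fun e => 0 < x e ∧ x e < 1) d v x h
        (fun e he => (mem_filter.1 he).2)
      have hzx : ∀ e ∈ S, 0 ≤ z e ∧ z e ≤ 1 := by
        intro e he
        by_cases hea : e ∈ S.filter fun e => 0 < x e ∧ x e < 1
        · exact hz2 e hea
        · rw [hz1 e hea]
          exact hx e he
      have hsub : (S.filter fun e => 0 < z e ∧ z e < 1) ⊂
          (S.filter fun e => 0 < x e ∧ x e < 1) := by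
        rw [Finset.ssubset_iff_of_subset]
        · refine ⟨e0, he0, fun h' => ?_⟩
          have h2 := (mem_filter.1 h').2
          rcases hz3 with h3 | h3
          · exact absurd h2.1 (by rw [h3]; exact lt_irrefl _)
          · exact absurd h2.2 (by rw [h3]; exact lt_irrefl _)
        · intro e he
          have he' := mem_filter.1 he
          by_contra hea
          have h5 := he'.2
          rw [hz1 e hea] at h5
          exact hea (mem_filter.2 ⟨he'.1, h5⟩)
      obtain ⟨T, hT, hTP⟩ := ih _ (hn ▸ card_lt_card hsub) z hzx rfl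
      refine ⟨T, hT, fun P hP => ?_⟩
      have hs : ∑ e ∈ S, z e * v e P = ∑ e ∈ S, x e * v e P := by
        rw [← sum_filter_add_sum_filter_not S (fun e => 0 < x e ∧ x e < 1) (fun e => z e * v e P),
          ← sum_filter_add_sum_filter_not S (fun e => 0 < x e ∧ x e < 1) (fun e => x e * v e P),
          hz4 P hP]
        congr 1
        refine sum_congr rfl fun e he => ?_
        rw [hz1 e (fun h' => (mem_filter.1 he).2 (mem_filter.1 h').2)]
      rw [← hs]
      exact hTP P hP

end Pool.Agent.H90.KB
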