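import Mathlib
import Pool.Agent.H2.NE.Main
import Pool.Agent.H2.NE.Ne3
import Pool.Agent.H90.KB.Rnd

/-!
RNE: nearly equitable colourings for real weights of the vertices (120 - 200 lines). Use the STATEMENT of `rnd` and the lemmas of `Pool/Agent/H2/NE/{Kempe,Main,Ne3}.lean` (`kg, sw, sw', sw_inv, sw'_inv, ends_le, zz_sub, zz_add, zz_tot`; the replacement of two matchings of a `Col` in `Ne3.lean` / `Main.lean`, compare the proof of `ne3`).

Proof.  `G mm ℓ P := ∑_{v : mm ℓ v ≠ v} g v P`. Choose among all `mm` with `Col H L mm` one for which `Φ mm := ∑_{ℓ < L} ∑_{P < m} (G mm ℓ P)^2` is smallest (only the values `mm ℓ`, `ℓ < L`, matter, `V` is finite, so `Φ` has only finitely many values on these `mm`; e.g. minimise over the finite type `Fin L → V → V`).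
Let `i, j < L`, `i ≠ j`, `μ := mm i`, `ν := mm j`, `D P := G μ P - G ν P`. For a component `C` of `kg μ ν` let `δ_C P := ∑_{v ∈ C} g v P ([μ v ≠ v] - [ν v ≠ v])`: by `ends_le` at most two terms are not `0`, so `|δ_C P| ≤ 2`; `D P = ∑_C δ_C P`. `rnd` with `M := 2`, `x := 1/2` (all components) gives a set `T` of components with
`|∑_{C ∈ T} δ_C P - D P / 2| ≤ 2 m`. For `μ' := sw μ ν T`, `ν' := sw' μ ν T`: `G μ' P + G ν' P = G μ P + G ν P`, `G μ' P - G ν' P = D P - 2 ∑_{C ∈ T} δ_C P`, so `|G μ' P - G ν' P| ≤ 4 m`. Replacing `mm i, mm j` by `μ', ν'` gives again a `Col H L`. As `a^2 + b^2 = ((a+b)^2 + (a-b)^2) / 2`, minimality gives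
`∑_{P < m} (D P)^2 ≤ ∑_{P < m} (G μ' P - G ν' P)^2 ≤ m (4 m)^2 ≤ (4 m^2)^2` (for `m ≥ 1`: `16 m^3 ≤ 16 m^4`), so `|D P| ≤ 4 m^2`.
-/

set_option autoImplicit false

namespace Pool.Agent.H90.KB

open Finset Classical
open Pool.Agent.H71.DN Pool.Agent.H2.NE

/-- The weight of the covered vertices. -/
private noncomputable def KbRneG {V : Type} [Fintype V] (g : V → ℕ → ℝ) (μ : V → V) (P : ℕ) : ℝ :=
  ∑ v ∈ univ.filter (fun v => μ v ≠ v), g v P

private lemma KbRne_G_eq {V : Type} [Fintype V] (g : V → ℕ → ℝ) (μ : V → V) (P : ℕ) :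
    KbRneG g μ P = ∑ v, g v P * (if μ v ≠ v then 1 else 0) := by
  unfold KbRneG
  rw [Finset.sum_filter]
  refine Finset.sum_congr rfl fun v _ => ?_
  by_cases h : μ v ≠ v
  · rw [if_pos h, if_pos h, mul_one]
  · rw [if_neg h, if_neg h, mul_zero]

/-- The contribution of a component. -/
private noncomputable def KbRneD {V : Type} [Fintype V] (g : V → ℕ → ℝ) (μ ν : V → V)
    (C : (kg μ ν).ConnectedComponent) (P : ℕ) : ℝ :=
  ∑ v ∈ univ.filter fun v => (kg μ ν).connectedComponentMk v = C,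
    g v P * ((if μ v ≠ v then 1 else 0) - (if ν v ≠ v then 1 else 0))

private lemma KbRne_D_le {V : Type} [Fintype V] (g : V → ℕ → ℝ) (P : ℕ) (hg : ∀ v, |g v P| ≤ 1)
    (μ ν : V → V) (hμ : Inv μ) (hν : Inv ν) (C : (kg μ ν).ConnectedComponent) :
    |KbRneD g μ ν C P| ≤ 2 := by
  have h1 : |KbRneD g μ ν C P| ≤
      ∑ v ∈ univ.filter fun v => (kg μ ν).connectedComponentMk v = C,
        (if ¬ (μ v ≠ v ↔ ν v ≠ v) then (1 : ℝ) else 0) := by
    unfold KbRneD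
    refine (Finset.abs_sum_le_sum_abs _ _).trans (Finset.sum_le_sum fun v _ => ?_)
    rw [abs_mul]
    by_cases h3 : μ v ≠ v <;> by_cases h4 : ν v ≠ v
    · rw [if_pos h3, if_pos h4, if_neg (by tauto), sub_self, abs_zero, mul_zero]
    · rw [if_pos h3, if_neg h4, if_pos (by tauto), sub_zero, abs_one, mul_one]
      exact hg v
    · rw [if_neg h3, if_pos h4, if_pos (by tauto), zero_sub, abs_neg, abs_one, mul_one]
      exact hg v
    · rw [if_neg h3, if_neg h4, if_neg (by tauto), sub_self, abs_zero, mul_zero]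
  refine h1.trans ?_
  rw [← Finset.sum_filter, Finset.filter_filter, Finset.sum_const, nsmul_eq_mul, mul_one]
  exact_mod_cast ends_le μ ν hμ hν C

private lemma KbRne_fib {V : Type} [Fintype V] (g : V → ℕ → ℝ) (μ ν : V → V) (P : ℕ)
    (F : Finset (kg μ ν).ConnectedComponent) :
    ∑ C ∈ F, KbRneD g μ ν C P = ∑ v, if (kg μ ν).connectedComponentMk v ∈ F then
      g v P * ((if μ v ≠ v then 1 else 0) - (if ν v ≠ v then 1 else 0)) else 0 := by
  unfold KbRneD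
  rw [← Finset.sum_filter]
  symm
  rw [← Finset.sum_fiberwise_of_maps_to (s := univ.filter fun v =>
    (kg μ ν).connectedComponentMk v ∈ F) (t := F)
    (g := fun v => (kg μ ν).connectedComponentMk v) (fun v hv => (mem_filter.1 hv).2)]
  refine Finset.sum_congr rfl fun C hC => Finset.sum_congr ?_ fun _ _ => rfl
  ext v
  simp only [mem_filter, mem_univ, true_and]
  constructor
  · rintro ⟨_, h⟩
    exact h
  · intro h
    exact ⟨by rw [h]; exact hC, h⟩

private lemma KbRne_tot {V : Type} [Fintype V] (g : V → ℕ → ℝ) (μ ν : V → V) (P : ℕ)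
    [Fintype (kg μ ν).ConnectedComponent] :
    ∑ C : (kg μ ν).ConnectedComponent, KbRneD g μ ν C P = KbRneG g μ P - KbRneG g ν P := by
  rw [KbRne_fib, KbRne_G_eq, KbRne_G_eq, ← Finset.sum_sub_distrib]
  refine Finset.sum_congr rfl fun v _ => ?_
  rw [if_pos (mem_univ _)]
  ring

private lemma KbRne_sub {V : Type} [Fintype V] (g : V → ℕ → ℝ) (μ ν : V → V) (P : ℕ)
    (F : Finset (kg μ ν).ConnectedComponent) :
    KbRneG g (sw μ ν F) P - KbRneG g (sw' μ ν F) P =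
      (KbRneG g μ P - KbRneG g ν P) - 2 * ∑ C ∈ F, KbRneD g μ ν C P := by
  rw [KbRne_fib, KbRne_G_eq, KbRne_G_eq, KbRne_G_eq, KbRne_G_eq, ← Finset.sum_sub_distrib,
    ← Finset.sum_sub_distrib, Finset.mul_sum, ← Finset.sum_sub_distrib]
  refine Finset.sum_congr rfl fun v _ => ?_
  by_cases h2 : (kg μ ν).connectedComponentMk v ∈ F
  · have h3 : sw μ ν F v = ν v := by
      unfold sw
      rw [if_pos h2]
    have h4 : sw' μ ν F v = μ v := by
      unfold sw'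
      rw [if_pos h2]
    rw [h3, h4, if_pos h2]
    ring
  · have h3 : sw μ ν F v = μ v := by
      unfold sw
      rw [if_neg h2]
    have h4 : sw' μ ν F v = ν v := by
      unfold sw'
      rw [if_neg h2]
    rw [h3, h4, if_neg h2]
    ring

private lemma KbRne_add {V : Type} [Fintype V] (g : V → ℕ → ℝ) (μ ν : V → V) (P : ℕ)
    (F : Finset (kg μ ν).ConnectedComponent) :
    KbRneG g (sw μ ν F) P + KbRneG g (sw' μ ν F) P = KbRneG g μ P + KbRneG g ν P := by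
  rw [KbRne_G_eq, KbRne_G_eq, KbRne_G_eq, KbRne_G_eq, ← Finset.sum_add_distrib,
    ← Finset.sum_add_distrib]
  refine Finset.sum_congr rfl fun v _ => ?_
  by_cases h2 : (kg μ ν).connectedComponentMk v ∈ F
  · have h3 : sw μ ν F v = ν v := by
      unfold sw
      rw [if_pos h2]
    have h4 : sw' μ ν F v = μ v := by
      unfold sw'
      rw [if_pos h2]
    rw [h3, h4]
    ring
  · have h3 : sw μ ν F v = μ v := by
      unfold sw
      rw [if_neg h2]
    have h4 : sw' μ ν F v = ν v := by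
      unfold sw'
      rw [if_neg h2]
    rw [h3, h4]

private lemma KbRne_exch {V : Type} [Fintype V] (m : ℕ) (g : V → ℕ → ℝ)
    (hg : ∀ v, ∀ P < m, |g v P| ≤ 1) (μ ν : V → V) (hμ : Inv μ) (hν : Inv ν) :
    ∃ μ' ν' : V → V, Inv μ' ∧ Inv ν' ∧
      (∀ v, (μ' v = μ v ∧ ν' v = ν v) ∨ (μ' v = ν v ∧ ν' v = μ v)) ∧
      ∀ P < m, KbRneG g μ' P + KbRneG g ν' P = KbRneG g μ P + KbRneG g ν P ∧
        |KbRneG g μ' P - KbRneG g ν' P| ≤ 4 * (m : ℝ) := by
  have hfin : Fintype (kg μ ν).ConnectedComponent := Fintype.ofFinite _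
  obtain ⟨F, -, hF⟩ := rnd (E := (kg μ ν).ConnectedComponent) univ m
    (fun C P => KbRneD g μ ν C P) 2 (by norm_num)
    (fun C _ P hP => KbRne_D_le g P (fun v => hg v P hP) μ ν hμ hν C) (fun _ => 1 / 2)
    (fun _ _ => by norm_num)
  refine ⟨sw μ ν F, sw' μ ν F, sw_inv μ ν hμ hν F, sw'_inv μ ν hμ hν F, fun v => ?_,
    fun P hP => ⟨KbRne_add g μ ν P F, ?_⟩⟩
  · unfold sw sw'
    by_cases h : (kg μ ν).connectedComponentMk v ∈ F
    · rw [if_pos h, if_pos h]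
      exact Or.inr ⟨rfl, rfl⟩
    · rw [if_neg h, if_neg h]
      exact Or.inl ⟨rfl, rfl⟩
  · have h1 := hF P hP
    rw [← Finset.mul_sum, KbRne_tot] at h1
    rw [KbRne_sub]
    have h2 : KbRneG g μ P - KbRneG g ν P - 2 * ∑ C ∈ F, KbRneD g μ ν C P =
        -2 * (∑ C ∈ F, KbRneD g μ ν C P - 1 / 2 * (KbRneG g μ P - KbRneG g ν P)) := by ring
    rw [h2, abs_mul]
    have h3 : |(-2 : ℝ)| = 2 := by norm_num
    rw [h3]
    linarith

private lemma KbRne_congr {V : Type} (H : SimpleGraph V) (L : ℕ) (mm mm' : ℕ → V → V)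
    (h : ∀ k < L, mm' k = mm k) (hmm : Col H L mm) : Col H L mm' := by
  refine ⟨?_, ?_, ?_, ?_⟩
  · intro k hk
    rw [h k hk]
    exact hmm.inv k hk
  · intro k hk v hv
    rw [h k hk] at hv ⊢
    exact hmm.adj k hk v hv
  · intro i hi j hj hij v hv
    rw [h i hi] at hv ⊢
    rw [h j hj]
    exact hmm.dis i hi j hj hij v hv
  · intro a b hab
    obtain ⟨k, hk, hkab⟩ := hmm.cov a b hab
    exact ⟨k, hk, by rw [h k hk, hkab]⟩

private lemma KbRne_sum_two (L i j : ℕ) (hi : i < L) (hj : j < L) (hne : i ≠ j) (f f' : ℕ → ℝ)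
    (h : ∀ k, k ≠ i → k ≠ j → f' k = f k) :
    ∑ k ∈ range L, f' k = ∑ k ∈ range L, f k + ((f' i + f' j) - (f i + f j)) := by
  have hin : ∀ (f : ℕ → ℝ), ∑ k ∈ range L, f k =
      f i + (f j + ∑ k ∈ ((range L).erase i).erase j, f k) := by
    intro f
    rw [Finset.add_sum_erase ((range L).erase i) f (mem_erase.2 ⟨Ne.symm hne, mem_range.2 hj⟩),
      Finset.add_sum_erase (range L) f (mem_range.2 hi)]
  have hrest : ∑ k ∈ ((range L).erase i).erase j, f' k =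
      ∑ k ∈ ((range L).erase i).erase j, f k := by
    refine Finset.sum_congr rfl fun k hk => ?_
    rw [mem_erase, mem_erase] at hk
    exact h k hk.2.1 hk.1
  rw [hin f', hin f, hrest]
  ring

/-- The potential. -/
private noncomputable def KbRnePhi {V : Type} [Fintype V] (g : V → ℕ → ℝ) (L m : ℕ)
    (mm : ℕ → V → V) : ℝ :=
  ∑ k ∈ range L, ∑ P ∈ range m, KbRneG g (mm k) P ^ 2

private lemma KbRne_min {V : Type} [Fintype V] (H : SimpleGraph V) (L : ℕ) (mm0 : ℕ → V → V)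
    (h0 : Col H L mm0) (m : ℕ) (g : V → ℕ → ℝ) :
    ∃ mm, Col H L mm ∧ ∀ mm', Col H L mm' → KbRnePhi g L m mm ≤ KbRnePhi g L m mm' := by
  obtain ⟨ext, hext⟩ : ∃ ext : (Fin L → V → V) → ℕ → V → V, ∀ f k, ext f k =
      if h : k < L then f ⟨k, h⟩ else id := ⟨fun f k => if h : k < L then f ⟨k, h⟩ else id,
        fun _ _ => rfl⟩
  have hres : ∀ mm : ℕ → V → V, ∀ k < L, ext (fun i => mm i) k = mm k := by
    intro mm k hk
    rw [hext, dif_pos hk]
  obtain ⟨f, hf, hmin⟩ := Set.exists_min_image {f : Fin L → V → V | Col H L (ext f)}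
    (fun f => KbRnePhi g L m (ext f)) (Set.toFinite _)
    ⟨fun i => mm0 i, KbRne_congr H L mm0 _ (hres mm0) h0⟩
  refine ⟨ext f, hf, fun mm' hmm' => ?_⟩
  have h1 := hmin (fun i => mm' i) (KbRne_congr H L mm' _ (hres mm') hmm')
  refine h1.trans (le_of_eq ?_)
  show KbRnePhi g L m (ext fun i => mm' i) = KbRnePhi g L m mm'
  unfold KbRnePhi
  refine Finset.sum_congr rfl fun k hk => ?_
  rw [hres mm' k (mem_range.1 hk)]

theorem rne {V : Type} [Fintype V] (H : SimpleGraph V) (L : ℕ) (mm0 : ℕ → V → V)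
    (h0 : Col H L mm0) (m : ℕ) (g : V → ℕ → ℝ) (hg : ∀ v, ∀ P < m, |g v P| ≤ 1) :
    ∃ mm : ℕ → V → V, Col H L mm ∧ ∀ i < L, ∀ j < L, ∀ P < m,
      |∑ v ∈ univ.filter (fun v => mm i v ≠ v), g v P -
        ∑ v ∈ univ.filter (fun v => mm j v ≠ v), g v P| ≤ 4 * (m : ℝ) ^ 2 := by
  obtain ⟨mm, hmm, hmin⟩ := KbRne_min H L mm0 h0 m g
  refine ⟨mm, hmm, fun i hi j hj P hP => ?_⟩
  change |KbRneG g (mm i) P - KbRneG g (mm j) P| ≤ _
  by_cases hne : i = j
  · rw [hne, sub_self, abs_zero]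
    positivity
  obtain ⟨μ', ν', hμ', hν', hpt, hex⟩ := KbRne_exch m g hg (mm i) (mm j)
    (hmm.inv i hi) (hmm.inv j hj)
  obtain ⟨mm', hmm'⟩ : ∃ mm' : ℕ → V → V, ∀ k, mm' k =
      if k = i then μ' else if k = j then ν' else mm k := ⟨_, fun _ => rfl⟩
  have e1 : mm' i = μ' := by rw [hmm', if_pos rfl]
  have e2 : mm' j = ν' := by rw [hmm', if_neg (Ne.symm hne), if_pos rfl]
  have e3 : ∀ k, k ≠ i → k ≠ j → mm' k = mm k := by
    intro k h1 h2
    rw [hmm', if_neg h1, if_neg h2]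
  have hcol : Col H L mm' := col_repl H L mm mm' hmm i j hi hj μ' ν' hμ' hν' hpt e1 e2 e3
  have hle := hmin mm' hcol
  unfold KbRnePhi at hle
  rw [KbRne_sum_two L i j hi hj hne (fun k => ∑ P ∈ range m, KbRneG g (mm k) P ^ 2)
    (fun k => ∑ P ∈ range m, KbRneG g (mm' k) P ^ 2)
    (fun k h1 h2 => by simp only [e3 k h1 h2])] at hle
  simp only [e1, e2] at hle
  rw [← Finset.sum_add_distrib, ← Finset.sum_add_distrib] at hle
  have h1 : ∑ Q ∈ range m, (KbRneG g (mm i) Q ^ 2 + KbRneG g (mm j) Q ^ 2) ≤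
      ∑ Q ∈ range m, (KbRneG g μ' Q ^ 2 + KbRneG g ν' Q ^ 2) := by linarith
  have h2 : ∀ Q ∈ range m, (KbRneG g μ' Q ^ 2 + KbRneG g ν' Q ^ 2) -
      (KbRneG g (mm i) Q ^ 2 + KbRneG g (mm j) Q ^ 2) ≤
      1 / 2 * ((4 * (m : ℝ)) ^ 2 - (KbRneG g (mm i) Q - KbRneG g (mm j) Q) ^ 2) := by
    intro Q hQ
    obtain ⟨h3, h4⟩ := hex Q (mem_range.1 hQ)
    have h5 : (KbRneG g μ' Q - KbRneG g ν' Q) ^ 2 ≤ (4 * (m : ℝ)) ^ 2 := by
      rw [← sq_abs]
      exact pow_le_pow_left₀ (abs_nonneg _) h4 2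
    have h6 : (KbRneG g μ' Q + KbRneG g ν' Q) ^ 2 =
        (KbRneG g (mm i) Q + KbRneG g (mm j) Q) ^ 2 := by rw [h3]
    nlinarith
  have h3 : 0 ≤ ∑ Q ∈ range m,
      1 / 2 * ((4 * (m : ℝ)) ^ 2 - (KbRneG g (mm i) Q - KbRneG g (mm j) Q) ^ 2) := by
    refine le_trans ?_ (Finset.sum_le_sum h2)
    rw [Finset.sum_sub_distrib]
    linarith
  rw [← Finset.mul_sum, Finset.sum_sub_distrib, Finset.sum_const, card_range, nsmul_eq_mul] at h3
  have h4 : (KbRneG g (mm i) P - KbRneG g (mm j) P) ^ 2 ≤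
      ∑ Q ∈ range m, (KbRneG g (mm i) Q - KbRneG g (mm j) Q) ^ 2 :=
    Finset.single_le_sum (f := fun Q => (KbRneG g (mm i) Q - KbRneG g (mm j) Q) ^ 2)
      (fun Q _ => sq_nonneg _) (mem_range.2 hP)
  have hm1 : (1 : ℝ) ≤ m := by
    have : 1 ≤ m := by omega
    exact_mod_cast this
  have h5 : (m : ℝ) * (4 * (m : ℝ)) ^ 2 ≤ (4 * (m : ℝ) ^ 2) ^ 2 := by
    have h6 : (m : ℝ) ^ 3 * 1 ≤ (m : ℝ) ^ 3 * m :=
      mul_le_mul_of_nonneg_left hm1 (by positivity)
    nlinarith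
  refine abs_le_of_sq_le_sq ?_ (by positivity)
  linarith

end Pool.Agent.H90.KB
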