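import Mathlib
import Pool.Agent.H71.DN.Defs
import Pool.Agent.H90.KB.Rnd

/-!
THN: thinning of a matching (50 - 90 lines). Use the STATEMENT of `rnd`.

Proof.  `S : Finset (Sym2 V)` := the image of `{v : μ v ≠ v}` under `v ↦ s(v, μ v)`; for `e` let `a e P := ∑_{v : μ v ≠ v, s(v, μ v) = e} q v P` (a sum over the two ends of `e`), so `|a e P| ≤ 2` for `e ∈ S` (if `s(v, μ v) = s(u, μ u)` then `u = v` or `u = μ v`) and `∑_{e ∈ S} a e P = ∑_{v : μ v ≠ v} q v P`.
`rnd S m a 2` with `x := ρ` gives `T ⊆ S`, `|∑_T a e P - ρ ∑_S a e P| ≤ 2 m`. `μ' v := if s(v, μ v) ∈ T then μ v else v` (for fixed points `μ v = v` anyway). `μ'` is an involution since `s(μ v, μ (μ v)) = s(v, μ v)`, and for `μ v ≠ v`: `μ' v ≠ v` iff `s(v, μ v) ∈ T`, so `∑_{v : μ' v ≠ v} q v P = ∑_{e ∈ T} a e P`.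
-/

set_option autoImplicit false

namespace Pool.Agent.H90.KB

open Finset Classical
open Pool.Agent.H71.DN

theorem thn {V : Type} [Fintype V] (μ : V → V) (hμ : Inv μ) (m : ℕ) (q : V → ℕ → ℝ)
    (hq : ∀ v, ∀ P < m, |q v P| ≤ 1) (ρ : ℝ) (h0 : 0 ≤ ρ) (h1 : ρ ≤ 1) :
    ∃ μ' : V → V, Inv μ' ∧ (∀ v, μ' v ≠ v → μ' v = μ v) ∧ ∀ P < m,
      |∑ v ∈ univ.filter (fun v => μ' v ≠ v), q v P -
        ρ * ∑ v ∈ univ.filter (fun v => μ v ≠ v), q v P| ≤ 2 * m := by
  set F : Finset V := univ.filter (fun v => μ v ≠ v) with hF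
  set g : V → Sym2 V := fun v => s(v, μ v) with hg
  have hgμ : ∀ v, g (μ v) = g v := by
    intro v
    simp only [hg]
    rw [hμ v]
    exact Sym2.eq_swap
  have hfib : ∀ u, F.filter (fun v => g v = g u) ⊆ {u, μ u} := by
    intro u v hv
    have h2 : s(v, μ v) = s(u, μ u) := (mem_filter.1 hv).2
    rw [Sym2.eq_iff] at h2
    rw [mem_insert, mem_singleton]
    rcases h2 with h2 | h2
    · exact Or.inl h2.1
    · exact Or.inr h2.1
  obtain ⟨T, hT, hTP⟩ := rnd (F.image g) m
    (fun e P => ∑ v ∈ F.filter (fun v => g v = e), q v P) 2 (by norm_num)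
    (by
      intro e he P hP
      obtain ⟨u, _, rfl⟩ := mem_image.1 he
      have hc : (F.filter (fun v => g v = g u)).card ≤ 2 :=
        (card_le_card (hfib u)).trans card_le_two
      refine (abs_sum_le_sum_abs _ _).trans ?_
      calc ∑ v ∈ F.filter (fun v => g v = g u), |q v P|
          ≤ ∑ v ∈ F.filter (fun v => g v = g u), (1 : ℝ) := sum_le_sum fun v _ => hq v P hP
        _ = (F.filter (fun v => g v = g u)).card := by rw [sum_const, nsmul_eq_mul, mul_one]
        _ ≤ 2 := by exact_mod_cast hc)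
    (fun _ => ρ) (fun _ _ => ⟨h0, h1⟩)
  refine ⟨fun v => if g v ∈ T then μ v else v, ?_, ?_, ?_⟩
  · intro v
    by_cases h : g v ∈ T
    · have h' : g (μ v) ∈ T := by rw [hgμ v]; exact h
      simp only [h, if_true, h']
      exact hμ v
    · simp only [h, if_false]
  · intro v hv
    by_cases h : g v ∈ T
    · simp only [h, if_true]
    · simp only [h, if_false, ne_eq, not_true_eq_false] at hv
  · intro P hP
    have e1 : univ.filter (fun v => (if g v ∈ T then μ v else v) ≠ v) =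
        F.filter (fun v => g v ∈ T) := by
      ext v
      simp only [mem_filter, mem_univ, true_and, hF]
      by_cases h : g v ∈ T
      · simp only [h, if_true, and_true]
      · simp only [h, if_false, ne_eq, not_true_eq_false, and_false]
    have e2 : ∑ v ∈ F.filter (fun v => g v ∈ T), q v P =
        ∑ e ∈ T, ∑ v ∈ F.filter (fun v => g v = e), q v P := by
      rw [← sum_fiberwise_of_maps_to (s := F.filter (fun v => g v ∈ T)) (t := T) (g := g)
        (fun v hv => (mem_filter.1 hv).2) (fun v => q v P)]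
      refine sum_congr rfl fun e he => ?_
      congr 1
      ext v
      simp only [mem_filter]
      constructor
      · rintro ⟨⟨h3, _⟩, h4⟩
        exact ⟨h3, h4⟩
      · rintro ⟨h3, h4⟩
        exact ⟨⟨h3, h4 ▸ he⟩, h4⟩
    have e3 : ∑ e ∈ F.image g, ρ * ∑ v ∈ F.filter (fun v => g v = e), q v P =
        ρ * ∑ v ∈ F, q v P := by
      rw [← mul_sum, sum_fiberwise_of_maps_to (s := F) (t := F.image g) (g := g)
        (fun v hv => mem_image_of_mem g hv) (fun v => q v P)]
    have h5 := hTP P hP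
    rw [e3, ← e2] at h5
    rw [e1]
    calc |∑ v ∈ F.filter (fun v => g v ∈ T), q v P - ρ * ∑ v ∈ F, q v P| ≤ m * 2 := h5
      _ = 2 * m := mul_comm _ _

end Pool.Agent.H90.KB
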