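import Mathlib
import Pool.Agent.H90.KB.Thn
import Pool.Agent.H90.KB.Rne
import Pool.Agent.H2.FC.Viz
import Pool.Agent.H2.FC.Grd2
import Pool.Agent.H2.FC.Bas

/-!
LOL: the edges inside the exceptional set at `L1` labels, all inside the part `Lo2` (130 - 200 lines). Use the STATEMENTS of `thn`, `rne`, `viz` (`FC/Viz.lean`), `grd2` (`FC/Grd2.lean`), `col_dg` (`FC/Bas.lean`).

Proof.  `S P := ∑_{w ∈ Lo} dgi F Lo w * q w P`. If `L1 = 0` nothing is to be shown. `θ := 4 L1 / Δ ≤ 1/2`. `grd2 F Lo2 m q .. θ` gives `E1` (a graph of edges of `F` inside `Lo2`) with `|∑_{w ∈ Lo2} dg E1 w q w P - θ ∑_{w ∈ Lo2} dgi F Lo2 w q w P| ≤ 4 #Lo2`. `dg E1 v + 1 ≤ #Lo2 ≤ L1` for `v ∈ Lo2`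
(the neighbours lie in `Lo2 \ {v}`), `dg E1 v = 0` otherwise: `viz E1 L1` gives a `Col`, and `rne` with `g v P := if v ∈ Lo2 then q v P else 0` (`0 ≤ q v P ≤ 1` for `v ∈ Lo`, `P < m`) gives `mm` with `Col E1 L1 mm`. Let `G ℓ P := ∑_{v : mm ℓ v ≠ v} q v P` (the moved vertices are in `Lo2`). `∑_{ℓ < L1} G ℓ P = ∑_{v ∈ Lo2} dg E1 v q v P`
(exchange the sums, `col_dg`), so `|L1 * G ℓ P - ∑_{v ∈ Lo2} dg E1 v q v P| ≤ 4 m^2 L1`. With `θ (S P / 4) = L1 * S P / Δ`: `|∑_{v ∈ Lo2} dg E1 v q v P - L1 S P / Δ| ≤ θ C0 #Lo + 4 #Lo2 ≤ L1 (C0 + 4)` (`θ ≤ 1`, `#Lo2 ≤ #Lo ≤ L1`). So `|G ℓ P - S P / Δ| ≤ C0 + 4 + 4 m^2`.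
Finally `thn (mm ℓ) .. (ρ ℓ)` (weights `g`) for every `ℓ < L1` gives `nn ℓ` (it only moves vertices `v` with `mm ℓ v ≠ v`, and then `nn ℓ v = mm ℓ v`): `|∑_{v : nn ℓ v ≠ v} q v P - ρ ℓ S P / Δ| ≤ 2 m + ρ ℓ (C0 + 4 + 4 m^2)`. `dis`: `nn i v ≠ v` and `nn i v = nn j v` would give `mm i v = mm j v`.
-/

set_option autoImplicit false

namespace Pool.Agent.H90.KB

open Finset Classical
open Pool.Agent.H71.DN Pool.Agent.H71.HL Pool.Agent.H2.NE Pool.Agent.H2.FC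

theorem lol {V : Type} [Fintype V] (F : SimpleGraph V) (Lo Lo2 : Finset V) (h2 : Lo2 ⊆ Lo)
    (m Δ L1 : ℕ) (q : V → ℕ → ℝ) (hq0 : ∀ v P, 0 ≤ q v P)
    (hq1 : ∀ v ∈ Lo, ∑ P ∈ range m, q v P ≤ 1) (C0 : ℝ) (hC0 : 0 ≤ C0)
    (hS : ∀ P < m, |∑ w ∈ Lo2, (dgi F Lo2 w : ℝ) * q w P -
      (∑ w ∈ Lo, (dgi F Lo w : ℝ) * q w P) / 4| ≤ C0 * Lo.card)
    (hL1 : Lo.card ≤ L1) (h8 : 8 * L1 ≤ Δ) (ρ : ℕ → ℝ) (hρ : ∀ ℓ < L1, 0 ≤ ρ ℓ ∧ ρ ℓ ≤ 1) :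
    ∃ nn : ℕ → V → V, (∀ ℓ < L1, Inv (nn ℓ)) ∧
      (∀ ℓ < L1, ∀ v, nn ℓ v ≠ v → F.Adj v (nn ℓ v) ∧ v ∈ Lo2) ∧
      (∀ i < L1, ∀ j < L1, i ≠ j → ∀ v, nn i v ≠ v → nn i v ≠ nn j v) ∧
      ∀ ℓ < L1, ∀ P < m, |∑ w ∈ univ.filter (fun w => nn ℓ w ≠ w), q w P -
        ρ ℓ * (∑ w ∈ Lo, (dgi F Lo w : ℝ) * q w P) / Δ| ≤ C0 + 4 + 4 * (m : ℝ) ^ 2 + 2 * m := by
  rcases Nat.eq_zero_or_pos L1 with h0 | hpos
  · subst h0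
    exact ⟨fun _ => id, fun ℓ h => absurd h (Nat.not_lt_zero _), fun ℓ h => absurd h (Nat.not_lt_zero _),
      fun i h => absurd h (Nat.not_lt_zero _), fun ℓ h => absurd h (Nat.not_lt_zero _)⟩
  have hLr : (0:ℝ) < (L1 : ℝ) := by exact_mod_cast hpos
  have h8r : 8 * (L1 : ℝ) ≤ (Δ : ℝ) := by exact_mod_cast h8
  have hΔr : (0:ℝ) < (Δ : ℝ) := by linarith
  obtain ⟨θ, hθ⟩ : ∃ θ : ℝ, θ = 4 * (L1 : ℝ) / Δ := ⟨_, rfl⟩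
  have hθ0 : 0 ≤ θ := by rw [hθ]; positivity
  have hθ1 : θ ≤ 1 / 2 := by
    rw [hθ, div_le_iff₀ hΔr]
    linarith
  have hq1' : ∀ v ∈ Lo2, ∑ P ∈ range m, q v P ≤ 1 := fun v hv => hq1 v (h2 hv)
  obtain ⟨E1, _, hE1, _, _, hX, _⟩ := grd2 F Lo2 m q hq0 hq1' θ hθ0 hθ1
  have hcard2 : Lo2.card ≤ L1 := (Finset.card_le_card h2).trans hL1
  have hdz : ∀ v, v ∉ Lo2 → dg E1 v = 0 := by
    intro v hv
    unfold dg
    rw [Finset.card_eq_zero, Finset.filter_eq_empty_iff]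
    intro u _ hu
    exact hv (hE1 v u hu).2.1
  have hdeg : ∀ v, dg E1 v + 1 ≤ L1 := by
    intro v
    by_cases hv : v ∈ Lo2
    · have h3 : dg E1 v ≤ (Lo2.erase v).card := by
        unfold dg
        refine Finset.card_le_card fun u hu => ?_
        rw [mem_filter] at hu
        exact Finset.mem_erase.2 ⟨hu.2.ne', (hE1 v u hu.2).2.2⟩
      rw [Finset.card_erase_of_mem hv] at h3
      have h4 : 0 < Lo2.card := Finset.card_pos.2 ⟨v, hv⟩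
      omega
    · rw [hdz v hv]
      omega
  obtain ⟨mm0, hmm0⟩ := viz E1 L1 hdeg
  obtain ⟨g, hg⟩ : ∃ g : V → ℕ → ℝ, g = fun v P => if v ∈ Lo2 then q v P else 0 := ⟨_, rfl⟩
  have hgb : ∀ v, ∀ P < m, |g v P| ≤ 1 := by
    intro v P hP
    rw [hg]
    by_cases hv : v ∈ Lo2
    · simp only [if_pos hv]
      rw [abs_of_nonneg (hq0 v P)]
      exact (Finset.single_le_sum (f := fun P => q v P) (fun P _ => hq0 v P) (mem_range.2 hP)).trans (hq1' v hv)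
    · simp only [if_neg hv]
      rw [abs_zero]
      exact zero_le_one
  obtain ⟨mm, hmm, hne⟩ := rne E1 L1 mm0 hmm0 m g hgb
  have hmv : ∀ ℓ < L1, ∀ v, mm ℓ v ≠ v → F.Adj v (mm ℓ v) ∧ v ∈ Lo2 := by
    intro ℓ hℓ v hv
    have h3 := hE1 _ _ (hmm.adj ℓ hℓ v hv)
    exact ⟨h3.1, h3.2.1⟩
  have hgq : ∀ (μ : V → V) (P : ℕ), (∀ v, μ v ≠ v → v ∈ Lo2) →
      ∑ v ∈ univ.filter (fun v => μ v ≠ v), g v P = ∑ v ∈ univ.filter (fun v => μ v ≠ v), q v P := by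
    intro μ P hμ
    refine Finset.sum_congr rfl fun v hv => ?_
    rw [hg]
    simp only [if_pos (hμ v (mem_filter.1 hv).2)]
  have hsum : ∀ P, ∑ ℓ ∈ range L1, ∑ v ∈ univ.filter (fun v => mm ℓ v ≠ v), q v P =
      ∑ v ∈ Lo2, (dg E1 v : ℝ) * q v P := by
    intro P
    have h3 : ∀ ℓ ∈ range L1, ∑ v ∈ univ.filter (fun v => mm ℓ v ≠ v), q v P =
        ∑ v, if mm ℓ v ≠ v then q v P else 0 := fun ℓ _ => Finset.sum_filter _ _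
    rw [Finset.sum_congr rfl h3, Finset.sum_comm]
    have h4 : ∀ v ∈ (univ : Finset V), (∑ ℓ ∈ range L1, if mm ℓ v ≠ v then q v P else 0) =
        (dg E1 v : ℝ) * q v P := by
      intro v _
      rw [← Finset.sum_filter, Finset.sum_const, nsmul_eq_mul, col_dg E1 L1 mm hmm v]
    rw [Finset.sum_congr rfl h4]
    symm
    refine Finset.sum_subset (Finset.subset_univ _) fun v _ hv => ?_
    rw [hdz v hv, Nat.cast_zero, zero_mul]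
  have hmain : ∀ ℓ < L1, ∀ P < m, |∑ v ∈ univ.filter (fun v => mm ℓ v ≠ v), q v P -
      (∑ w ∈ Lo, (dgi F Lo w : ℝ) * q w P) / Δ| ≤ C0 + 4 + 4 * (m : ℝ) ^ 2 := by
    intro ℓ hℓ P hP
    obtain ⟨G, hG⟩ : ∃ G : ℕ → ℝ, G = fun j => ∑ v ∈ univ.filter (fun v => mm j v ≠ v), q v P := ⟨_, rfl⟩
    obtain ⟨S, hSd⟩ : ∃ S : ℝ, S = ∑ w ∈ Lo, (dgi F Lo w : ℝ) * q w P := ⟨_, rfl⟩
    obtain ⟨Y, hY⟩ : ∃ Y : ℝ, Y = ∑ w ∈ Lo2, (dgi F Lo2 w : ℝ) * q w P := ⟨_, rfl⟩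
    obtain ⟨X, hXd⟩ : ∃ X : ℝ, X = ∑ v ∈ Lo2, (dg E1 v : ℝ) * q v P := ⟨_, rfl⟩
    have a1 : |X - θ * Y| ≤ 4 * Lo2.card := by
      rw [hXd, hY]
      exact hX P hP
    have a2 : |Y - S / 4| ≤ C0 * Lo.card := by
      rw [hY, hSd]
      exact hS P hP
    have a3 : |(L1 : ℝ) * G ℓ - X| ≤ (L1 : ℝ) * (4 * (m : ℝ) ^ 2) := by
      have b1 : (L1 : ℝ) * G ℓ - X = ∑ j ∈ range L1, (G ℓ - G j) := by
        rw [Finset.sum_sub_distrib, Finset.sum_const, card_range, nsmul_eq_mul]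
        congr 1
        rw [hXd, hG]
        exact (hsum P).symm
      rw [b1]
      refine (Finset.abs_sum_le_sum_abs _ _).trans ?_
      have b2 : ∀ j ∈ range L1, |G ℓ - G j| ≤ 4 * (m : ℝ) ^ 2 := by
        intro j hj
        have b3 := hne ℓ hℓ j (mem_range.1 hj) P hP
        rw [hgq (mm ℓ) P (fun v hv => (hmv ℓ hℓ v hv).2),
          hgq (mm j) P (fun v hv => (hmv j (mem_range.1 hj) v hv).2)] at b3
        rw [hG]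
        exact b3
      refine (Finset.sum_le_card_nsmul _ _ _ b2).trans (le_of_eq ?_)
      rw [card_range, nsmul_eq_mul]
    have c1 : (Lo.card : ℝ) ≤ L1 := by exact_mod_cast hL1
    have c2 : (Lo2.card : ℝ) ≤ L1 := by exact_mod_cast hcard2
    have c3 : θ * (S / 4) = (L1 : ℝ) * (S / Δ) := by
      rw [hθ]
      field_simp
    have c4 : |θ * Y - (L1 : ℝ) * (S / Δ)| ≤ C0 * L1 := by
      rw [← c3, ← mul_sub, abs_mul, abs_of_nonneg hθ0]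
      calc θ * |Y - S / 4| ≤ 1 * (C0 * Lo.card) :=
            mul_le_mul (by linarith) a2 (abs_nonneg _) zero_le_one
        _ = C0 * Lo.card := one_mul _
        _ ≤ C0 * L1 := mul_le_mul_of_nonneg_left c1 hC0
    have c5 : |(L1 : ℝ) * (G ℓ - S / Δ)| ≤ (L1 : ℝ) * (C0 + 4 + 4 * (m : ℝ) ^ 2) := by
      have d1 : (L1 : ℝ) * (G ℓ - S / Δ) =
          ((L1 : ℝ) * G ℓ - X) + ((X - θ * Y) + (θ * Y - (L1 : ℝ) * (S / Δ))) := by ring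
      rw [d1]
      refine (abs_add_le _ _).trans ?_
      have d2 := abs_add_le (X - θ * Y) (θ * Y - (L1 : ℝ) * (S / Δ))
      linarith
    rw [abs_mul, abs_of_pos hLr] at c5
    have c6 := le_of_mul_le_mul_left c5 hLr
    rw [hG, hSd] at c6
    exact c6
  have hth : ∀ ℓ, ∃ μ' : V → V, ℓ < L1 → (Inv μ' ∧ (∀ v, μ' v ≠ v → μ' v = mm ℓ v) ∧ ∀ P < m,
      |∑ v ∈ univ.filter (fun v => μ' v ≠ v), g v P -
        ρ ℓ * ∑ v ∈ univ.filter (fun v => mm ℓ v ≠ v), g v P| ≤ 2 * m) := by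
    intro ℓ
    by_cases hℓ : ℓ < L1
    · obtain ⟨μ', h3⟩ := thn (mm ℓ) (hmm.inv ℓ hℓ) m g hgb (ρ ℓ) (hρ ℓ hℓ).1 (hρ ℓ hℓ).2
      exact ⟨μ', fun _ => h3⟩
    · exact ⟨id, fun h => absurd h hℓ⟩
  choose nn hnn using hth
  have hnm : ∀ ℓ < L1, ∀ v, nn ℓ v ≠ v → mm ℓ v ≠ v := by
    intro ℓ hℓ v hv
    rw [← (hnn ℓ hℓ).2.1 v hv]
    exact hv
  refine ⟨nn, fun ℓ hℓ => (hnn ℓ hℓ).1, fun ℓ hℓ v hv => ?_, fun i hi j hj hij v hv he => ?_,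
    fun ℓ hℓ P hP => ?_⟩
  · rw [(hnn ℓ hℓ).2.1 v hv]
    exact hmv ℓ hℓ v (hnm ℓ hℓ v hv)
  · have h3 : nn j v ≠ v := by rw [← he]; exact hv
    have h4 := (hnn i hi).2.1 v hv
    have h5 := (hnn j hj).2.1 v h3
    exact hmm.dis i hi j hj hij v (hnm i hi v hv) (by rw [← h4, ← h5, he])
  · have h3 := (hnn ℓ hℓ).2.2 P hP
    rw [hgq (nn ℓ) P (fun v hv => (hmv ℓ hℓ v (hnm ℓ hℓ v hv)).2),
      hgq (mm ℓ) P (fun v hv => (hmv ℓ hℓ v hv).2)] at h3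
    have h4 := hmain ℓ hℓ P hP
    obtain ⟨A, hA⟩ : ∃ A : ℝ, A = ∑ v ∈ univ.filter (fun v => nn ℓ v ≠ v), q v P := ⟨_, rfl⟩
    obtain ⟨B, hB⟩ : ∃ B : ℝ, B = ∑ v ∈ univ.filter (fun v => mm ℓ v ≠ v), q v P := ⟨_, rfl⟩
    obtain ⟨S, hSd⟩ : ∃ S : ℝ, S = ∑ w ∈ Lo, (dgi F Lo w : ℝ) * q w P := ⟨_, rfl⟩
    rw [← hA, ← hB] at h3
    rw [← hB, ← hSd] at h4
    rw [← hA, ← hSd]
    have e1 : A - ρ ℓ * S / Δ = (A - ρ ℓ * B) + ρ ℓ * (B - S / Δ) := by ring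
    rw [e1]
    refine (abs_add_le _ _).trans ?_
    rw [abs_mul, abs_of_nonneg (hρ ℓ hℓ).1]
    have e2 : ρ ℓ * |B - S / Δ| ≤ 1 * (C0 + 4 + 4 * (m : ℝ) ^ 2) :=
      mul_le_mul (hρ ℓ hℓ).2 h4 (abs_nonneg _) zero_le_one
    linarith

end Pool.Agent.H90.KB
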