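import Mathlib

/-!
CHO: choice of one of `t` classes for which a quadratic potential does not grow more than in the mean (40 - 70 lines).

Proof.  `xb c := (∑_{a < t} x c a) / t`. For `c ∈ S`: `∑_{a < t} ((D c + x c a - xb c)^2 - D c ^ 2) = ∑_{a < t} (x c a - xb c)^2 + 2 D c ∑_{a < t} (x c a - xb c) = ∑_a (x c a)^2 - t xb c ^2 ≤ ∑_a (x c a)^2 ≤ b c ∑_a x c a ≤ b c * dd c` (`0 ≤ x ≤ b`). Multiply by `om c / dd c ≥ 0` and sum over `c ∈ S`:
`∑_{a < t} ∑_{c ∈ S} om c ((D c + x c a - xb c)^2 - D c ^ 2) / dd c ≤ ∑_{c ∈ S} om c * b c`. So for some `a < t` the inner sum is at most `(∑_{c ∈ S} om c * b c) / t` (`Finset.exists_le_of_sum_le`).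
-/

set_option autoImplicit false

namespace Pool.Agent.H90.KB

open Finset Classical

theorem Cho_one (t : ℕ) (ht : 0 < t) (x : ℕ → ℝ) (b dd om D : ℝ)
    (h0 : ∀ a < t, 0 ≤ x a ∧ x a ≤ b) (hs : ∑ a ∈ range t, x a ≤ dd) (hd : 0 < dd)
    (hom : 0 ≤ om) :
    ∑ a ∈ range t, om * (D + x a - (∑ a' ∈ range t, x a') / t) ^ 2 / dd ≤
      t * (om * D ^ 2 / dd) + om * b := by
  have ht' : (0 : ℝ) < t := by exact_mod_cast ht
  have hb : 0 ≤ b := (h0 0 ht).1.trans (h0 0 ht).2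
  obtain ⟨X, hX⟩ : ∃ X, X = (∑ a' ∈ range t, x a') / t := ⟨_, rfl⟩
  have hsX : ∑ a ∈ range t, x a = t * X := by
    rw [hX]
    field_simp
  rw [← hX]
  have e1 : ∑ a ∈ range t, (D + x a - X) ^ 2 = t * D ^ 2 + ∑ a ∈ range t, x a ^ 2 - t * X ^ 2 := by
    have h1 : ∀ a ∈ range t, (D + x a - X) ^ 2 = (D - X) ^ 2 + 2 * (D - X) * x a + x a ^ 2 := by
      intro a _
      ring
    rw [sum_congr rfl h1, sum_add_distrib, sum_add_distrib, ← mul_sum, sum_const, card_range,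
      nsmul_eq_mul, hsX]
    ring
  have e2 : ∑ a ∈ range t, x a ^ 2 ≤ b * dd := by
    calc ∑ a ∈ range t, x a ^ 2 ≤ ∑ a ∈ range t, b * x a := by
          apply sum_le_sum
          intro a ha
          have h2 := h0 a (mem_range.1 ha)
          rw [sq]
          exact mul_le_mul_of_nonneg_right h2.2 h2.1
      _ = b * ∑ a ∈ range t, x a := (mul_sum _ _ _).symm
      _ ≤ b * dd := mul_le_mul_of_nonneg_left hs hb
  have e3 : ∑ a ∈ range t, (D + x a - X) ^ 2 ≤ t * D ^ 2 + b * dd := by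
    have : 0 ≤ (t : ℝ) * X ^ 2 := by positivity
    linarith
  have e4 : ∑ a ∈ range t, om * (D + x a - X) ^ 2 / dd =
      om / dd * ∑ a ∈ range t, (D + x a - X) ^ 2 := by
    rw [mul_sum]
    apply sum_congr rfl
    intro a _
    ring
  rw [e4]
  calc om / dd * ∑ a ∈ range t, (D + x a - X) ^ 2 ≤ om / dd * (t * D ^ 2 + b * dd) :=
        mul_le_mul_of_nonneg_left e3 (by positivity)
    _ = t * (om * D ^ 2 / dd) + om * b := by
        field_simp

theorem cho {C : Type} (S : Finset C) (t : ℕ) (ht : 0 < t) (x : C → ℕ → ℝ) (b dd om D : C → ℝ)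
    (h0 : ∀ c ∈ S, ∀ a < t, 0 ≤ x c a ∧ x c a ≤ b c)
    (hs : ∀ c ∈ S, ∑ a ∈ range t, x c a ≤ dd c) (hd : ∀ c ∈ S, 0 < dd c)
    (hom : ∀ c ∈ S, 0 ≤ om c) :
    ∃ a < t, ∑ c ∈ S, om c * (D c + x c a - (∑ a' ∈ range t, x c a') / t) ^ 2 / dd c ≤
      ∑ c ∈ S, om c * D c ^ 2 / dd c + (∑ c ∈ S, om c * b c) / t := by
  by_contra hcon
  push Not at hcon
  have ht' : (0 : ℝ) < t := by exact_mod_cast ht
  have hne : (range t).Nonempty := ⟨0, mem_range.2 ht⟩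
  have h1 : ∑ a ∈ range t, (∑ c ∈ S, om c * D c ^ 2 / dd c + (∑ c ∈ S, om c * b c) / t) <
      ∑ a ∈ range t, ∑ c ∈ S, om c * (D c + x c a - (∑ a' ∈ range t, x c a') / t) ^ 2 / dd c :=
    sum_lt_sum_of_nonempty hne fun a ha => hcon a (mem_range.1 ha)
  rw [sum_const, card_range, nsmul_eq_mul, sum_comm] at h1
  have h2 : ∑ c ∈ S, ∑ a ∈ range t, om c * (D c + x c a - (∑ a' ∈ range t, x c a') / t) ^ 2 / dd c ≤
      ∑ c ∈ S, (t * (om c * D c ^ 2 / dd c) + om c * b c) :=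
    sum_le_sum fun c hc => Cho_one t ht (x c) (b c) (dd c) (om c) (D c) (h0 c hc) (hs c hc)
      (hd c hc) (hom c hc)
  rw [sum_add_distrib, ← mul_sum] at h2
  have h3 : (t : ℝ) * (∑ c ∈ S, om c * D c ^ 2 / dd c + (∑ c ∈ S, om c * b c) / t) =
      t * ∑ c ∈ S, om c * D c ^ 2 / dd c + ∑ c ∈ S, om c * b c := by
    field_simp
  rw [h3] at h1
  linarith

end Pool.Agent.H90.KB
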