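import Mathlib
import Pool.Agent.H2.FC.SelY

/-!
SELYP: the same as `selY` (`FC/SelY.lean`, proved) with the chosen edges in a subgraph `F'` of `F` (70 - 150 lines; most of it can be copied from `SelY.lean`, whose auxiliary definitions and lemmas `SelY_key, SelYTT, ..` can be used).

Proof.  For `P ≤ P' < m` let `M` be the number of the edges (`Sym2`) of `F` between `pt nd P` and `pt nd P'` and `E` the finset of those of `F'` with both ends in `Z`. Choose a subset of `E` with `min ⌊θ M⌋₊ #E` elements. By `hgs` (the factor `2` for `P = P'` on both sides): `M ≤ 16 #E + B`, so `θ M ≤ (2/3) #E + B / 24`,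
and `0 ≤ θ M - min ⌊θ M⌋₊ #E ≤ 1 + B / 24`. `EY :=` the graph of all the chosen edges; in a piece `P` the error of the number of ends is at most `(m + 1)(1 + B / 24) ≤ m (2 + B)`.
-/

set_option autoImplicit false

namespace Pool.Agent.H90.KB

open Finset Classical
open Pool.Agent.H71.DN Pool.Agent.H71.HL Pool.Agent.H71.DC Pool.Agent.H2.FC

private theorem SelYp_key {V : Type} [Fintype V] (nd : V → ℕ) :
    ∃ key : V → ℕ, Function.Injective key ∧ ∀ a b, nd a < nd b → key a < key b := by
  let e := Fintype.equivFin V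
  have he : ∀ a : V, (e a : ℕ) < Fintype.card V := fun a => (e a).2
  refine ⟨fun a => nd a * Fintype.card V + e a, ?_, ?_⟩
  · intro a b hab
    have hab' : nd a * Fintype.card V + e a = nd b * Fintype.card V + e b := hab
    have h1 := he a
    have h2 := he b
    have h3 : nd a = nd b := by
      rcases lt_trichotomy (nd a) (nd b) with h | h | h
      · exfalso
        have h4 : (nd a + 1) * Fintype.card V ≤ nd b * Fintype.card V := Nat.mul_le_mul_right _ h
        rw [Nat.add_mul, one_mul] at h4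
        omega
      · exact h
      · exfalso
        have h4 : (nd b + 1) * Fintype.card V ≤ nd a * Fintype.card V := Nat.mul_le_mul_right _ h
        rw [Nat.add_mul, one_mul] at h4
        omega
    rw [h3] at hab'
    have h4 : (e a : ℕ) = e b := by omega
    exact e.injective (Fin.ext h4)
  · intro a b h
    have h1 := he a
    have h4 : (nd a + 1) * Fintype.card V ≤ nd b * Fintype.card V := Nat.mul_le_mul_right _ h
    rw [Nat.add_mul, one_mul] at h4
    show nd a * Fintype.card V + e a < nd b * Fintype.card V + e b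
    omega

/-- sums of degrees of the graph given by a set of oriented pairs -/
private theorem SelYp_sum {V : Type} [Fintype V] (key : V → ℕ) (nd : V → ℕ) (U : Finset (V × V))
    (hU : ∀ x ∈ U, key x.1 < key x.2) (P : ℕ) :
    ∑ v ∈ pt nd P, (univ.filter fun u => (v, u) ∈ U ∨ (u, v) ∈ U).card =
      (U.filter fun x => nd x.1 = P).card + (U.filter fun x => nd x.2 = P).card := by
  have h1 : ∀ v, (univ.filter fun u => (v, u) ∈ U ∨ (u, v) ∈ U).card =
      (univ.filter fun u => (v, u) ∈ U).card + (univ.filter fun u => (u, v) ∈ U).card := by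
    intro v
    rw [Finset.filter_or, Finset.card_union_of_disjoint]
    rw [Finset.disjoint_left]
    intro u hu hu'
    have h2 := hU _ (Finset.mem_filter.1 hu).2
    have h3 := hU _ (Finset.mem_filter.1 hu').2
    exact absurd h2 (not_lt.2 h3.le)
  rw [Finset.sum_congr rfl fun v _ => h1 v, Finset.sum_add_distrib]
  congr 1
  · rw [Finset.card_eq_sum_card_fiberwise (f := fun x : V × V => x.1) (t := pt nd P)]
    · refine Finset.sum_congr rfl fun v hv => ?_
      have hv' : nd v = P := (Finset.mem_filter.1 hv).2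
      refine Finset.card_bij (fun u _ => (v, u)) ?_ ?_ ?_
      · intro u hu
        rw [Finset.mem_filter, Finset.mem_filter]
        exact ⟨⟨(Finset.mem_filter.1 hu).2, hv'⟩, rfl⟩
      · intro u _ u' _ h
        exact congrArg Prod.snd h
      · rintro ⟨a, b⟩ hx
        rw [Finset.mem_filter, Finset.mem_filter] at hx
        obtain ⟨⟨h2, h3⟩, h4⟩ := hx
        have h5 : a = v := h4
        rw [h5] at h2
        exact ⟨b, Finset.mem_filter.2 ⟨Finset.mem_univ _, h2⟩, by rw [h5]⟩
    · intro x hx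
      rw [Finset.mem_coe, Finset.mem_filter] at hx
      rw [Finset.mem_coe]
      exact Finset.mem_filter.2 ⟨Finset.mem_univ _, hx.2⟩
  · rw [Finset.card_eq_sum_card_fiberwise (f := fun x : V × V => x.2) (t := pt nd P)]
    · refine Finset.sum_congr rfl fun v hv => ?_
      have hv' : nd v = P := (Finset.mem_filter.1 hv).2
      refine Finset.card_bij (fun u _ => (u, v)) ?_ ?_ ?_
      · intro u hu
        rw [Finset.mem_filter, Finset.mem_filter]
        exact ⟨⟨(Finset.mem_filter.1 hu).2, hv'⟩, rfl⟩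
      · intro u _ u' _ h
        exact congrArg Prod.fst h
      · rintro ⟨a, b⟩ hx
        rw [Finset.mem_filter, Finset.mem_filter] at hx
        obtain ⟨⟨h2, h3⟩, h4⟩ := hx
        have h5 : b = v := h4
        rw [h5] at h2
        exact ⟨a, Finset.mem_filter.2 ⟨Finset.mem_univ _, h2⟩, by rw [h5]⟩
    · intro x hx
      rw [Finset.mem_coe, Finset.mem_filter] at hx
      rw [Finset.mem_coe]
      exact Finset.mem_filter.2 ⟨Finset.mem_univ _, hx.2⟩

/-- the number of pairs by the second (first) part -/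
private theorem SelYp_split {V : Type} [Fintype V] (nd : V → ℕ) (m : ℕ) (U : Finset (V × V))
    (C : ℕ → ℕ → Finset (V × V))
    (hU : ∀ x, x ∈ U ↔ nd x.1 < m ∧ nd x.2 < m ∧ x ∈ C (nd x.1) (nd x.2))
    (hC : ∀ P P', ∀ x ∈ C P P', nd x.1 = P ∧ nd x.2 = P') {P : ℕ} (hP : P < m) :
    (U.filter fun x => nd x.1 = P).card + (U.filter fun x => nd x.2 = P).card =
      ∑ P' ∈ range m, ((C P P').card + (C P' P).card) := by
  rw [Finset.sum_add_distrib]
  congr 1
  · rw [Finset.card_eq_sum_card_fiberwise (f := fun x : V × V => nd x.2) (t := range m)]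
    · refine Finset.sum_congr rfl fun P' hP' => ?_
      congr 1
      ext x
      rw [Finset.mem_filter, Finset.mem_filter, hU]
      constructor
      · rintro ⟨⟨⟨_, _, h1⟩, h2⟩, h3⟩
        rwa [h2, h3] at h1
      · intro hx
        obtain ⟨h1, h2⟩ := hC _ _ x hx
        rw [Finset.mem_range] at hP'
        refine ⟨⟨⟨by rw [h1]; exact hP, by rw [h2]; exact hP', ?_⟩, h1⟩, h2⟩
        rw [h1, h2]
        exact hx
    · intro x hx
      rw [Finset.mem_coe, Finset.mem_filter, hU] at hx
      rw [Finset.mem_coe, Finset.mem_range]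
      exact hx.1.2.1
  · rw [Finset.card_eq_sum_card_fiberwise (f := fun x : V × V => nd x.1) (t := range m)]
    · refine Finset.sum_congr rfl fun P' hP' => ?_
      congr 1
      ext x
      rw [Finset.mem_filter, Finset.mem_filter, hU]
      constructor
      · rintro ⟨⟨⟨_, _, h1⟩, h2⟩, h3⟩
        rwa [h2, h3] at h1
      · intro hx
        obtain ⟨h1, h2⟩ := hC _ _ x hx
        rw [Finset.mem_range] at hP'
        refine ⟨⟨⟨by rw [h1]; exact hP', by rw [h2]; exact hP, ?_⟩, h2⟩, h1⟩
        rw [h1, h2]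
        exact hx
    · intro x hx
      rw [Finset.mem_coe, Finset.mem_filter, hU] at hx
      rw [Finset.mem_coe, Finset.mem_range]
      exact hx.1.1

/-- the oriented edges between two parts, inside `Z` -/
private noncomputable def SelYpTT {V : Type} [Fintype V] (F : SimpleGraph V) (key nd : V → ℕ)
    (Z : Finset V) (P P' : ℕ) : Finset (V × V) :=
  univ.filter fun x => key x.1 < key x.2 ∧ nd x.1 = P ∧ nd x.2 = P' ∧ F.Adj x.1 x.2 ∧
    x.1 ∈ Z ∧ x.2 ∈ Z

private theorem SelYp_ee {V : Type} [Fintype V] (F : SimpleGraph V) (key nd : V → ℕ)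
    (hk : Function.Injective key) (hnd : ∀ a b, nd a < nd b → key a < key b) (Z : Finset V)
    (P P' : ℕ) : (P < P' → ee F (pt nd P ∩ Z) (pt nd P' ∩ Z) = (SelYpTT F key nd Z P P').card) ∧
      (P = P' → ee F (pt nd P ∩ Z) (pt nd P' ∩ Z) = 2 * (SelYpTT F key nd Z P P').card) ∧
      (P' < P → (SelYpTT F key nd Z P P').card = 0) := by
  have hmem : ∀ (x : V × V), x ∈ ((pt nd P ∩ Z) ×ˢ (pt nd P' ∩ Z)).filter (fun x => F.Adj x.1 x.2) ↔
      nd x.1 = P ∧ x.1 ∈ Z ∧ nd x.2 = P' ∧ x.2 ∈ Z ∧ F.Adj x.1 x.2 := by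
    intro x
    rw [Finset.mem_filter, Finset.mem_product, Finset.mem_inter, Finset.mem_inter]
    unfold pt
    rw [Finset.mem_filter, Finset.mem_filter]
    constructor
    · rintro ⟨⟨⟨⟨_, h1⟩, h2⟩, ⟨_, h3⟩, h4⟩, h5⟩
      exact ⟨h1, h2, h3, h4, h5⟩
    · rintro ⟨h1, h2, h3, h4, h5⟩
      exact ⟨⟨⟨⟨Finset.mem_univ _, h1⟩, h2⟩, ⟨Finset.mem_univ _, h3⟩, h4⟩, h5⟩
  refine ⟨?_, ?_, ?_⟩
  · intro hPP
    unfold ee
    congr 1
    ext x
    rw [hmem]
    unfold SelYpTT
    rw [Finset.mem_filter]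
    constructor
    · rintro ⟨h1, h2, h3, h4, h5⟩
      exact ⟨Finset.mem_univ _, hnd _ _ (by rw [h1, h3]; exact hPP), h1, h3, h5, h2, h4⟩
    · rintro ⟨_, _, h1, h3, h5, h2, h4⟩
      exact ⟨h1, h2, h3, h4, h5⟩
  · intro hPP
    subst hPP
    unfold ee
    have h1 : ((pt nd P ∩ Z) ×ˢ (pt nd P ∩ Z)).filter (fun x => F.Adj x.1 x.2) =
        SelYpTT F key nd Z P P ∪ (SelYpTT F key nd Z P P).image Prod.swap := by
      ext x
      rw [hmem, Finset.mem_union, Finset.mem_image]
      unfold SelYpTT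
      constructor
      · rintro ⟨h1, h2, h3, h4, h5⟩
        rcases lt_trichotomy (key x.1) (key x.2) with h | h | h
        · left
          exact Finset.mem_filter.2 ⟨Finset.mem_univ _, h, h1, h3, h5, h2, h4⟩
        · exact absurd (hk h) h5.ne
        · right
          refine ⟨(x.2, x.1), Finset.mem_filter.2 ⟨Finset.mem_univ _, h, h3, h1, h5.symm, h4, h2⟩, ?_⟩
          rfl
      · rintro (h | ⟨y, hy, rfl⟩)
        · obtain ⟨_, _, h1, h3, h5, h2, h4⟩ := Finset.mem_filter.1 h
          exact ⟨h1, h2, h3, h4, h5⟩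
        · obtain ⟨_, _, h1, h3, h5, h2, h4⟩ := Finset.mem_filter.1 hy
          exact ⟨h3, h4, h1, h2, h5.symm⟩
    rw [h1, Finset.card_union_of_disjoint, Finset.card_image_of_injective _ Prod.swap_injective]
    · ring
    · rw [Finset.disjoint_left]
      intro x hx hx'
      rw [Finset.mem_image] at hx'
      obtain ⟨y, hy, rfl⟩ := hx'
      have h2 := (Finset.mem_filter.1 hx).2.1
      have h3 := (Finset.mem_filter.1 hy).2.1
      exact absurd h3 (not_lt.2 (le_of_lt h2))
  · intro hPP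
    rw [Finset.card_eq_zero, Finset.eq_empty_iff_forall_notMem]
    intro x hx
    obtain ⟨_, h0, h1, h3, -⟩ := Finset.mem_filter.1 hx
    have h2 := hnd x.2 x.1 (by rw [h1, h3]; exact hPP)
    exact absurd h0 (not_lt.2 h2.le)

theorem selYp {V : Type} [Fintype V] (F F' : SimpleGraph V) (nd : V → ℕ) (m : ℕ) (Z : Finset V)
    (θ B : ℝ) (h0 : 0 ≤ θ) (h1 : θ ≤ 1 / 24) (hB : 0 ≤ B)
    (hgs : ∀ P < m, ∀ P' < m, (ee F (pt nd P) (pt nd P') : ℝ) ≤
      16 * ee F' (pt nd P ∩ Z) (pt nd P' ∩ Z) + B) :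
    ∃ EY : SimpleGraph V,
      (∀ a b, EY.Adj a b → F'.Adj a b ∧ a ∈ Z ∧ b ∈ Z ∧ nd a < m ∧ nd b < m) ∧
      ∀ P < m, |∑ v ∈ pt nd P, (dg EY v : ℝ) -
        θ * ∑ v ∈ pt nd P, (dgi F (univ.filter fun u => nd u < m) v : ℝ)| ≤ m * (2 + B) := by
  obtain ⟨key, hk, hnd⟩ := SelYp_key nd
  have hex : ∀ P P' : ℕ, ∃ C ⊆ SelYpTT F' key nd Z P P', C.card =
      min ⌊θ * ((SelYpTT F key nd univ P P').card : ℝ)⌋₊ (SelYpTT F' key nd Z P P').card := fun P P' =>
    Finset.exists_subset_card_eq (min_le_right _ _)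
  choose C hCs hCc using hex
  -- the bound for one pair of parts
  have hbd : ∀ P < m, ∀ P' < m, |((C P P').card : ℝ) -
      θ * ((SelYpTT F key nd univ P P').card : ℝ)| ≤ 1 + B / 24 := by
    intro P hP P' hP'
    have hM : ((SelYpTT F key nd univ P P').card : ℝ) ≤ 16 * ((SelYpTT F' key nd Z P P').card : ℝ) + B := by
      have hg := hgs P hP P' hP'
      obtain ⟨a1, a2, a3⟩ := SelYp_ee F key nd hk hnd univ P P'
      obtain ⟨b1, b2, b3⟩ := SelYp_ee F' key nd hk hnd Z P P'
      rw [Finset.inter_univ, Finset.inter_univ] at a1 a2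
      rcases lt_trichotomy P P' with h | h | h
      · rw [a1 h, b1 h] at hg
        exact hg
      · rw [a2 h, b2 h] at hg
        push_cast at hg
        linarith
      · rw [a3 h]
        have : (0 : ℝ) ≤ ((SelYpTT F' key nd Z P P').card : ℝ) := Nat.cast_nonneg _
        push_cast
        linarith
    have hM0 : (0 : ℝ) ≤ ((SelYpTT F key nd univ P P').card : ℝ) := Nat.cast_nonneg _
    have hx0 : 0 ≤ θ * ((SelYpTT F key nd univ P P').card : ℝ) := mul_nonneg h0 hM0
    have hfl := Nat.floor_le hx0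
    have hfl2 := Nat.lt_floor_add_one (θ * ((SelYpTT F key nd univ P P').card : ℝ))
    rw [hCc P P']
    rcases le_total ⌊θ * ((SelYpTT F key nd univ P P').card : ℝ)⌋₊ (SelYpTT F' key nd Z P P').card with h | h
    · rw [min_eq_left h, abs_le]
      constructor <;> linarith
    · rw [min_eq_right h, abs_le]
      have h2 : ((SelYpTT F' key nd Z P P').card : ℝ) ≤
          (⌊θ * ((SelYpTT F key nd univ P P').card : ℝ)⌋₊ : ℝ) := by exact_mod_cast h
      have h3 : θ * ((SelYpTT F key nd univ P P').card : ℝ) ≤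
          (1 / 24) * ((SelYpTT F key nd univ P P').card : ℝ) := mul_le_mul_of_nonneg_right h1 hM0
      have h4 : (0 : ℝ) ≤ ((SelYpTT F' key nd Z P P').card : ℝ) := Nat.cast_nonneg _
      constructor <;> linarith
  -- the graphs
  have hCm : ∀ P P', ∀ x ∈ C P P', key x.1 < key x.2 ∧ nd x.1 = P ∧ nd x.2 = P' ∧
      F'.Adj x.1 x.2 ∧ x.1 ∈ Z ∧ x.2 ∈ Z := fun P P' x hx =>
    (Finset.mem_filter.1 (hCs P P' hx)).2
  obtain ⟨U, hU⟩ : ∃ U : Finset (V × V), U = univ.filter fun x =>
    nd x.1 < m ∧ nd x.2 < m ∧ x ∈ C (nd x.1) (nd x.2) := ⟨_, rfl⟩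
  have hUm : ∀ x, x ∈ U ↔ nd x.1 < m ∧ nd x.2 < m ∧ x ∈ C (nd x.1) (nd x.2) := by
    intro x
    rw [hU, Finset.mem_filter]
    exact ⟨fun h => h.2, fun h => ⟨Finset.mem_univ _, h⟩⟩
  have hUk : ∀ x ∈ U, key x.1 < key x.2 := fun x hx =>
    (hCm _ _ x ((hUm x).1 hx).2.2).1
  obtain ⟨W, hW⟩ : ∃ W : Finset (V × V), W = univ.filter fun x =>
    nd x.1 < m ∧ nd x.2 < m ∧ x ∈ SelYpTT F key nd univ (nd x.1) (nd x.2) := ⟨_, rfl⟩
  have hWm : ∀ x, x ∈ W ↔ nd x.1 < m ∧ nd x.2 < m ∧ x ∈ SelYpTT F key nd univ (nd x.1) (nd x.2) := by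
    intro x
    rw [hW, Finset.mem_filter]
    exact ⟨fun h => h.2, fun h => ⟨Finset.mem_univ _, h⟩⟩
  have hWk : ∀ x ∈ W, key x.1 < key x.2 := fun x hx =>
    (Finset.mem_filter.1 ((hWm x).1 hx).2.2).2.1
  refine ⟨{ Adj := fun a b => (a, b) ∈ U ∨ (b, a) ∈ U
            symm := ⟨fun a b h => h.symm⟩
            loopless := ⟨fun a h => by
              rcases h with h | h
              · exact lt_irrefl _ (hUk _ h)
              · exact lt_irrefl _ (hUk _ h)⟩ }, ?_, ?_⟩
  · rintro a b (h | h)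
    · obtain ⟨h2, h3, h4⟩ := (hUm _).1 h
      obtain ⟨_, _, _, h5, h6, h7⟩ := hCm _ _ _ h4
      exact ⟨h5, h6, h7, h2, h3⟩
    · obtain ⟨h2, h3, h4⟩ := (hUm _).1 h
      obtain ⟨_, _, _, h5, h6, h7⟩ := hCm _ _ _ h4
      exact ⟨h5.symm, h7, h6, h3, h2⟩
  · intro P hP
    have e1 : (∑ v ∈ pt nd P, (univ.filter fun u => (v, u) ∈ U ∨ (u, v) ∈ U).card) =
        ∑ P' ∈ range m, ((C P P').card + (C P' P).card) := by
      rw [SelYp_sum key nd U hUk P]
      exact SelYp_split nd m U C hUm (fun P P' x hx => ⟨(hCm P P' x hx).2.1, (hCm P P' x hx).2.2.1⟩) hP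
    have e2 : (∑ v ∈ pt nd P, (univ.filter fun u => (v, u) ∈ W ∨ (u, v) ∈ W).card) =
        ∑ P' ∈ range m, ((SelYpTT F key nd univ P P').card + (SelYpTT F key nd univ P' P).card) := by
      rw [SelYp_sum key nd W hWk P]
      exact SelYp_split nd m W (SelYpTT F key nd univ) hWm
        (fun P P' x hx => ⟨(Finset.mem_filter.1 hx).2.2.1, (Finset.mem_filter.1 hx).2.2.2.1⟩) hP
    have e3 : ∀ v ∈ pt nd P, (univ.filter fun u => (v, u) ∈ W ∨ (u, v) ∈ W).card =
        dgi F (univ.filter fun u => nd u < m) v := by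
      intro v hv
      have hv' : nd v = P := (Finset.mem_filter.1 hv).2
      unfold dgi
      congr 1
      ext u
      rw [Finset.mem_filter, Finset.mem_filter, Finset.mem_filter, hWm, hWm]
      unfold SelYpTT
      rw [Finset.mem_filter, Finset.mem_filter]
      constructor
      · rintro ⟨_, ⟨_, h2, _, _, _, _, h3, _⟩ | ⟨h2, _, _, _, _, _, h3, _⟩⟩
        · exact ⟨⟨Finset.mem_univ _, h2⟩, h3⟩
        · exact ⟨⟨Finset.mem_univ _, h2⟩, h3.symm⟩
      · rintro ⟨⟨_, h2⟩, h3⟩
        refine ⟨Finset.mem_univ _, ?_⟩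
        have hvm : nd v < m := by rw [hv']; exact hP
        rcases lt_trichotomy (key v) (key u) with h | h | h
        · exact Or.inl ⟨hvm, h2, Finset.mem_univ _, h, rfl, rfl, h3, Finset.mem_univ _,
            Finset.mem_univ _⟩
        · exact absurd (hk h) h3.ne
        · exact Or.inr ⟨h2, hvm, Finset.mem_univ _, h, rfl, rfl, h3.symm, Finset.mem_univ _,
            Finset.mem_univ _⟩
    rw [Finset.sum_congr rfl e3] at e2
    have e1' : ∑ v ∈ pt nd P, ((univ.filter fun u => (v, u) ∈ U ∨ (u, v) ∈ U).card : ℝ) =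
        ∑ P' ∈ range m, (((C P P').card : ℝ) + ((C P' P).card : ℝ)) := by exact_mod_cast e1
    have e2' : ∑ v ∈ pt nd P, (dgi F (univ.filter fun u => nd u < m) v : ℝ) =
        ∑ P' ∈ range m, (((SelYpTT F key nd univ P P').card : ℝ) +
          ((SelYpTT F key nd univ P' P).card : ℝ)) := by exact_mod_cast e2
    have e4 : ∑ v ∈ pt nd P, (dg (V := V) { Adj := fun a b => (a, b) ∈ U ∨ (b, a) ∈ U
                                            symm := ⟨fun a b h => h.symm⟩
                                            loopless := ⟨fun a h => by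
                                              rcases h with h | h
                                              · exact lt_irrefl _ (hUk _ h)
                                              · exact lt_irrefl _ (hUk _ h)⟩ } v : ℝ) =
        ∑ v ∈ pt nd P, ((univ.filter fun u => (v, u) ∈ U ∨ (u, v) ∈ U).card : ℝ) := by
      refine Finset.sum_congr rfl fun v _ => ?_
      unfold dg
      congr 2
      ext u
      simp only [Finset.mem_filter]
    rw [e4, e1', e2', Finset.mul_sum, ← Finset.sum_sub_distrib]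
    refine (Finset.abs_sum_le_sum_abs _ _).trans ?_
    have e5 : ∀ P' ∈ range m, |((C P P').card : ℝ) + ((C P' P).card : ℝ) -
        θ * (((SelYpTT F key nd univ P P').card : ℝ) + ((SelYpTT F key nd univ P' P).card : ℝ))| ≤
        2 + B := by
      intro P' hP'
      rw [Finset.mem_range] at hP'
      have f1 := abs_le.1 (hbd P hP P' hP')
      have f2 := abs_le.1 (hbd P' hP' P hP)
      rw [abs_le]
      constructor <;> linarith [f1.1, f1.2, f2.1, f2.2]
    refine (Finset.sum_le_sum e5).trans (le_of_eq ?_)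
    rw [Finset.sum_const, Finset.card_range, nsmul_eq_mul]


end Pool.Agent.H90.KB
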