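import Mathlib
import Pool.Agent.H90.KB.Ifk
import Pool.Agent.H90.KB.SelNp
import Pool.Agent.H90.KB.SelYp
import Pool.Agent.H2.FC.Hal
import Pool.Agent.H2.FC.Bas
import Pool.Agent.H2.NE.Ne3

/-!
PST: one step of the peeling: `t` matchings of unused edges (of the graph `F'`), each of which could be taken at the present label (150 - 230 lines). Use the STATEMENTS of `selNp`, `selYp`, `hal` (`FC/Hal.lean`), `ne3` (`NE/Ne3.lean`), `col_dg`, `col_sum`, `col_full` (`FC/Bas.lean`).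

Proof.  `Lo := pt nd m`. `selNp F F' nd m Δ t B Z W` (`48 #Lo ≤ Δ` from `3 #Lo ≤ t`, `24 t ≤ Δ`) gives `N1`; `selYp F F' nd m Z (ρ * t / Δ) B` gives `EY` (`ρ t / Δ ≤ 1 / 24`). `H.Adj a b := (a ∈ W ∧ b ∈ N1 a) ∨ (b ∈ W ∧ a ∈ N1 b) ∨ EY.Adj a b`: a graph (`N1 a` consists of vertices with `nd < m`, `W ⊆ Lo`), `H ≤ F' ≤ F`, every edge has
an end with `nd < m`, and the ends with `nd < m` are in `Z`. For `w ∈ W`: `dg H w = t`; for `w ∈ Lo \ W`: `dg H w = 0`. For `v` with `nd v < m`: `2 dg H v ≤ 2 dg F v ≤ t`. `hal H W t`: `Col H t mm0` (`hv`: ends outside `W` of an edge of `H` are in pieces `< m`). `ne3 H t mm0` with `ι := Fin (m + 1)`, `pool v := min (nd v) m`,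
`sgn := 1`, `κ := Empty` (or `Fin 0`): `mm` with `Col H t mm` and for `P < m`: the numbers `x P a := #{v ∈ pt nd P : mm a v ≠ v}` satisfy `|x P a - x P a'| ≤ 2`. `∑_{a < t} x P a = ∑_{v ∈ pt nd P} dg H v` (`col_sum`) `= ∑_{w ∈ W} #(N1 w ∩ pt nd P) + ∑_{v ∈ pt nd P} dg EY v` (double counting of the edges between `W` and the piece), so
`|t x P a - t ∑_{w ∈ W} qq w P - (ρ t / Δ) yy F nd m P| ≤ 2 t + 2 m #Lo + 2 B + m (2 + B)`; divide by `t`.
`cov`: for `w ∈ W` all `t` labels are used (`col_full`); for `w ∈ Lo \ W` no edge.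
-/

set_option autoImplicit false

namespace Pool.Agent.H90.KB

open Finset Classical
open Pool.Agent.H71.DN Pool.Agent.H71.HL Pool.Agent.H71.DC Pool.Agent.H2.FC Pool.Agent.H2.NE

private theorem Pst_pt {V : Type} [Fintype V] {nd : V → ℕ} {i : ℕ} {v : V} :
    v ∈ pt nd i ↔ nd v = i := by
  simp [pt]

private theorem Pst_dc {V : Type} (A C : Finset V) (R : V → V → Prop)
    [∀ w v, Decidable (R w v)] :
    ∑ v ∈ A, (C.filter fun w => R w v).card = ∑ w ∈ C, (A.filter fun v => R w v).card := by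
  simp only [Finset.card_filter]
  exact Finset.sum_comm

private theorem Pst_zz {V ι : Type} [Fintype V] (pool : V → ι) (i : ι) (μ : V → V) (nd : V → ℕ)
    (P : ℕ) (hi : ∀ v, pool v = i ↔ nd v = P) : zz pool (fun _ => (1 : ℤ)) i μ =
      (((pt nd P).filter fun v => μ v ≠ v).card : ℤ) := by
  unfold zz
  rw [Finset.sum_const, nsmul_eq_mul, mul_one]
  congr 2
  ext v
  rw [mem_filter, mem_filter, Pst_pt, hi v]
  constructor
  · rintro ⟨-, h3⟩
    exact h3
  · intro h3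
    exact ⟨mem_univ _, h3⟩

private theorem Pst_avg (t : ℕ) (ht : 0 < t) (x : ℕ → ℕ) (a : ℕ)
    (hx : ∀ a' < t, |(x a : ℤ) - x a'| ≤ 2) (Q Y E : ℝ)
    (hS : |∑ a' ∈ range t, (x a' : ℝ) - t * Q - t * Y| ≤ E) :
    |(x a : ℝ) - Q - Y| ≤ 2 + E / t := by
  have htR : (0 : ℝ) < t := by exact_mod_cast ht
  have h1 : |(t : ℝ) * x a - ∑ a' ∈ range t, (x a' : ℝ)| ≤ 2 * t := by
    have h2 : (t : ℝ) * x a - ∑ a' ∈ range t, (x a' : ℝ) =
        ∑ a' ∈ range t, ((x a : ℝ) - x a') := by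
      rw [Finset.sum_sub_distrib, Finset.sum_const, card_range, nsmul_eq_mul]
    rw [h2]
    refine (Finset.abs_sum_le_sum_abs _ _).trans ?_
    have h3 : ∀ a' ∈ range t, |(x a : ℝ) - x a'| ≤ 2 := by
      intro a' ha'
      have h4 := hx a' (mem_range.1 ha')
      have h5 : ((|(x a : ℤ) - x a'| : ℤ) : ℝ) ≤ ((2 : ℤ) : ℝ) := by exact_mod_cast h4
      push_cast at h5
      exact h5
    refine (Finset.sum_le_sum h3).trans ?_
    rw [Finset.sum_const, card_range, nsmul_eq_mul]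
    linarith
  have h2 : |(x a : ℝ) - Q - Y| * t ≤ 2 * t + E := by
    have h3 : |(x a : ℝ) - Q - Y| * t = |(t : ℝ) * x a - t * Q - t * Y| := by
      rw [← abs_of_pos htR, ← abs_mul, abs_of_pos htR]
      congr 1
      ring
    rw [h3]
    rw [abs_le] at h1 hS ⊢
    constructor <;> linarith [h1.1, h1.2, hS.1, hS.2]
  have h4 : 2 + E / t = (2 * t + E) / t := by
    field_simp
  rw [h4, le_div_iff₀ htR]
  exact h2

theorem pst {V : Type} [Fintype V] (F F' : SimpleGraph V) (hle : F' ≤ F) (nd : V → ℕ)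
    (m Δ t B : ℕ) (Z W : Finset V) (hnd : ∀ v, nd v ≤ m) (ht : 0 < t) (hW : W ⊆ pt nd m)
    (hdeg : ∀ w ∈ pt nd m, dg F w = Δ) (h24 : 24 * t ≤ Δ) (hlo : 3 * (pt nd m).card ≤ t)
    (hxi : ∀ v, nd v < m → 2 * dg F v ≤ t) (hB : 2 * B ≤ Δ)
    (hg1 : ∑ w ∈ pt nd m, ∑ P ∈ range m,
      (dgi F (pt nd P) w - 8 * dgi F' (pt nd P ∩ Z) w) ≤ B)
    (hg2 : ∀ P < m, ∀ P' < m, (ee F (pt nd P) (pt nd P') : ℝ) ≤
      16 * ee F' (pt nd P ∩ Z) (pt nd P' ∩ Z) + B)
    (ρ : ℝ) (h0 : 0 ≤ ρ) (h1 : ρ ≤ 1) :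
    ∃ (H : SimpleGraph V) (mm : ℕ → V → V), H ≤ F' ∧ Col H t mm ∧
      (∀ a b, H.Adj a b → nd a < m ∨ nd b < m) ∧
      (∀ a b, H.Adj a b → nd a < m → a ∈ Z) ∧
      (∀ a < t, ∀ w ∈ pt nd m, (mm a w ≠ w ↔ w ∈ W)) ∧
      ∀ a < t, ∀ P < m, |(((pt nd P).filter fun v => mm a v ≠ v).card : ℝ) -
        ∑ w ∈ W, qq F nd m Δ w P - ρ / Δ * yy F nd m P| ≤
          2 + (2 * m * (pt nd m).card + 2 * B + m * (2 + B)) / t := by
  have hΔ : 0 < Δ := by omega
  have hlo' : 48 * (pt nd m).card ≤ Δ := by omega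
  obtain ⟨N1, hN, hNs⟩ := selNp F F' nd m Δ t B Z W hnd hΔ hW hdeg h24 hlo' hB hg1
  have hΔR : (0 : ℝ) < Δ := by exact_mod_cast hΔ
  have htR : (0 : ℝ) < t := by exact_mod_cast ht
  have hθ0 : (0 : ℝ) ≤ ρ * t / Δ := by positivity
  have hθ1 : ρ * t / Δ ≤ 1 / 24 := by
    rw [div_le_div_iff₀ hΔR (by norm_num)]
    have h3 : (24 * t : ℝ) ≤ Δ := by exact_mod_cast h24
    have h4 : ρ * t ≤ 1 * t := mul_le_mul_of_nonneg_right h1 htR.le
    linarith
  obtain ⟨EY, hY, hYs⟩ := selYp F F' nd m Z (ρ * t / Δ) (B : ℝ) hθ0 hθ1 (Nat.cast_nonneg B) hg2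
  have hWm : ∀ w ∈ W, nd w = m := fun w hw => Pst_pt.1 (hW hw)
  obtain ⟨H, hH⟩ : ∃ H : SimpleGraph V, ∀ a b, H.Adj a b ↔
      ((a ∈ W ∧ b ∈ N1 a) ∨ (b ∈ W ∧ a ∈ N1 b) ∨ EY.Adj a b) := ⟨
    { Adj := fun a b => (a ∈ W ∧ b ∈ N1 a) ∨ (b ∈ W ∧ a ∈ N1 b) ∨ EY.Adj a b
      symm := ⟨fun a b h => by
        rcases h with h | h | h
        · exact Or.inr (Or.inl h)
        · exact Or.inl h
        · exact Or.inr (Or.inr h.symm)⟩
      loopless := ⟨fun a h => by
        rcases h with h | h | h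
        · have h1 := ((hN a h.1).1 a h.2).2.1
          have h2 := hWm a h.1
          omega
        · have h1 := ((hN a h.1).1 a h.2).2.1
          have h2 := hWm a h.1
          omega
        · exact EY.irrefl h⟩ }, fun _ _ => Iff.rfl⟩
  have hHF' : H ≤ F' := by
    intro a b h
    rw [hH] at h
    rcases h with h | h | h
    · exact ((hN a h.1).1 b h.2).2.2
    · exact ((hN b h.1).1 a h.2).2.2.symm
    · exact (hY a b h).1
  have hlt : ∀ a b, H.Adj a b → nd a < m ∨ nd b < m := by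
    intro a b h
    rw [hH] at h
    rcases h with h | h | h
    · exact Or.inr ((hN a h.1).1 b h.2).2.1
    · exact Or.inl ((hN b h.1).1 a h.2).2.1
    · exact Or.inl (hY a b h).2.2.2.1
  have hZ : ∀ a b, H.Adj a b → nd a < m → a ∈ Z := by
    intro a b h ha
    rw [hH] at h
    rcases h with h | h | h
    · have h2 := hWm a h.1
      omega
    · exact ((hN b h.1).1 a h.2).1
    · exact (hY a b h).2.1
  have hdW : ∀ w ∈ W, dg H w = t := by
    intro w hw
    have hw' := hWm w hw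
    have e1 : (univ.filter fun u => H.Adj w u) = N1 w := by
      ext u
      rw [mem_filter, hH]
      constructor
      · rintro ⟨-, h | h | h⟩
        · exact h.2
        · have h1 := ((hN u h.1).1 w h.2).2.1
          omega
        · have h1 := (hY w u h).2.2.2.1
          omega
      · intro h
        exact ⟨mem_univ _, Or.inl ⟨hw, h⟩⟩
    unfold dg
    rw [e1]
    exact (hN w hw).2
  have hdF : ∀ v, dg H v ≤ dg F v := by
    intro v
    unfold dg
    refine Finset.card_le_card fun u hu => ?_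
    rw [mem_filter] at hu ⊢
    exact ⟨hu.1, hle (hHF' hu.2)⟩
  have hW3 : 3 * W.card ≤ t := by
    have h3 := Finset.card_le_card hW
    omega
  obtain ⟨mm0, h00⟩ := hal H W t hdW (by
    intro a b hab ha hb
    rw [hH] at hab
    rcases hab with h | h | h
    · exact absurd h.1 ha
    · exact absurd h.1 hb
    · have h3 := hxi a (hY a b h).2.2.2.1
      have h4 := hxi b (hY a b h).2.2.2.2
      have h5 := hdF a
      have h6 := hdF b
      omega) hW3
  obtain ⟨mm, hcol, hz, -⟩ := ne3 (ι := Fin (m + 1)) (κ := Empty) H t mm0 h00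
    (fun v => ⟨nd v, Nat.lt_succ_of_le (hnd v)⟩) (fun _ => 1) (fun _ => by norm_num)
    (fun e => e.elim) (fun e => e.elim) (fun e => e.elim) (fun e => e.elim)
  refine ⟨H, mm, hHF', hcol, hlt, hZ, ?_, ?_⟩
  · intro a ha w hw
    have hw' := Pst_pt.1 hw
    constructor
    · intro hne
      have h3 := hcol.adj a ha w hne
      rw [hH] at h3
      rcases h3 with h | h | h
      · exact h.1
      · have h4 := ((hN _ h.1).1 w h.2).2.1
        omega
      · have h4 := (hY _ _ h).2.2.2.1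
        omega
    · intro hwW
      exact col_full H t mm hcol w (hdW w hwW) a ha
  · intro a ha P hP
    have hzz : ∀ ℓ, zz (fun v => (⟨nd v, Nat.lt_succ_of_le (hnd v)⟩ : Fin (m + 1)))
        (fun _ => (1 : ℤ)) ⟨P, by omega⟩ (mm ℓ) =
        (((pt nd P).filter fun v => mm ℓ v ≠ v).card : ℤ) := by
      intro ℓ
      exact Pst_zz _ _ _ nd P fun v => ⟨fun h3 => congrArg Fin.val h3, fun h3 => Fin.ext h3⟩
    have hV : ∀ v ∈ pt nd P, dg H v = (W.filter fun w => v ∈ N1 w).card + dg EY v := by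
      intro v hv
      have hv' := Pst_pt.1 hv
      unfold dg
      rw [← card_union_of_disjoint]
      · congr 1
        ext u
        rw [mem_filter, mem_union, mem_filter, mem_filter, hH]
        constructor
        · rintro ⟨-, h | h | h⟩
          · have h3 := hWm v h.1
            omega
          · exact Or.inl h
          · exact Or.inr ⟨mem_univ _, h⟩
        · rintro (h | h)
          · exact ⟨mem_univ _, Or.inr (Or.inl h)⟩
          · exact ⟨mem_univ _, Or.inr (Or.inr h.2)⟩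
      · rw [Finset.disjoint_left]
        intro u hu hu'
        rw [mem_filter] at hu hu'
        have h3 := (hY v u hu'.2).2.2.2.2
        have h4 := hWm u hu.1
        omega
    have s1 : ∑ ℓ ∈ range t, (((pt nd P).filter fun v => mm ℓ v ≠ v).card : ℝ) =
        ∑ w ∈ W, ((N1 w ∩ pt nd P).card : ℝ) + ∑ v ∈ pt nd P, (dg EY v : ℝ) := by
      have h3 : ∑ ℓ ∈ range t, ((pt nd P).filter fun v => mm ℓ v ≠ v).card =
          ∑ w ∈ W, (N1 w ∩ pt nd P).card + ∑ v ∈ pt nd P, dg EY v := by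
        rw [col_sum H t mm hcol, Finset.sum_congr rfl hV, Finset.sum_add_distrib]
        congr 1
        rw [Pst_dc (pt nd P) W (fun w v => v ∈ N1 w)]
        refine Finset.sum_congr rfl fun w _ => ?_
        congr 1
        ext v
        simp only [mem_filter, mem_inter]
        tauto
      exact_mod_cast h3
    refine Pst_avg t ht (fun ℓ => ((pt nd P).filter fun v => mm ℓ v ≠ v).card) a ?_ _ _ _ ?_
    · intro a' ha'
      have h3 := hz ⟨P, by omega⟩ a ha a' ha'
      rw [hzz, hzz] at h3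
      exact h3
    · rw [s1]
      have a1 := hNs P hP
      have a2 := hYs P hP
      have e1 : (t : ℝ) * (ρ / Δ * yy F nd m P) = ρ * t / Δ *
          ∑ v ∈ pt nd P, (dgi F (univ.filter fun u => nd u < m) v : ℝ) := by
        unfold yy
        ring
      rw [e1]
      rw [abs_le] at a1 a2 ⊢
      constructor <;> linarith [a1.1, a1.2, a2.1, a2.2]

end Pool.Agent.H90.KB
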