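import Mathlib
import Pool.Agent.H90.KB.Ifk

/-!
The rest of the graph after `K` matchings have been taken, and the invariants of the peeling: definitions.
-/

set_option autoImplicit false

namespace Pool.Agent.H90.KB

open Finset Classical
open Pool.Agent.H71.DN Pool.Agent.H71.HL Pool.Agent.H71.DC Pool.Agent.H2.FC

/-- The edges of `F` that are not in the matchings `mm i`, `i < K`. -/
def rst {V : Type} (F : SimpleGraph V) (mm : ℕ → V → V) (K : ℕ) : SimpleGraph V where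
  Adj a b := F.Adj a b ∧ ∀ i < K, mm i a ≠ b ∧ mm i b ≠ a
  symm := ⟨fun _ _ h => ⟨h.1.symm, fun i hi => ⟨(h.2 i hi).2, (h.2 i hi).1⟩⟩⟩
  loopless := ⟨fun _ h => F.irrefl h.1⟩

/-- The quadratic potential. -/
noncomputable def pot {V : Type} [Fintype V] (F : SimpleGraph V) (Lo : Finset V) (s : ℕ)
    (Qs : ℕ → Finset V) (D1 : V → ℕ → ℝ) (D2 : ℕ → ℕ → ℝ) : ℝ :=
  ∑ w ∈ Lo, ∑ j ∈ range s,
      (s : ℝ) * Fintype.card V * D1 w j ^ 2 / (dgi F (Qs j) w : ℝ) +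
    ∑ j ∈ range s, ∑ j' ∈ range s,
      ((Lo.card : ℝ) + 1) * D2 j j' ^ 2 / (ee F (Qs j) (Qs j') : ℝ)

/-- The used edges are controlled by `D1`, `D2`. -/
structure Dd {V : Type} [Fintype V] (F : SimpleGraph V) (Lo : Finset V) (s t : ℕ)
    (Qs : ℕ → Finset V) (K : ℕ) (mm : ℕ → V → V) (D1 : V → ℕ → ℝ) (D2 : ℕ → ℕ → ℝ) : Prop where
  d1 : ∀ w ∈ Lo, ∀ j < s,
    (un mm K (Qs j) w : ℝ) ≤ (K : ℝ) / t * dgi F (Qs j) w + D1 w j
  d2 : ∀ j < s, ∀ j' < s,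
    (up mm K (Qs j) (Qs j') : ℝ) ≤ (K : ℝ) / t * ee F (Qs j) (Qs j') + D2 j j'
  po : pot F Lo s Qs D1 D2 ≤
    (K : ℝ) * ((s : ℝ) ^ 2 * Fintype.card V * (2 * Lo.card + 1)) / t

end Pool.Agent.H90.KB
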