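import Mathlib
import Pool.Agent.H90.KB.Ifk2

/-!
RSD: degrees in the rest of the graph (50 - 90 lines).

Proof.  `rsd`: the elements `u ∈ Q` with `F.Adj w u` are those with `(rst F mm K).Adj w u` and those with `mm i w = u` (or `mm i u = w`, the same by `inv`) for some `i < K`. The map `i ↦ mm i w` is a bijection from `{i < K : mm i w ≠ w, mm i w ∈ Q}` to the second set: it maps into it by `adj`, it is injective by `dis`, and onto:
if `u ∈ Q`, `F.Adj w u`, `mm i w = u` then `mm i w ≠ w`. The two sets are disjoint.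
`rse`: sum of `rsd` over `A`: `ee G A B = ∑_{a ∈ A} dgi G B a`.
-/

set_option autoImplicit false

namespace Pool.Agent.H90.KB

open Finset Classical
open Pool.Agent.H71.DN Pool.Agent.H71.HL Pool.Agent.H71.DC Pool.Agent.H2.FC

theorem rsd {V : Type} (F : SimpleGraph V) (K : ℕ) (mm : ℕ → V → V)
    (hi : ∀ l < K, Inv (mm l)) (ha : ∀ l < K, ∀ v, mm l v ≠ v → F.Adj v (mm l v))
    (hd : ∀ i < K, ∀ j < K, i ≠ j → ∀ v, mm i v ≠ v → mm i v ≠ mm j v)
    (Q : Finset V) (w : V) : dgi (rst F mm K) Q w + un mm K Q w = dgi F Q w := by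
  have h1 : (((range K).filter fun l => mm l w ≠ w ∧ mm l w ∈ Q).image fun l => mm l w).card =
      un mm K Q w := by
    unfold un
    apply Finset.card_image_of_injOn
    intro a haa b hbb hab
    have haa' := Finset.mem_filter.1 (Finset.mem_coe.1 haa)
    have hbb' := Finset.mem_filter.1 (Finset.mem_coe.1 hbb)
    by_contra hne
    exact hd a (Finset.mem_range.1 haa'.1) b (Finset.mem_range.1 hbb'.1) hne w haa'.2.1 hab
  have h2 : (Q.filter fun u => (rst F mm K).Adj w u) ∪
      (((range K).filter fun l => mm l w ≠ w ∧ mm l w ∈ Q).image fun l => mm l w) =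
      Q.filter fun u => F.Adj w u := by
    ext u
    rw [Finset.mem_union, Finset.mem_filter, Finset.mem_image, Finset.mem_filter]
    constructor
    · rintro (⟨hu, h⟩ | ⟨l, hl, rfl⟩)
      · exact ⟨hu, h.1⟩
      · rw [Finset.mem_filter] at hl
        exact ⟨hl.2.2, ha l (Finset.mem_range.1 hl.1) w hl.2.1⟩
    · rintro ⟨hu, h⟩
      by_cases hr : ∀ i < K, mm i w ≠ u ∧ mm i u ≠ w
      · left
        exact ⟨hu, h, hr⟩
      · right
        push Not at hr
        obtain ⟨i, hiK, hr⟩ := hr
        have hwu : mm i w = u := by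
          by_contra hne
          have h3 := hr hne
          apply hne
          rw [← h3]
          exact hi i hiK u
        refine ⟨i, ?_, hwu⟩
        rw [Finset.mem_filter, Finset.mem_range, hwu]
        refine ⟨hiK, ?_, hu⟩
        rintro rfl
        exact F.irrefl h
  have h3 : Disjoint (Q.filter fun u => (rst F mm K).Adj w u)
      (((range K).filter fun l => mm l w ≠ w ∧ mm l w ∈ Q).image fun l => mm l w) := by
    rw [Finset.disjoint_left]
    intro u hu hu2
    rw [Finset.mem_filter] at hu
    rw [Finset.mem_image] at hu2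
    obtain ⟨l, hl, hlu⟩ := hu2
    rw [Finset.mem_filter, Finset.mem_range] at hl
    exact (hu.2.2 l hl.1).1 hlu
  unfold dgi
  rw [← h2, Finset.card_union_of_disjoint h3, h1]

private theorem rsd_ee {V : Type} [Fintype V] (G : SimpleGraph V) (A B : Finset V) :
    ee G A B = ∑ a ∈ A, dgi G B a := by
  unfold ee dgi
  rw [Finset.card_filter, Finset.sum_product]
  refine Finset.sum_congr rfl fun a _ => ?_
  rw [Finset.card_filter]

theorem rse {V : Type} [Fintype V] (F : SimpleGraph V) (K : ℕ) (mm : ℕ → V → V)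
    (hi : ∀ l < K, Inv (mm l)) (ha : ∀ l < K, ∀ v, mm l v ≠ v → F.Adj v (mm l v))
    (hd : ∀ i < K, ∀ j < K, i ≠ j → ∀ v, mm i v ≠ v → mm i v ≠ mm j v)
    (A B : Finset V) : ee (rst F mm K) A B + up mm K A B = ee F A B := by
  rw [rsd_ee, rsd_ee, up, ← Finset.sum_add_distrib]
  exact Finset.sum_congr rfl fun a _ => rsd F K mm hi ha hd B a

end Pool.Agent.H90.KB
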