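import Mathlib
import Pool.Agent.H90.KB.Rsd

/-!
SHR: enough edges remain (60 - 100 lines). Use the STATEMENTS of `rsd`, `rse`.

Proof.  `Lo := pt nd m`. For `w ∈ Lo`, `P < m`: let `a := dgi F (pt nd P) w`, `d := dgi F (pt nd P ∩ Z) w = dgi F (Qs P) w`, `u := un mm K (Qs P) w`, `dgi (rst F mm K) (pt nd P ∩ Z) w = d - u` (`rsd`, `u ≤ d`): `a - 8 (d - u) ≤ (a - 7 d) + (50 u - d)` (natural subtractions). Sum over `w ∈ Lo`, `P < m`; the second part is a part of the sum in `u1`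
(`m ≤ s`). So the sum is at most `B0 + b1 ≤ B`.
For `P, P' < m`: `e := ee F (pt nd P ∩ Z) (pt nd P' ∩ Z) = ee F (Qs P) (Qs P')`, `u := up mm K (Qs P) (Qs P') ≤ e` (`rse`), `16 (e - u) ≥ 15 e - (50 u - e : ℕ)` and `(50 u - e : ℕ) ≤ b2` (one term of the sum in `u2`), so `ee F (pt nd P) (pt nd P') ≤ 15 e + B0 ≤ 16 (e - u) + B0 + b2 ≤ 16 ee (rst F mm K) .. + B`.
-/

set_option autoImplicit false

namespace Pool.Agent.H90.KB

open Finset Classical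
open Pool.Agent.H71.DN Pool.Agent.H71.HL Pool.Agent.H71.DC Pool.Agent.H2.FC

theorem shr {V : Type} [Fintype V] (F : SimpleGraph V) (nd : V → ℕ) (m s B0 B : ℕ) (b1 b2 : ℝ)
    (Z : Finset V) (Qs : ℕ → Finset V) (hms : m ≤ s) (hQ : ∀ P < m, Qs P = pt nd P ∩ Z)
    (hb1 : (B0 : ℝ) + b1 ≤ B) (hb2 : (B0 : ℝ) + b2 ≤ B)
    (g1 : ∑ w ∈ pt nd m, ∑ P ∈ range m,
      (dgi F (pt nd P) w - 7 * dgi F (pt nd P ∩ Z) w) ≤ B0)
    (g2 : ∀ P < m, ∀ P' < m, (ee F (pt nd P) (pt nd P') : ℝ) ≤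
      15 * ee F (pt nd P ∩ Z) (pt nd P' ∩ Z) + B0)
    (K : ℕ) (mm : ℕ → V → V)
    (hi : ∀ l < K, Inv (mm l)) (ha : ∀ l < K, ∀ v, mm l v ≠ v → F.Adj v (mm l v))
    (hd : ∀ i < K, ∀ j < K, i ≠ j → ∀ v, mm i v ≠ v → mm i v ≠ mm j v)
    (hU : Us F (pt nd m) s Qs K mm b1 b2) :
    (∑ w ∈ pt nd m, ∑ P ∈ range m,
      (dgi F (pt nd P) w - 8 * dgi (rst F mm K) (pt nd P ∩ Z) w) ≤ B) ∧
    ∀ P < m, ∀ P' < m, (ee F (pt nd P) (pt nd P') : ℝ) ≤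
      16 * ee (rst F mm K) (pt nd P ∩ Z) (pt nd P' ∩ Z) + B := by
  constructor
  · have h1 : ∑ w ∈ pt nd m, ∑ P ∈ range m,
        (dgi F (pt nd P) w - 8 * dgi (rst F mm K) (pt nd P ∩ Z) w) ≤
        ∑ w ∈ pt nd m, ∑ P ∈ range m, (dgi F (pt nd P) w - 7 * dgi F (pt nd P ∩ Z) w) +
        ∑ w ∈ pt nd m, ∑ j ∈ range s, (50 * un mm K (Qs j) w - dgi F (Qs j) w) := by
      have h2 : ∑ w ∈ pt nd m, ∑ j ∈ range m, (50 * un mm K (Qs j) w - dgi F (Qs j) w) ≤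
          ∑ w ∈ pt nd m, ∑ j ∈ range s, (50 * un mm K (Qs j) w - dgi F (Qs j) w) := by
        refine Finset.sum_le_sum fun w _ => ?_
        exact Finset.sum_le_sum_of_subset (Finset.range_mono hms)
      refine le_trans ?_ (Nat.add_le_add_left h2 _)
      rw [← Finset.sum_add_distrib]
      refine Finset.sum_le_sum fun w _ => ?_
      rw [← Finset.sum_add_distrib]
      refine Finset.sum_le_sum fun P hP => ?_
      have hP' : P < m := Finset.mem_range.1 hP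
      have h3 := rsd F K mm hi ha hd (pt nd P ∩ Z) w
      rw [hQ P hP']
      omega
    have h4 := hU.u1
    have h5 : ((∑ w ∈ pt nd m, ∑ P ∈ range m,
        (dgi F (pt nd P) w - 8 * dgi (rst F mm K) (pt nd P ∩ Z) w) : ℕ) : ℝ) ≤ (B : ℝ) := by
      have h6 : ((∑ w ∈ pt nd m, ∑ P ∈ range m,
          (dgi F (pt nd P) w - 8 * dgi (rst F mm K) (pt nd P ∩ Z) w) : ℕ) : ℝ) ≤
          ((∑ w ∈ pt nd m, ∑ P ∈ range m,
            (dgi F (pt nd P) w - 7 * dgi F (pt nd P ∩ Z) w) : ℕ) : ℝ) +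
          ((∑ w ∈ pt nd m, ∑ j ∈ range s,
            (50 * un mm K (Qs j) w - dgi F (Qs j) w) : ℕ) : ℝ) := by
        exact_mod_cast h1
      have h7 : ((∑ w ∈ pt nd m, ∑ P ∈ range m,
            (dgi F (pt nd P) w - 7 * dgi F (pt nd P ∩ Z) w) : ℕ) : ℝ) ≤ (B0 : ℝ) := by
        exact_mod_cast g1
      linarith
    exact_mod_cast h5
  · intro P hP P' hP'
    have h1 := rse F K mm hi ha hd (pt nd P ∩ Z) (pt nd P' ∩ Z)
    have h2 := g2 P hP P' hP'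
    have h3 := hU.u2
    have h4 : 50 * up mm K (Qs P) (Qs P') - ee F (Qs P) (Qs P') ≤
        ∑ j ∈ range s, ∑ j' ∈ range s, (50 * up mm K (Qs j) (Qs j') - ee F (Qs j) (Qs j')) := by
      have h5 : 50 * up mm K (Qs P) (Qs P') - ee F (Qs P) (Qs P') ≤
          ∑ j' ∈ range s, (50 * up mm K (Qs P) (Qs j') - ee F (Qs P) (Qs j')) :=
        Finset.single_le_sum (f := fun j' => 50 * up mm K (Qs P) (Qs j') - ee F (Qs P) (Qs j'))
          (fun _ _ => Nat.zero_le _) (Finset.mem_range.2 (lt_of_lt_of_le hP' hms))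
      refine le_trans h5 ?_
      exact Finset.single_le_sum (f := fun j => ∑ j' ∈ range s,
          (50 * up mm K (Qs j) (Qs j') - ee F (Qs j) (Qs j')))
          (fun _ _ => Nat.zero_le _) (Finset.mem_range.2 (lt_of_lt_of_le hP hms))
    rw [hQ P hP, hQ P' hP'] at h4
    have h6 : ((50 * up mm K (pt nd P ∩ Z) (pt nd P' ∩ Z) -
        ee F (pt nd P ∩ Z) (pt nd P' ∩ Z) : ℕ) : ℝ) ≤ b2 :=
      le_trans (by exact_mod_cast h4) h3
    have h7 : 15 * ee F (pt nd P ∩ Z) (pt nd P' ∩ Z) ≤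
        16 * ee (rst F mm K) (pt nd P ∩ Z) (pt nd P' ∩ Z) +
        (50 * up mm K (pt nd P ∩ Z) (pt nd P' ∩ Z) - ee F (pt nd P ∩ Z) (pt nd P' ∩ Z)) := by
      omega
    have h8 : 15 * (ee F (pt nd P ∩ Z) (pt nd P' ∩ Z) : ℝ) ≤
        16 * (ee (rst F mm K) (pt nd P ∩ Z) (pt nd P' ∩ Z) : ℝ) +
        ((50 * up mm K (pt nd P ∩ Z) (pt nd P' ∩ Z) -
          ee F (pt nd P ∩ Z) (pt nd P' ∩ Z) : ℕ) : ℝ) := by
      exact_mod_cast h7
    linarith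

end Pool.Agent.H90.KB
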