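import Mathlib
import Pool.Agent.H90.KB.Ifk2

/-!
USB: bounds for the used edges from the potential (80 - 140 lines).

Proof.  `n := card V`, `N := #Lo`, `1 / 100 ≥ K / t`. Both parts of `pot` are `≥ 0`. For a counter with capacity `d > 0`, used number `u ≤ (K / t) d + D ≤ d / 100 + D`: `50 u - d ≤ 50 D - d / 2`; if this is `> 0` then `D > d / 100 > 0` and `50 D ≤ 5000 D^2 / d`; so always `(50 u - d : ℕ) ≤ 5000 D^2 / d` (real division).
If `d = 0` then `u = 0` (`hn1`, `hn2`) and both sides are `0` (`x / 0 = 0`).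
u1: if `s = 0` or `N = 0` the sum is `0`; so `s ≥ 1`, `N ≥ 1`, `n ≥ N ≥ 1` (`Lo` is a finset of `V`): `∑ (50 un - dgi) ≤ 5000 ∑ D1^2 / dgi ≤ 5000 pot / (s n) ≤ 5000 K s (2 N + 1) / t ≤ 50 s (2 N + 1) ≤ 150 s N`.
u2: `∑ (50 up - ee) ≤ 5000 ∑ D2^2 / ee ≤ 5000 pot / (N + 1) ≤ 5000 K s^2 n (2 N + 1) / (t (N + 1)) ≤ 10000 K s^2 n / t ≤ 10000 κ s^2 n / t`.
-/

set_option autoImplicit false

namespace Pool.Agent.H90.KB

open Finset Classical
open Pool.Agent.H71.DN Pool.Agent.H71.HL Pool.Agent.H71.DC Pool.Agent.H2.FC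

private theorem Usb_c {u d : ℕ} {D r : ℝ} (hr : r ≤ 1 / 100) (hu : (u : ℝ) ≤ r * d + D)
    (hud : u ≤ d) : ((50 * u - d : ℕ) : ℝ) ≤ 5000 * (D ^ 2 / d) := by
  rcases Nat.eq_zero_or_pos d with h0 | h0
  · have hu0 : u = 0 := by omega
    rw [h0, hu0]
    simp
  · have hd : (0 : ℝ) < d := by exact_mod_cast h0
    rcases le_total (50 * u) d with h1 | h1
    · rw [Nat.sub_eq_zero_of_le h1, Nat.cast_zero]
      positivity
    · rw [Nat.cast_sub h1, Nat.cast_mul]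
      have h2 : r * d ≤ 1 / 100 * d := mul_le_mul_of_nonneg_right hr hd.le
      have h3 : ((50 : ℕ) : ℝ) * u - d ≤ 50 * D - d / 2 := by
        push_cast
        linarith
      refine h3.trans ?_
      rw [← mul_div_assoc, le_div_iff₀ hd]
      nlinarith [sq_nonneg (50 * D - d / 2), sq_nonneg D, sq_nonneg (d : ℝ)]

theorem usb {V : Type} [Fintype V] (F : SimpleGraph V) (Lo : Finset V) (s t κ : ℕ)
    (Qs : ℕ → Finset V) (K : ℕ) (mm : ℕ → V → V) (D1 : V → ℕ → ℝ) (D2 : ℕ → ℕ → ℝ)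
    (ht : 0 < t) (hK : K ≤ κ) (h100 : 100 * κ ≤ t)
    (hn1 : ∀ w ∈ Lo, ∀ j < s, un mm K (Qs j) w ≤ dgi F (Qs j) w)
    (hn2 : ∀ j < s, ∀ j' < s, up mm K (Qs j) (Qs j') ≤ ee F (Qs j) (Qs j'))
    (hD : Dd F Lo s t Qs K mm D1 D2) :
    Us F Lo s Qs K mm (150 * s * Lo.card)
      (10000 * κ * (s : ℝ) ^ 2 * Fintype.card V / t) := by
  have htR : (0 : ℝ) < t := by exact_mod_cast ht
  have hr : (K : ℝ) / t ≤ 1 / 100 := by
    rw [div_le_div_iff₀ htR (by norm_num)]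
    have h1 : 100 * K ≤ t := (Nat.mul_le_mul_left 100 hK).trans h100
    have h2 : (100 : ℝ) * K ≤ t := by exact_mod_cast h1
    linarith
  have hr0 : (0 : ℝ) ≤ (K : ℝ) / t := by positivity
  have hP1 : 0 ≤ ∑ w ∈ Lo, ∑ j ∈ range s,
      (s : ℝ) * Fintype.card V * D1 w j ^ 2 / (dgi F (Qs j) w : ℝ) :=
    sum_nonneg fun w _ => sum_nonneg fun j _ => by positivity
  have hP2 : 0 ≤ ∑ j ∈ range s, ∑ j' ∈ range s,
      ((Lo.card : ℝ) + 1) * D2 j j' ^ 2 / (ee F (Qs j) (Qs j') : ℝ) :=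
    sum_nonneg fun w _ => sum_nonneg fun j _ => by positivity
  have hpo := hD.po
  unfold pot at hpo
  have hE1 : ∑ w ∈ Lo, ∑ j ∈ range s,
      (s : ℝ) * Fintype.card V * D1 w j ^ 2 / (dgi F (Qs j) w : ℝ) =
      (s : ℝ) * Fintype.card V * ∑ w ∈ Lo, ∑ j ∈ range s, D1 w j ^ 2 / (dgi F (Qs j) w : ℝ) := by
    rw [mul_sum]
    refine sum_congr rfl fun w _ => ?_
    rw [mul_sum]
    refine sum_congr rfl fun j _ => ?_
    rw [mul_div_assoc]
  have hE2 : ∑ j ∈ range s, ∑ j' ∈ range s,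
      ((Lo.card : ℝ) + 1) * D2 j j' ^ 2 / (ee F (Qs j) (Qs j') : ℝ) =
      ((Lo.card : ℝ) + 1) * ∑ j ∈ range s, ∑ j' ∈ range s,
        D2 j j' ^ 2 / (ee F (Qs j) (Qs j') : ℝ) := by
    rw [mul_sum]
    refine sum_congr rfl fun w _ => ?_
    rw [mul_sum]
    refine sum_congr rfl fun j _ => ?_
    rw [mul_div_assoc]
  rw [hE1] at hP1 hpo
  rw [hE2] at hP2 hpo
  set A : ℝ := ∑ w ∈ Lo, ∑ j ∈ range s, D1 w j ^ 2 / (dgi F (Qs j) w : ℝ) with hA
  set B : ℝ := ∑ j ∈ range s, ∑ j' ∈ range s, D2 j j' ^ 2 / (ee F (Qs j) (Qs j') : ℝ) with hB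
  set n : ℝ := (Fintype.card V : ℝ) with hn
  set N : ℝ := (Lo.card : ℝ) with hN
  have hN0 : 0 ≤ N := Nat.cast_nonneg _
  have hn0 : 0 ≤ n := Nat.cast_nonneg _
  have hs0 : (0 : ℝ) ≤ s := Nat.cast_nonneg _
  constructor
  · rcases Nat.eq_zero_or_pos s with hs | hs
    · rw [hs]
      simp
    rcases Nat.eq_zero_or_pos Lo.card with hL | hL
    · rw [card_eq_zero] at hL
      rw [hN, hL]
      simp
    have hsR : (1 : ℝ) ≤ s := by exact_mod_cast hs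
    have hNR : (1 : ℝ) ≤ N := by
      rw [hN]
      exact_mod_cast hL
    have hnR : (1 : ℝ) ≤ n := by
      have h1 : Lo.card ≤ Fintype.card V := card_le_univ Lo
      have h2 : 1 ≤ Fintype.card V := hL.trans_le h1
      rw [hn]
      exact_mod_cast h2
    have h1 : ((∑ w ∈ Lo, ∑ j ∈ range s, (50 * un mm K (Qs j) w - dgi F (Qs j) w) : ℕ) : ℝ) ≤
        5000 * A := by
      rw [Nat.cast_sum, hA, mul_sum]
      refine sum_le_sum fun w hw => ?_
      rw [Nat.cast_sum, mul_sum]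
      refine sum_le_sum fun j hj => ?_
      exact Usb_c hr (hD.d1 w hw j (mem_range.1 hj)) (hn1 w hw j (mem_range.1 hj))
    refine h1.trans ?_
    have h2 : (s : ℝ) * n * A ≤ (K : ℝ) * ((s : ℝ) ^ 2 * n * (2 * N + 1)) / t := by linarith
    have h3 : (K : ℝ) * ((s : ℝ) ^ 2 * n * (2 * N + 1)) / t =
        (s : ℝ) * n * ((K : ℝ) / t * (s * (2 * N + 1))) := by
      field_simp
    rw [h3] at h2
    have hsn : (0 : ℝ) < (s : ℝ) * n := by positivity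
    have h4 : A ≤ (K : ℝ) / t * (s * (2 * N + 1)) := le_of_mul_le_mul_left h2 hsn
    have h5 : (K : ℝ) / t * (s * (2 * N + 1)) ≤ 1 / 100 * (s * (2 * N + 1)) :=
      mul_le_mul_of_nonneg_right hr (by positivity)
    have h6 : (s : ℝ) * (2 * N + 1) ≤ s * (3 * N) := mul_le_mul_of_nonneg_left (by linarith) hs0
    linarith
  · have h1 : ((∑ j ∈ range s, ∑ j' ∈ range s,
        (50 * up mm K (Qs j) (Qs j') - ee F (Qs j) (Qs j')) : ℕ) : ℝ) ≤ 5000 * B := by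
      rw [Nat.cast_sum, hB, mul_sum]
      refine sum_le_sum fun j hj => ?_
      rw [Nat.cast_sum, mul_sum]
      refine sum_le_sum fun j' hj' => ?_
      exact Usb_c hr (hD.d2 j (mem_range.1 hj) j' (mem_range.1 hj'))
        (hn2 j (mem_range.1 hj) j' (mem_range.1 hj'))
    refine h1.trans ?_
    have h2 : (N + 1) * B ≤ (K : ℝ) * ((s : ℝ) ^ 2 * n * (2 * N + 1)) / t := by linarith
    have h3 : (K : ℝ) * ((s : ℝ) ^ 2 * n * (2 * N + 1)) / t ≤
        (N + 1) * (2 * ((K : ℝ) * (s : ℝ) ^ 2 * n / t)) := by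
      have h4 : (K : ℝ) * ((s : ℝ) ^ 2 * n * (2 * N + 1)) / t =
          (2 * N + 1) * ((K : ℝ) * (s : ℝ) ^ 2 * n / t) := by
        field_simp
      rw [h4]
      have h5 : 0 ≤ (K : ℝ) * (s : ℝ) ^ 2 * n / t := by positivity
      nlinarith
    have h4 : B ≤ 2 * ((K : ℝ) * (s : ℝ) ^ 2 * n / t) :=
      le_of_mul_le_mul_left (h2.trans h3) (by positivity)
    have h5 : (K : ℝ) * (s : ℝ) ^ 2 * n / t ≤ (κ : ℝ) * (s : ℝ) ^ 2 * n / t := by
      have h6 : (K : ℝ) ≤ κ := by exact_mod_cast hK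
      gcongr
    have h6 : 10000 * (κ : ℝ) * (s : ℝ) ^ 2 * n / t = 10000 * ((κ : ℝ) * (s : ℝ) ^ 2 * n / t) := by
      ring
    rw [h6]
    linarith

end Pool.Agent.H90.KB
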