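import Mathlib
import Pool.Agent.H90.KB.Usb
import Pool.Agent.H90.KB.Shr
import Pool.Agent.H90.KB.Pst
import Pool.Agent.H90.KB.Cho

/-!
PIN: the peeling, label by label (180 - 280 lines). Use the STATEMENTS of `rsd, rse, usb, shr, pst, cho`.

Proof.  Induction on `K ≤ κ`. `K = 0`: `mm := fun _ => id`, `D1 = D2 = 0` (`un`, `up` are `0`, `pot = 0`). Step `K < κ`: let `mm, D1, D2` be given for `K`, `F' := rst F mm K`. `rsd`, `rse` give `hn1`, `hn2` of `usb`, so `Us F Lo s Qs K mm b1 b2` and by `shr` the hypotheses `hg1`, `hg2` of `pst F F' .. (W K) .. (ρ K)`: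
`H ≤ F'` and `ν` with `Col H t ν`. Counters: `C := (V × ℕ) ⊕ (ℕ × ℕ)`, `S :=` the finset of all `inl (w, j)`, `w ∈ Lo`, `j < s`, with `dgi F (Qs j) w > 0`, and all `inr (j, j')`, `j, j' < s`, with `ee F (Qs j) (Qs j') > 0`. `x (inl (w, j)) a := 1` if `ν a w ≠ w` and `ν a w ∈ Qs j`, else `0`; `x (inr (j, j')) a := #{v ∈ Qs j : ν a v ≠ v ∧ ν a v ∈ Qs j'}`;
`b := 1`, resp. `n = card V`; `dd := dgi F (Qs j) w`, resp. `ee F (Qs j) (Qs j')`; `om := s n`, resp. `#Lo + 1`; `D := D1, D2`. `∑_a x (inl (w, j)) a ≤ dgi H (Qs j) w ≤ dgi F (Qs j) w` (the `ν a w`, `a < t`, that are `≠ w` are different neighbours of `w`), and `∑_a x (inr (j, j')) a ≤ ee H (Qs j) (Qs j') ≤ ee F (Qs j) (Qs j')`.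
`∑_{c ∈ S} om c * b c ≤ #Lo * s * (s n) + s^2 * (#Lo + 1) * n = s^2 n (2 #Lo + 1)`. `cho` gives `a < t`. `mm' ℓ := if ℓ = K then ν a else mm ℓ`; `D' c := D c + x c a - (∑_{a'} x c a') / t` for `c ∈ S`, and `0` for the counters with capacity `0`. `pot` for `D'` is the sum over `S` (terms with capacity `0` vanish), so `po` holds for `K + 1`.
`un mm' (K + 1) Q w = un mm K Q w + [ν a w ≠ w ∧ ν a w ∈ Q]`; `d1`: `un' ≤ (K / t) d + D + x = (K / t) d + D' + (∑_{a'} x) / t ≤ ((K + 1) / t) d + D'`; for capacity `0`: `un' ≤ dgi F (Qs j) w = 0` (`rsd` for `mm'`). The same for `up`.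
`Pl` for `K + 1`: `inv, adj, cov, al, ct` at the label `K` from `pst`; `dis` for `i < K`, `K`: if `ν a v ≠ v` then `F'.Adj v (ν a v)`, so `mm i v ≠ ν a v`; if `ν a v = v` then `mm i v ≠ v` is the claim (and for the order `K`, `i`: `ν a v ≠ v`, `ν a v ≠ mm i v` as before).
`peel`: `K = κ` and `usb`.
-/

set_option autoImplicit false

namespace Pool.Agent.H90.KB

open Finset Classical
open Pool.Agent.H71.DN Pool.Agent.H71.HL Pool.Agent.H71.DC Pool.Agent.H2.FC Pool.Agent.H2.NE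

noncomputable def Pin_x {V : Type} (μ : V → V) (Q : Finset V) (w : V) : ℕ :=
  if μ w ≠ w ∧ μ w ∈ Q then 1 else 0

noncomputable def Pin_y {V : Type} (μ : V → V) (A B : Finset V) : ℕ := ∑ v ∈ A, Pin_x μ B v

theorem Pin_x_le {V : Type} (μ : V → V) (Q : Finset V) (w : V) : Pin_x μ Q w ≤ 1 := by
  unfold Pin_x
  split_ifs <;> omega

theorem Pin_y_le {V : Type} [Fintype V] (μ : V → V) (A B : Finset V) :
    Pin_y μ A B ≤ Fintype.card V := by
  unfold Pin_y
  calc ∑ v ∈ A, Pin_x μ B v ≤ ∑ v ∈ A, 1 := Finset.sum_le_sum fun v _ => Pin_x_le μ B v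
    _ = A.card := by simp
    _ ≤ _ := Finset.card_le_univ A

theorem Pin_un_sum {V : Type} (ν : ℕ → V → V) (t : ℕ) (Q : Finset V) (w : V) :
    ∑ a ∈ range t, Pin_x (ν a) Q w = un ν t Q w := by
  unfold un Pin_x
  rw [Finset.card_filter]

theorem Pin_up_sum {V : Type} (ν : ℕ → V → V) (t : ℕ) (A B : Finset V) :
    ∑ a ∈ range t, Pin_y (ν a) A B = up ν t A B := by
  unfold up Pin_y
  rw [Finset.sum_comm]
  exact Finset.sum_congr rfl fun v _ => Pin_un_sum ν t B v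

theorem Pin_un_succ {V : Type} (mm : ℕ → V → V) (K : ℕ) (μ : V → V) (Q : Finset V) (w : V) :
    un (fun l => if l = K then μ else mm l) (K + 1) Q w = un mm K Q w + Pin_x μ Q w := by
  rw [← Pin_un_sum, ← Pin_un_sum, Finset.sum_range_succ]
  have h1 : ∑ l ∈ range K, Pin_x (if l = K then μ else mm l) Q w =
      ∑ l ∈ range K, Pin_x (mm l) Q w := by
    refine Finset.sum_congr rfl fun l hl => ?_
    rw [if_neg (ne_of_lt (mem_range.1 hl))]
  have h2 : Pin_x (if K = K then μ else mm K) Q w = Pin_x μ Q w := by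
    rw [if_pos rfl]
  rw [h1, h2]

theorem Pin_up_succ {V : Type} (mm : ℕ → V → V) (K : ℕ) (μ : V → V) (A B : Finset V) :
    up (fun l => if l = K then μ else mm l) (K + 1) A B = up mm K A B + Pin_y μ A B := by
  unfold up Pin_y
  rw [← Finset.sum_add_distrib]
  exact Finset.sum_congr rfl fun v _ => Pin_un_succ mm K μ B v

theorem Pin_cho {C : Type} (S : Finset C) (t : ℕ) (ht : 0 < t) (x : C → ℕ → ℝ)
    (b dd om D : C → ℝ)
    (h0 : ∀ c ∈ S, ∀ a < t, 0 ≤ x c a ∧ x c a ≤ b c)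
    (hs : ∀ c ∈ S, ∑ a ∈ range t, x c a ≤ dd c)
    (hom : ∀ c ∈ S, 0 ≤ om c) :
    ∃ a < t, ∑ c ∈ S, om c * (D c + x c a - (∑ a' ∈ range t, x c a') / t) ^ 2 / dd c ≤
      ∑ c ∈ S, om c * D c ^ 2 / dd c + (∑ c ∈ S, om c * b c) / t := by
  have ht' : (0 : ℝ) < t := by exact_mod_cast ht
  obtain ⟨a, ha, h⟩ := cho (S.filter fun c => 0 < dd c) t ht x b dd om D
    (fun c hc => h0 c (mem_filter.1 hc).1) (fun c hc => hs c (mem_filter.1 hc).1)
    (fun c hc => (mem_filter.1 hc).2) (fun c hc => hom c (mem_filter.1 hc).1)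
  refine ⟨a, ha, ?_⟩
  have hdd : ∀ c ∈ S, 0 ≤ dd c := fun c hc =>
    (Finset.sum_nonneg fun a' ha' => (h0 c hc a' (mem_range.1 ha')).1).trans (hs c hc)
  have e1 : ∀ f : C → ℝ, ∑ c ∈ S.filter (fun c => 0 < dd c), f c / dd c =
      ∑ c ∈ S, f c / dd c := by
    intro f
    refine Finset.sum_filter_of_ne fun c hc hne => ?_
    refine lt_of_le_of_ne (hdd c hc) fun h1 => hne ?_
    rw [← h1, div_zero]
  rw [e1, e1] at h
  refine h.trans ?_
  have e2 : ∑ c ∈ S.filter (fun c => 0 < dd c), om c * b c ≤ ∑ c ∈ S, om c * b c :=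
    Finset.sum_le_sum_of_subset_of_nonneg (Finset.filter_subset _ _) fun c hc _ =>
      mul_nonneg (hom c hc) ((h0 c hc 0 ht).1.trans (h0 c hc 0 ht).2)
  have e3 : (∑ c ∈ S.filter (fun c => 0 < dd c), om c * b c) / t ≤ (∑ c ∈ S, om c * b c) / t :=
    div_le_div_of_nonneg_right e2 ht'.le
  linarith

theorem Pin_step {V : Type} [Fintype V] (F : SimpleGraph V) (Lo : Finset V) (s t : ℕ) (ht : 0 < t)
    (Qs : ℕ → Finset V) (D1 : V → ℕ → ℝ) (D2 : ℕ → ℕ → ℝ) (ν : ℕ → V → V)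
    (h1 : ∀ w ∈ Lo, ∀ j < s, un ν t (Qs j) w ≤ dgi F (Qs j) w)
    (h2 : ∀ j < s, ∀ j' < s, up ν t (Qs j) (Qs j') ≤ ee F (Qs j) (Qs j')) :
    ∃ a < t, pot F Lo s Qs
      (fun w j => D1 w j + (Pin_x (ν a) (Qs j) w : ℝ) - (un ν t (Qs j) w : ℝ) / t)
      (fun j j' => D2 j j' + (Pin_y (ν a) (Qs j) (Qs j') : ℝ) - (up ν t (Qs j) (Qs j') : ℝ) / t) ≤
      pot F Lo s Qs D1 D2 + (s : ℝ) ^ 2 * Fintype.card V * (2 * Lo.card + 1) / t := by
  have e1 : ∀ (Q : Finset V) (w : V), ∑ a' ∈ range t, (Pin_x (ν a') Q w : ℝ) = un ν t Q w := by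
    intro Q w
    exact_mod_cast Pin_un_sum ν t Q w
  have e2 : ∀ A B : Finset V, ∑ a' ∈ range t, (Pin_y (ν a') A B : ℝ) = up ν t A B := by
    intro A B
    exact_mod_cast Pin_up_sum ν t A B
  obtain ⟨a, ha, h⟩ := Pin_cho ((Lo ×ˢ range s).disjSum (range s ×ˢ range s)) t ht
    (fun c a => Sum.elim (fun p : V × ℕ => (Pin_x (ν a) (Qs p.2) p.1 : ℝ))
      (fun p : ℕ × ℕ => (Pin_y (ν a) (Qs p.1) (Qs p.2) : ℝ)) c)
    (Sum.elim (fun _ => 1) (fun _ => (Fintype.card V : ℝ)))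
    (Sum.elim (fun p => (dgi F (Qs p.2) p.1 : ℝ)) (fun p => (ee F (Qs p.1) (Qs p.2) : ℝ)))
    (Sum.elim (fun _ => (s : ℝ) * Fintype.card V) (fun _ => (Lo.card : ℝ) + 1))
    (Sum.elim (fun p => D1 p.1 p.2) (fun p => D2 p.1 p.2)) (by
      rintro (c | c) hc a' ha'
      · simp only [Sum.elim_inl]
        refine ⟨Nat.cast_nonneg _, ?_⟩
        exact_mod_cast Pin_x_le (ν a') (Qs c.2) c.1
      · simp only [Sum.elim_inr]
        refine ⟨Nat.cast_nonneg _, ?_⟩
        exact_mod_cast Pin_y_le (ν a') (Qs c.1) (Qs c.2)) (by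
      rintro (c | c) hc
      · rw [Finset.inl_mem_disjSum, mem_product, mem_range] at hc
        simp only [Sum.elim_inl, e1]
        exact_mod_cast h1 c.1 hc.1 c.2 hc.2
      · rw [Finset.inr_mem_disjSum, mem_product, mem_range, mem_range] at hc
        simp only [Sum.elim_inr, e2]
        exact_mod_cast h2 c.1 hc.1 c.2 hc.2) (by
      rintro (c | c) hc
      · simp only [Sum.elim_inl]
        positivity
      · simp only [Sum.elim_inr]
        positivity)
  refine ⟨a, ha, ?_⟩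
  have e3 : ∀ (A : Finset V) (g : V × ℕ → ℝ), ∑ p ∈ A ×ˢ range s, g p =
      ∑ w ∈ A, ∑ j ∈ range s, g (w, j) := fun A g => Finset.sum_product _ _ _
  have e4 : ∀ (g : ℕ × ℕ → ℝ), ∑ p ∈ range s ×ˢ range s, g p =
      ∑ w ∈ range s, ∑ j ∈ range s, g (w, j) := fun g => Finset.sum_product _ _ _
  simp only [Finset.sum_disjSum, Sum.elim_inl, Sum.elim_inr, e1, e2, e3, e4,
    Finset.sum_const, Finset.card_range, nsmul_eq_mul, Finset.card_product] at h
  unfold pot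
  refine h.trans (le_of_eq ?_)
  push_cast
  ring

theorem pin {V : Type} [Fintype V] (F : SimpleGraph V) (nd : V → ℕ) (m Δ t s κ B0 B : ℕ)
    (Z : Finset V) (Qs W : ℕ → Finset V) (ρ : ℕ → ℝ) (hnd : ∀ v, nd v ≤ m) (ht : 0 < t)
    (hdeg : ∀ w ∈ pt nd m, dg F w = Δ) (h24 : 24 * t ≤ Δ) (hlo : 3 * (pt nd m).card ≤ t)
    (hxi : ∀ v, nd v < m → 2 * dg F v ≤ t) (h100 : 100 * κ ≤ t) (hB : 2 * B ≤ Δ)
    (hb1 : (B0 : ℝ) + 150 * s * (pt nd m).card ≤ B)
    (hb2 : (B0 : ℝ) + 10000 * κ * (s : ℝ) ^ 2 * Fintype.card V / t ≤ B)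
    (hms : m ≤ s) (hQ : ∀ P < m, Qs P = pt nd P ∩ Z)
    (g1 : ∑ w ∈ pt nd m, ∑ P ∈ range m,
      (dgi F (pt nd P) w - 7 * dgi F (pt nd P ∩ Z) w) ≤ B0)
    (g2 : ∀ P < m, ∀ P' < m, (ee F (pt nd P) (pt nd P') : ℝ) ≤
      15 * ee F (pt nd P ∩ Z) (pt nd P' ∩ Z) + B0)
    (hW : ∀ ℓ, W ℓ ⊆ pt nd m) (hρ : ∀ ℓ, 0 ≤ ρ ℓ ∧ ρ ℓ ≤ 1) :
    ∀ K ≤ κ, ∃ (mm : ℕ → V → V) (D1 : V → ℕ → ℝ) (D2 : ℕ → ℕ → ℝ),
      Pl F nd m Δ Z W ρ (2 + (2 * m * (pt nd m).card + 2 * B + m * (2 + B)) / t) K mm ∧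
      Dd F (pt nd m) s t Qs K mm D1 D2 := by
  intro K
  induction K with
  | zero =>
    intro _
    refine ⟨fun _ => id, fun _ _ => 0, fun _ _ => 0, ?_, ?_⟩
    · exact ⟨fun l hl => absurd hl (Nat.not_lt_zero l), fun l hl => absurd hl (Nat.not_lt_zero l),
        fun l hl => absurd hl (Nat.not_lt_zero l), fun l hl => absurd hl (Nat.not_lt_zero l),
        fun l hl => absurd hl (Nat.not_lt_zero l), fun l hl => absurd hl (Nat.not_lt_zero l)⟩
    · refine ⟨?_, ?_, ?_⟩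
      · intro w _ j _
        simp [un]
      · intro j _ j' _
        simp [up, un]
      · simp [pot]
  | succ K ih =>
    intro hK
    obtain ⟨mm, D1, D2, hP, hD⟩ := ih (by omega)
    have hadj : ∀ l < K, ∀ v, mm l v ≠ v → F.Adj v (mm l v) := fun l hl v hv =>
      (hP.adj l hl v hv).1
    have hn1 : ∀ w ∈ pt nd m, ∀ j < s, un mm K (Qs j) w ≤ dgi F (Qs j) w := by
      intro w _ j _
      have h := rsd F K mm hP.inv hadj hP.dis (Qs j) w
      omega
    have hn2 : ∀ j < s, ∀ j' < s, up mm K (Qs j) (Qs j') ≤ ee F (Qs j) (Qs j') := by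
      intro j _ j' _
      have h := rse F K mm hP.inv hadj hP.dis (Qs j) (Qs j')
      omega
    have hU := usb F (pt nd m) s t κ Qs K mm D1 D2 ht (by omega) h100 hn1 hn2 hD
    obtain ⟨hg1, hg2⟩ := shr F nd m s B0 B _ _ Z Qs hms hQ hb1 hb2 g1 g2 K mm hP.inv hadj hP.dis hU
    have hle : rst F mm K ≤ F := fun a b h => h.1
    obtain ⟨H, ν, hHF, hcol, hlt, hZ, hcov, hct⟩ := pst F (rst F mm K) hle nd m Δ t B Z (W K) hnd ht
      (hW K) hdeg h24 hlo hxi hB hg1 hg2 (ρ K) (hρ K).1 (hρ K).2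
    have hHF' : H ≤ F := hHF.trans hle
    have hu1 : ∀ (Q : Finset V) (w : V), un ν t Q w ≤ dgi F Q w := by
      intro Q w
      have h := rsd H t ν hcol.inv hcol.adj hcol.dis Q w
      have h' : dgi H Q w ≤ dgi F Q w := by
        unfold dgi
        refine Finset.card_le_card fun u hu => ?_
        rw [mem_filter] at hu ⊢
        exact ⟨hu.1, hHF' hu.2⟩
      omega
    have hu2 : ∀ A A' : Finset V, up ν t A A' ≤ ee F A A' := by
      intro A A'
      have h := rse H t ν hcol.inv hcol.adj hcol.dis A A'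
      have h' : ee H A A' ≤ ee F A A' := by
        unfold ee
        refine Finset.card_le_card fun u hu => ?_
        rw [mem_filter] at hu ⊢
        exact ⟨hu.1, hHF' hu.2⟩
      omega
    obtain ⟨a, ha, hpot⟩ := Pin_step F (pt nd m) s t ht Qs D1 D2 ν
      (fun w _ j _ => hu1 (Qs j) w) (fun j _ j' _ => hu2 (Qs j) (Qs j'))
    have ht' : (0 : ℝ) < t := by exact_mod_cast ht
    have hadjn : ∀ v, ν a v ≠ v → (rst F mm K).Adj v (ν a v) := fun v hv =>
      hHF (hcol.adj a ha v hv)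
    refine ⟨fun l => if l = K then ν a else mm l, _, _, ?_, ?_, ?_, hpot.trans ?_⟩
    · refine ⟨?_, ?_, ?_, ?_, ?_, ?_⟩
      · intro l hl
        by_cases h : l = K
        · simp only [if_pos h]
          exact hcol.inv a ha
        · simp only [if_neg h]
          exact hP.inv l (by omega)
      · intro l hl v
        by_cases h : l = K
        · simp only [if_pos h]
          intro hv
          have h3 := hcol.adj a ha v hv
          exact ⟨hHF' h3, hlt _ _ h3⟩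
        · simp only [if_neg h]
          exact hP.adj l (by omega) v
      · intro i hi j hj hij v
        by_cases h : i = K
        · have h' : j ≠ K := fun h3 => hij (h.trans h3.symm)
          simp only [if_pos h, if_neg h']
          intro hv
          exact fun h4 => ((hadjn v hv).2 j (by omega)).1 h4.symm
        · by_cases h' : j = K
          · simp only [if_neg h, if_pos h']
            intro hv
            by_cases h5 : ν a v = v
            · rw [h5]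
              exact hv
            · exact ((hadjn v h5).2 i (by omega)).1
          · simp only [if_neg h, if_neg h']
            exact hP.dis i (by omega) j (by omega) hij v
      · intro l hl w hw
        by_cases h : l = K
        · simp only [if_pos h]
          rw [h]
          exact hcov a ha w hw
        · simp only [if_neg h]
          exact hP.cov l (by omega) w hw
      · intro l hl v
        by_cases h : l = K
        · simp only [if_pos h]
          intro hv hm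
          exact hZ _ _ (hcol.adj a ha v hv) hm
        · simp only [if_neg h]
          exact hP.al l (by omega) v
      · intro l hl P hPm
        by_cases h : l = K
        · simp only [if_pos h]
          rw [h]
          exact hct a ha P hPm
        · simp only [if_neg h]
          exact hP.ct l (by omega) P hPm
    · intro w hw j hj
      rw [Pin_un_succ]
      have h1 := hD.d1 w hw j hj
      have h2 : (un ν t (Qs j) w : ℝ) / t ≤ (dgi F (Qs j) w : ℝ) / t :=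
        div_le_div_of_nonneg_right (by exact_mod_cast hu1 (Qs j) w) ht'.le
      have h3 : ((K + 1 : ℕ) : ℝ) / t * dgi F (Qs j) w =
          (K : ℝ) / t * dgi F (Qs j) w + (dgi F (Qs j) w : ℝ) / t := by
        push_cast
        ring
      rw [h3]
      push_cast
      linarith
    · intro j hj j' hj'
      rw [Pin_up_succ]
      have h1 := hD.d2 j hj j' hj'
      have h2 : (up ν t (Qs j) (Qs j') : ℝ) / t ≤ (ee F (Qs j) (Qs j') : ℝ) / t :=
        div_le_div_of_nonneg_right (by exact_mod_cast hu2 (Qs j) (Qs j')) ht'.le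
      have h3 : ((K + 1 : ℕ) : ℝ) / t * ee F (Qs j) (Qs j') =
          (K : ℝ) / t * ee F (Qs j) (Qs j') + (ee F (Qs j) (Qs j') : ℝ) / t := by
        push_cast
        ring
      rw [h3]
      push_cast
      linarith
    · have h1 := hD.po
      have h3 : ((K + 1 : ℕ) : ℝ) * ((s : ℝ) ^ 2 * Fintype.card V * (2 * (pt nd m).card + 1)) / t =
          (K : ℝ) * ((s : ℝ) ^ 2 * Fintype.card V * (2 * (pt nd m).card + 1)) / t +
            (s : ℝ) ^ 2 * Fintype.card V * (2 * (pt nd m).card + 1) / t := by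
        push_cast
        ring
      rw [h3]
      linarith

theorem peel {V : Type} [Fintype V] (F : SimpleGraph V) (nd : V → ℕ) (m Δ t s κ B0 B : ℕ)
    (Z : Finset V) (Qs W : ℕ → Finset V) (ρ : ℕ → ℝ) (hnd : ∀ v, nd v ≤ m) (ht : 0 < t)
    (hdeg : ∀ w ∈ pt nd m, dg F w = Δ) (h24 : 24 * t ≤ Δ) (hlo : 3 * (pt nd m).card ≤ t)
    (hxi : ∀ v, nd v < m → 2 * dg F v ≤ t) (h100 : 100 * κ ≤ t) (hB : 2 * B ≤ Δ)
    (hb1 : (B0 : ℝ) + 150 * s * (pt nd m).card ≤ B)
    (hb2 : (B0 : ℝ) + 10000 * κ * (s : ℝ) ^ 2 * Fintype.card V / t ≤ B)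
    (hms : m ≤ s) (hQ : ∀ P < m, Qs P = pt nd P ∩ Z)
    (g1 : ∑ w ∈ pt nd m, ∑ P ∈ range m,
      (dgi F (pt nd P) w - 7 * dgi F (pt nd P ∩ Z) w) ≤ B0)
    (g2 : ∀ P < m, ∀ P' < m, (ee F (pt nd P) (pt nd P') : ℝ) ≤
      15 * ee F (pt nd P ∩ Z) (pt nd P' ∩ Z) + B0)
    (hW : ∀ ℓ, W ℓ ⊆ pt nd m) (hρ : ∀ ℓ, 0 ≤ ρ ℓ ∧ ρ ℓ ≤ 1) :
    ∃ mm : ℕ → V → V,
      Pl F nd m Δ Z W ρ (2 + (2 * m * (pt nd m).card + 2 * B + m * (2 + B)) / t) κ mm ∧
      Us F (pt nd m) s Qs κ mm (150 * s * (pt nd m).card)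
        (10000 * κ * (s : ℝ) ^ 2 * Fintype.card V / t) := by
  obtain ⟨mm, D1, D2, hP, hD⟩ := pin F nd m Δ t s κ B0 B Z Qs W ρ hnd ht hdeg h24 hlo hxi h100 hB
    hb1 hb2 hms hQ g1 g2 hW hρ κ le_rfl
  have hadj : ∀ l < κ, ∀ v, mm l v ≠ v → F.Adj v (mm l v) := fun l hl v hv =>
    (hP.adj l hl v hv).1
  refine ⟨mm, hP, usb F (pt nd m) s t κ Qs κ mm D1 D2 ht le_rfl h100 ?_ ?_ hD⟩
  · intro w _ j _
    have h := rsd F κ mm hP.inv hadj hP.dis (Qs j) w
    omega
  · intro j _ j' _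
    have h := rse F κ mm hP.inv hadj hP.dis (Qs j) (Qs j')
    omega

end Pool.Agent.H90.KB
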