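import Mathlib
import Pool.Agent.H90.KB.Stp

/-!
STZ: the lemma of Steinitz (Grinberg - Sevastyanov) for finitely many vectors with coordinates `P < d` (120 - 200 lines). Use the STATEMENT of `stp`.

Proof.  `stzc` (core): `u e P` with `|u e P| ≤ M` for `e ∈ A`, `P < d`. Hypothesis on `A`: `#A ≤ d`, or there is `λ : E → ℝ` with `0 ≤ λ e ≤ 1` on `A`, `∑_{e ∈ A} λ e = #A - d`, `∑_{e ∈ A} λ e * u e P = 0` (`P < d`). Conclusion: an enumeration `σ` of `A` with `|∑_{i < j} u (σ i) P| ≤ d * M` for all `j ≤ #A`, `P < d`.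
Induction on `#A`. `#A ≤ d`: any enumeration (`A.equivFin` or `Finset.equivFin`, extended by `e0`), `|∑_{i<j}| ≤ j * M ≤ d * M`. `#A = k > d`: we look for `z : E → ℝ`, `0 ≤ z ≤ 1` on `A`, `∑_A z = k - 1 - d`, `∑_A z * u = 0`, with `z e = 0` for some `e ∈ A`; then `A' := A \ {e}` and `z` fulfil the hypothesis (`#A' = k - 1`),
and the enumeration of `A'` is continued by `σ (k - 1) := e`; for `j = k`: `|∑_A u e P| = |∑_A (1 - λ e) u e P| ≤ M ∑_A (1 - λ e) = d * M`. Existence of `z`: among all `z` with `0 ≤ z ≤ 1` on `A`, `∑_A z = k - 1 - d`, `∑_A z * u = 0` (there is one: `z = λ * (k - 1 - d) / (k - d)`) take one with the smallest number of fractional coordinates `Fr := {e ∈ A : 0 < z e < 1}`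
(strong induction on this number, as in `Rnd.lean`). If `#Fr > d + 1`: `stp Fr (d + 1) v z` with `v e P := u e P` for `P < d` and `v e d := 1` gives a better one. So `#Fr ≤ d + 1`. If no coordinate is `0`: all coordinates outside `Fr` are `1`, so `∑_A z = (k - #Fr) + ∑_{Fr} z`; if `Fr = ∅` this is `k > k - 1 - d`; otherwise it is `> k - #Fr ≥ k - 1 - d`: a contradiction.
`stz`: `u e P := v e P - (∑_S v e' P) / #S`, `|u| ≤ 2 M`; `stzc` for `A = S` with `λ := (#S - d) / #S` if `#S ≥ d` (`∑_S u = 0`); then `∑_{i < j} v (σ i) P = ∑_{i < j} u (σ i) P + j / #S * ∑_S v`.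
-/

set_option autoImplicit false

namespace Pool.Agent.H90.KB

open Finset Classical

private theorem Stz_red {E : Type} (A : Finset E) (d : ℕ) (v : E → ℕ → ℝ) : ∀ (n : ℕ) (x : E → ℝ),
    (∀ e ∈ A, 0 ≤ x e ∧ x e ≤ 1) → (A.filter fun e => 0 < x e ∧ x e < 1).card ≤ n →
    ∃ z : E → ℝ, (∀ e ∈ A, 0 ≤ z e ∧ z e ≤ 1) ∧
      (A.filter fun e => 0 < z e ∧ z e < 1).card ≤ d ∧
      ∀ P < d, ∑ e ∈ A, z e * v e P = ∑ e ∈ A, x e * v e P := by
  intro n
  induction n with
  | zero =>
    intro x hx h0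
    exact ⟨x, hx, h0.trans (Nat.zero_le d), fun _ _ => rfl⟩
  | succ n ih =>
    intro x hx hn
    by_cases hd : (A.filter fun e => 0 < x e ∧ x e < 1).card ≤ d
    · exact ⟨x, hx, hd, fun _ _ => rfl⟩
    · obtain ⟨z, z1, z2, ⟨e1, he1, z3⟩, z4⟩ := stp (A.filter fun e => 0 < x e ∧ x e < 1) d v x
        (not_le.1 hd) (fun e he => (mem_filter.1 he).2)
      have hz : ∀ e ∈ A, 0 ≤ z e ∧ z e ≤ 1 := by
        intro e he
        by_cases h1 : e ∈ A.filter fun e => 0 < x e ∧ x e < 1
        · exact z2 e h1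
        · rw [z1 e h1]
          exact hx e he
      have hss : (A.filter fun e => 0 < z e ∧ z e < 1) ⊂ A.filter fun e => 0 < x e ∧ x e < 1 := by
        rw [ssubset_iff_of_subset]
        · refine ⟨e1, he1, fun h => ?_⟩
          have h2 := (mem_filter.1 h).2
          rcases z3 with h3 | h3
          · rw [h3] at h2
            exact lt_irrefl _ h2.1
          · rw [h3] at h2
            exact lt_irrefl _ h2.2
        · intro e he
          have h2 := mem_filter.1 he
          by_contra h3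
          rw [z1 e h3] at h2
          exact h3 (mem_filter.2 h2)
      have hc := card_lt_card hss
      obtain ⟨y, y1, y2, y3⟩ := ih z hz (by omega)
      refine ⟨y, y1, y2, fun P hP => ?_⟩
      rw [y3 P hP, ← sum_filter_add_sum_filter_not A (fun e => 0 < x e ∧ x e < 1)
        (fun e => z e * v e P), ← sum_filter_add_sum_filter_not A (fun e => 0 < x e ∧ x e < 1)
        (fun e => x e * v e P), z4 P hP]
      congr 1
      refine sum_congr rfl fun e he => ?_
      rw [z1 e (fun h => (mem_filter.1 he).2 (mem_filter.1 h).2)]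

private theorem Stz_z {E : Type} (d : ℕ) (u : E → ℕ → ℝ) (A : Finset E) (hd : d < A.card)
    (l : E → ℝ) (l1 : ∀ e ∈ A, 0 ≤ l e ∧ l e ≤ 1) (l2 : ∑ e ∈ A, l e = (A.card : ℝ) - d)
    (l3 : ∀ P < d, ∑ e ∈ A, l e * u e P = 0) :
    ∃ z : E → ℝ, (∀ e ∈ A, 0 ≤ z e ∧ z e ≤ 1) ∧ (∃ e ∈ A, z e = 0) ∧
      ∑ e ∈ A, z e = (A.card : ℝ) - 1 - d ∧ ∀ P < d, ∑ e ∈ A, z e * u e P = 0 := by
  have hk : (d : ℝ) + 1 ≤ A.card := by exact_mod_cast hd
  have hk0 : 0 < (A.card : ℝ) - d := by linarith
  obtain ⟨t, ht⟩ : ∃ t : ℝ, t = ((A.card : ℝ) - 1 - d) / ((A.card : ℝ) - d) := ⟨_, rfl⟩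
  have ht0 : 0 ≤ t := by
    rw [ht]
    exact div_nonneg (by linarith) hk0.le
  have ht1 : t ≤ 1 := by
    rw [ht, div_le_one hk0]
    linarith
  have ht2 : t * ((A.card : ℝ) - d) = (A.card : ℝ) - 1 - d := by
    rw [ht]
    field_simp
  obtain ⟨w, hw⟩ : ∃ w : E → ℕ → ℝ, w = fun e P => if P < d then u e P else 1 := ⟨_, rfl⟩
  have hw1 : ∀ e P, P < d → w e P = u e P := by
    intro e P hP
    rw [hw]
    exact if_pos hP
  have hw2 : ∀ e, w e d = 1 := by
    intro e
    rw [hw]
    exact if_neg (lt_irrefl d)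
  obtain ⟨z, z1, z2, z3⟩ := Stz_red A (d + 1) w _ (fun e => t * l e) (fun e he =>
    ⟨mul_nonneg ht0 (l1 e he).1, mul_le_one₀ ht1 (l1 e he).1 (l1 e he).2⟩) le_rfl
  have hs : ∑ e ∈ A, z e = (A.card : ℝ) - 1 - d := by
    have h1 := z3 d (Nat.lt_succ_self d)
    simp only [hw2, mul_one] at h1
    rw [h1, ← mul_sum, l2, ht2]
  refine ⟨z, z1, ?_, hs, fun P hP => ?_⟩
  · by_contra hno
    push Not at hno
    have h1 : ∑ e ∈ A, (1 - z e) = d + 1 := by
      rw [sum_sub_distrib, hs, sum_const, nsmul_eq_mul, mul_one]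
      ring
    have h2 : ∑ e ∈ A.filter (fun e => 0 < z e ∧ z e < 1), (1 - z e) = ∑ e ∈ A, (1 - z e) := by
      refine sum_subset (filter_subset _ _) fun e he h3 => ?_
      have h4 : ¬ (0 < z e ∧ z e < 1) := fun h => h3 (mem_filter.2 ⟨he, h⟩)
      have h5 : 0 < z e := lt_of_le_of_ne (z1 e he).1 (Ne.symm (hno e he))
      have h6 : ¬ z e < 1 := fun h => h4 ⟨h5, h⟩
      have h7 := (z1 e he).2
      linarith [not_lt.1 h6]
    rcases (A.filter fun e => 0 < z e ∧ z e < 1).eq_empty_or_nonempty with h3 | h3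
    · rw [h3, sum_empty] at h2
      rw [← h2] at h1
      have : (0 : ℝ) ≤ d := Nat.cast_nonneg d
      linarith
    · have h4 : ∑ e ∈ A.filter (fun e => 0 < z e ∧ z e < 1), (1 - z e) <
          ∑ _e ∈ A.filter (fun e => 0 < z e ∧ z e < 1), (1 : ℝ) :=
        sum_lt_sum_of_nonempty h3 fun e he => by linarith [(mem_filter.1 he).2.1]
      rw [sum_const, nsmul_eq_mul, mul_one, h2, h1] at h4
      have h5 : ((A.filter fun e => 0 < z e ∧ z e < 1).card : ℝ) ≤ d + 1 := by exact_mod_cast z2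
      linarith
  · have h1 := z3 P (Nat.lt_succ_of_lt hP)
    rw [sum_congr rfl fun e _ => by rw [hw1 e P hP]] at h1
    rw [h1]
    have h2 : ∀ e ∈ A, t * l e * w e P = t * (l e * u e P) := by
      intro e _
      rw [hw1 e P hP]
      ring
    rw [sum_congr rfl h2, ← mul_sum, l3 P hP, mul_zero]

private theorem Stz_sum {E : Type} (A : Finset E) (σ : ℕ → E) (h1 : ∀ i < A.card, σ i ∈ A)
    (h2 : ∀ i < A.card, ∀ j < A.card, σ i = σ j → i = j) (f : E → ℝ) :
    ∑ i ∈ range A.card, f (σ i) = ∑ e ∈ A, f e := by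
  have hinj : Set.InjOn σ (range A.card : Finset ℕ) := by
    intro i hi j hj h
    exact h2 i (mem_range.1 hi) j (mem_range.1 hj) h
  have himg : (range A.card).image σ = A := by
    refine eq_of_subset_of_card_le ?_ ?_
    · intro e he
      obtain ⟨i, hi, rfl⟩ := mem_image.1 he
      exact h1 i (mem_range.1 hi)
    · rw [card_image_of_injOn hinj, card_range]
  conv_rhs => rw [← himg]
  rw [sum_image hinj]

theorem stzc {E : Type} (e0 : E) (d : ℕ) (u : E → ℕ → ℝ) (M : ℝ) (hM0 : 0 ≤ M) (A : Finset E)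
    (hM : ∀ e ∈ A, ∀ P < d, |u e P| ≤ M)
    (hA : A.card ≤ d ∨ ∃ l : E → ℝ, (∀ e ∈ A, 0 ≤ l e ∧ l e ≤ 1) ∧
      ∑ e ∈ A, l e = (A.card : ℝ) - d ∧ ∀ P < d, ∑ e ∈ A, l e * u e P = 0) :
    ∃ σ : ℕ → E, (∀ i < A.card, σ i ∈ A) ∧
      (∀ i < A.card, ∀ j < A.card, σ i = σ j → i = j) ∧
      ∀ j ≤ A.card, ∀ P < d, |∑ i ∈ range j, u (σ i) P| ≤ d * M := by
  obtain ⟨n, hn⟩ : ∃ n, A.card = n := ⟨_, rfl⟩
  induction n generalizing A with
  | zero =>
    refine ⟨fun _ => e0, fun i hi => ?_, fun i hi => ?_, fun j hj P _ => ?_⟩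
    · omega
    · omega
    · have : j = 0 := by omega
      subst this
      rw [range_zero, sum_empty, abs_zero]
      exact mul_nonneg (Nat.cast_nonneg d) hM0
  | succ n ih =>
    by_cases hd : A.card ≤ d
    · obtain ⟨σ, hσ⟩ : ∃ σ : ℕ → E, ∀ (i : ℕ) (h : i < A.card), σ i = A.equivFin.symm ⟨i, h⟩ :=
        ⟨fun i => if h : i < A.card then (A.equivFin.symm ⟨i, h⟩ : E) else e0,
          fun i h => dif_pos h⟩
      refine ⟨σ, fun i hi => ?_, fun i hi j hj h => ?_, fun j hj P hP => ?_⟩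
      · rw [hσ i hi]
        exact (A.equivFin.symm ⟨i, hi⟩).2
      · rw [hσ i hi, hσ j hj] at h
        have h1 := A.equivFin.symm.injective (Subtype.ext h)
        exact congrArg Fin.val h1
      · refine (abs_sum_le_sum_abs _ _).trans ?_
        have h1 : ∀ i ∈ range j, |u (σ i) P| ≤ M := by
          intro i hi
          have hi' : i < A.card := lt_of_lt_of_le (mem_range.1 hi) hj
          rw [hσ i hi']
          exact hM _ (A.equivFin.symm ⟨i, hi'⟩).2 P hP
        refine (sum_le_sum h1).trans ?_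
        rw [sum_const, card_range, nsmul_eq_mul]
        refine mul_le_mul_of_nonneg_right ?_ hM0
        exact_mod_cast hj.trans hd
    · obtain ⟨l, l1, l2, l3⟩ : ∃ l : E → ℝ, (∀ e ∈ A, 0 ≤ l e ∧ l e ≤ 1) ∧
          ∑ e ∈ A, l e = (A.card : ℝ) - d ∧ ∀ P < d, ∑ e ∈ A, l e * u e P = 0 :=
        hA.resolve_left hd
      obtain ⟨z, z1, ⟨e1, he1, z2⟩, z3, z4⟩ := Stz_z d u A (not_le.1 hd) l l1 l2 l3
      have hc : (A.erase e1).card = n := by
        rw [card_erase_of_mem he1, hn]
        rfl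
      have hcR : ((A.erase e1).card : ℝ) = (A.card : ℝ) - 1 := by
        rw [hc, hn]
        push_cast
        ring
      obtain ⟨σ, s1, s2, s3⟩ := ih (A.erase e1) (fun e he => hM e (mem_of_mem_erase he))
        (Or.inr ⟨z, fun e he => z1 e (mem_of_mem_erase he), by
          have h1 := add_sum_erase A z he1
          rw [z2, zero_add] at h1
          rw [h1, z3, hcR], fun P hP => by
          have h1 := add_sum_erase A (fun e => z e * u e P) he1
          simp only [z2, zero_mul, zero_add] at h1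
          rw [h1, z4 P hP]⟩) hc
      rw [hc] at s1 s2 s3
      obtain ⟨τ, hτ⟩ : ∃ τ : ℕ → E, τ = fun i => if i = n then e1 else σ i := ⟨_, rfl⟩
      have t1 : τ n = e1 := by
        rw [hτ]
        exact if_pos rfl
      have t2 : ∀ i, i < n → τ i = σ i := by
        intro i hi
        rw [hτ]
        exact if_neg hi.ne
      have t3 : ∀ i < A.card, τ i ∈ A := by
        intro i hi
        rcases (show i = n ∨ i < n by omega) with h | h
        · rw [h, t1]
          exact he1
        · rw [t2 i h]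
          exact mem_of_mem_erase (s1 i h)
      have t4 : ∀ i < A.card, ∀ j < A.card, τ i = τ j → i = j := by
        intro i hi j hj h
        rcases (show i = n ∨ i < n by omega) with h1 | h1
        · rcases (show j = n ∨ j < n by omega) with h2 | h2
          · rw [h1, h2]
          · exfalso
            rw [h1, t1, t2 j h2] at h
            exact ne_of_mem_erase (s1 j h2) h.symm
        · rcases (show j = n ∨ j < n by omega) with h2 | h2
          · exfalso
            rw [h2, t1, t2 i h1] at h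
            exact ne_of_mem_erase (s1 i h1) h
          · rw [t2 i h1, t2 j h2] at h
            exact s2 i h1 j h2 h
      refine ⟨τ, t3, t4, fun j hj P hP => ?_⟩
      rcases (show j = A.card ∨ j ≤ n by omega) with h1 | h1
      · rw [h1, Stz_sum A τ t3 t4 (fun e => u e P)]
        have h2 : ∑ e ∈ A, u e P = ∑ e ∈ A, (1 - l e) * u e P := by
          have h3 := l3 P hP
          have h4 : ∑ e ∈ A, (1 - l e) * u e P = ∑ e ∈ A, u e P - ∑ e ∈ A, l e * u e P := by
            rw [← sum_sub_distrib]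
            exact sum_congr rfl fun e _ => by ring
          rw [h4, h3, sub_zero]
        rw [h2]
        refine (abs_sum_le_sum_abs _ _).trans ?_
        have h3 : ∀ e ∈ A, |(1 - l e) * u e P| ≤ (1 - l e) * M := by
          intro e he
          rw [abs_mul, abs_of_nonneg (by linarith [(l1 e he).2])]
          exact mul_le_mul_of_nonneg_left (hM e he P hP) (by linarith [(l1 e he).2])
        refine (sum_le_sum h3).trans ?_
        rw [← sum_mul, sum_sub_distrib, l2, sum_const, nsmul_eq_mul, mul_one]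
        have h4 : (A.card : ℝ) - ((A.card : ℝ) - d) = d := by ring
        rw [h4]
      · rw [sum_congr rfl fun i hi => by rw [t2 i (lt_of_lt_of_le (mem_range.1 hi) h1)]]
        exact s3 j h1 P hP

theorem stz {E : Type} (e0 : E) (S : Finset E) (d : ℕ) (v : E → ℕ → ℝ) (M : ℝ) (hM0 : 0 ≤ M)
    (hM : ∀ e ∈ S, ∀ P < d, |v e P| ≤ M) :
    ∃ σ : ℕ → E, (∀ i < S.card, σ i ∈ S) ∧
      (∀ i < S.card, ∀ j < S.card, σ i = σ j → i = j) ∧
      ∀ j ≤ S.card, ∀ P < d,
        |∑ i ∈ range j, v (σ i) P - (j : ℝ) / S.card * ∑ e ∈ S, v e P| ≤ 2 * d * M := by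
  rcases S.eq_empty_or_nonempty with rfl | hS
  · refine ⟨fun _ => e0, fun i hi => ?_, fun i hi => ?_, fun j hj P _ => ?_⟩
    · exact absurd hi (by simp)
    · exact absurd hi (by simp)
    · rw [sum_empty, mul_zero, sub_zero]
      have : j = 0 := by simpa using hj
      subst this
      rw [range_zero, sum_empty, abs_zero]
      positivity
  · have hn : 0 < (S.card : ℝ) := by exact_mod_cast card_pos.2 hS
    obtain ⟨g, hg⟩ : ∃ g : ℕ → ℝ, g = fun P => (∑ e ∈ S, v e P) / S.card := ⟨_, rfl⟩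
    have hg1 : ∀ P, (S.card : ℝ) * g P = ∑ e ∈ S, v e P := by
      intro P
      rw [hg]
      field_simp
    have hg2 : ∀ P < d, |g P| ≤ M := by
      intro P hP
      rw [hg]
      show |(∑ e ∈ S, v e P) / S.card| ≤ M
      rw [abs_div, abs_of_pos hn, div_le_iff₀ hn]
      refine (abs_sum_le_sum_abs _ _).trans ((sum_le_sum fun e he => hM e he P hP).trans ?_)
      rw [sum_const, nsmul_eq_mul, mul_comm]
    have hu : ∀ P, ∑ e ∈ S, (v e P - g P) = 0 := by
      intro P
      rw [sum_sub_distrib, sum_const, nsmul_eq_mul, hg1, sub_self]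
    obtain ⟨σ, s1, s2, s3⟩ := stzc e0 d (fun e P => v e P - g P) (2 * M) (by linarith) S
      (fun e he P hP => by
        have h1 := hM e he P hP
        have h2 := hg2 P hP
        have h3 : |v e P - g P| ≤ |v e P| + |g P| := abs_sub _ _
        linarith) (by
        by_cases hd : S.card ≤ d
        · left
          exact hd
        · right
          have hd' : (d : ℝ) ≤ S.card := by exact_mod_cast (not_le.1 hd).le
          have hd0 : (0 : ℝ) ≤ d := Nat.cast_nonneg d
          refine ⟨fun _ => ((S.card : ℝ) - d) / S.card, fun e _ => ⟨?_, ?_⟩, ?_, fun P _ => ?_⟩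
          · exact div_nonneg (by linarith) hn.le
          · rw [div_le_one hn]
            linarith
          · rw [sum_const, nsmul_eq_mul]
            field_simp
          · rw [← mul_sum, hu, mul_zero])
    refine ⟨σ, s1, s2, fun j hj P hP => ?_⟩
    have h1 := s3 j hj P hP
    rw [sum_sub_distrib, sum_const, card_range, nsmul_eq_mul] at h1
    have h2 : (j : ℝ) / S.card * ∑ e ∈ S, v e P = j * g P := by
      rw [← hg1 P]
      field_simp
    rw [h2]
    linarith

end Pool.Agent.H90.KB
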