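import Mathlib
import Pool.Agent.H90.KB.Ifk
import Pool.Agent.H90.KB.Stz

/-!
WND: the colours of the exceptional vertices (120 - 180 lines). Use the STATEMENT of `stz`.

Proof.  `N := #Lo`, `Lr := N + 2 p`. If `Lo = ∅`: `c0 := 0`. Otherwise `stz` (`e0 ∈ Lo`, `d := m`, `M := 1`) for `T` and for `T' := Lo \ T` gives enumerations `σ`, `σ'` (surjective onto `T`, `T'`, by injectivity and counting); `c0 (σ j) := p + j`, `c0 (σ' j) := Lr + p + j` (for `w ∈ T` the index `j < #T` is unique). The bounds: `c0 (σ j) + p = 2 p + j < 2 p + #T ≤ Lr`,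
`c0 (σ' j) + p < Lr + 2 p + #T' ≤ 2 Lr`. `Ms Lo p c0 ℓ`: `σ j` is in it iff `p + j < ℓ + p` and `ℓ ≤ 2 p + j`, i.e. `ℓ ≤ j + 2 p ∧ j < ℓ`: an interval of indices, only possible for `ℓ < Lr`; `σ' j` is in it iff `Lr + j < ℓ` and `ℓ ≤ Lr + 2 p + j`, only possible for `ℓ > Lr`. So for each `ℓ` the set `Ms` is `{σ j : a ≤ j < b}` for some `a ≤ b ≤ #T`, or
`{σ' j : a ≤ j < b}`, `a ≤ b ≤ #T'`. First case: by `stz` for `b` and `a`: `|∑_{Ms} q - (b - a) / #T * ∑_T q| ≤ 4 m`, and `(b - a) / #T * |∑_T q - (#T / N) ∑_Lo q| ≤ |∑_T q - (∑_Lo q) / 2| + |1/2 - #T / N| ∑_Lo q ≤ 2 d0` (`(b - a) ≤ #T`, `0 ≤ ∑_Lo q ≤ N`; if `#T = 0` then `Ms = ∅` and the claim is clear).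
`#Ms = b - a`. The same for `T'`: `∑_{T'} q - (∑_Lo q) / 2 = -(∑_T q - (∑_Lo q) / 2)`, `#T' - N / 2 = -(#T - N / 2)`.
-/

set_option autoImplicit false

namespace Pool.Agent.H90.KB

open Finset Classical

private theorem Wnd_surj {E : Type} (A : Finset E) (σ : ℕ → E) (h1 : ∀ i < A.card, σ i ∈ A)
    (h2 : ∀ i < A.card, ∀ j < A.card, σ i = σ j → i = j) :
    ∀ e ∈ A, ∃ i, i < A.card ∧ σ i = e := by
  have hinj : Set.InjOn σ (range A.card : Finset ℕ) := by
    intro i hi j hj h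
    exact h2 i (mem_range.1 hi) j (mem_range.1 hj) h
  have himg : (range A.card).image σ = A := by
    refine eq_of_subset_of_card_le ?_ ?_
    · intro e he
      obtain ⟨i, hi, rfl⟩ := mem_image.1 he
      exact h1 i (mem_range.1 hi)
    · rw [card_image_of_injOn hinj, card_range]
  intro e he
  rw [← himg] at he
  obtain ⟨i, hi, hie⟩ := mem_image.1 he
  exact ⟨i, mem_range.1 hi, hie⟩

private theorem Wnd_idx {E : Type} (A : Finset E) (σ : ℕ → E) (h1 : ∀ i < A.card, σ i ∈ A)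
    (h2 : ∀ i < A.card, ∀ j < A.card, σ i = σ j → i = j) :
    ∃ idx : E → ℕ, ∀ e ∈ A, idx e < A.card ∧ σ (idx e) = e := by
  have h3 : ∀ e, ∃ i, e ∈ A → i < A.card ∧ σ i = e := by
    intro e
    by_cases he : e ∈ A
    · obtain ⟨i, hi⟩ := Wnd_surj A σ h1 h2 e he
      exact ⟨i, fun _ => hi⟩
    · exact ⟨0, fun h => absurd h he⟩
  choose idx hidx using h3
  exact ⟨idx, hidx⟩

private theorem Wnd_img {V : Type} (A M : Finset V) (σ : ℕ → V) (s1 : ∀ i < A.card, σ i ∈ A)
    (s2 : ∀ i < A.card, ∀ j < A.card, σ i = σ j → i = j)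
    (idx : V → ℕ) (hidx : ∀ w ∈ A, idx w < A.card ∧ σ (idx w) = w) (a b : ℕ) (hb : b ≤ A.card)
    (hM : ∀ w, w ∈ M ↔ w ∈ A ∧ a ≤ idx w ∧ idx w < b) :
    M.card = b - a ∧ ∀ f : V → ℝ, ∑ w ∈ M, f w = ∑ i ∈ Ico a b, f (σ i) := by
  have hinj : Set.InjOn σ (Ico a b : Finset ℕ) := by
    intro i hi j hj h
    have hi' := mem_Ico.1 (mem_coe.1 hi)
    have hj' := mem_Ico.1 (mem_coe.1 hj)
    exact s2 i (by omega) j (by omega) h
  have himg : M = (Ico a b).image σ := by
    ext w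
    rw [hM w, mem_image]
    constructor
    · rintro ⟨hw, h1, h2⟩
      exact ⟨idx w, mem_Ico.2 ⟨h1, h2⟩, (hidx w hw).2⟩
    · rintro ⟨i, hi, rfl⟩
      have hi' := mem_Ico.1 hi
      have hi2 : i < A.card := by omega
      have hA := s1 i hi2
      have h3 := s2 _ (hidx _ hA).1 i hi2 (hidx _ hA).2
      rw [h3]
      exact ⟨hA, hi'.1, hi'.2⟩
  constructor
  · rw [himg, card_image_of_injOn hinj, Nat.card_Ico]
  · intro f
    rw [himg, sum_image hinj]

private theorem Wnd_core {V : Type} (A : Finset V) (σ : ℕ → V) (m : ℕ) (f : V → ℝ)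
    (N SL d0 : ℝ) (hN : 0 < N) (hS0 : 0 ≤ SL) (hSN : SL ≤ N)
    (h1 : |(A.card : ℝ) - N / 2| ≤ d0) (h2 : |∑ w ∈ A, f w - SL / 2| ≤ d0)
    (h3 : ∀ j ≤ A.card, |∑ i ∈ range j, f (σ i) - (j : ℝ) / A.card * ∑ e ∈ A, f e| ≤ 2 * m)
    (a b : ℕ) (hab : a ≤ b) (hb : b ≤ A.card) :
    |∑ i ∈ Ico a b, f (σ i) - ((b - a : ℕ) : ℝ) / N * SL| ≤ 4 * m + 2 * d0 := by
  have hd0 : 0 ≤ d0 := (abs_nonneg _).trans h1
  have hm0 : (0 : ℝ) ≤ m := Nat.cast_nonneg m
  rcases Nat.eq_zero_or_pos A.card with h0 | h0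
  · have hb0 : b = 0 := by omega
    have ha0 : a = 0 := by omega
    subst hb0
    subst ha0
    rw [Ico_self, sum_empty, Nat.sub_self, Nat.cast_zero, zero_div, zero_mul, sub_zero, abs_zero]
    linarith
  · have hA : (0 : ℝ) < A.card := by exact_mod_cast h0
    have e1 : ∑ i ∈ Ico a b, f (σ i) = ∑ i ∈ range b, f (σ i) - ∑ i ∈ range a, f (σ i) :=
      sum_Ico_eq_sub _ hab
    have e2 : ((b - a : ℕ) : ℝ) = (b : ℝ) - a := Nat.cast_sub hab
    have hab' : (a : ℝ) ≤ b := by exact_mod_cast hab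
    have hb' : (b : ℝ) ≤ A.card := by exact_mod_cast hb
    have ha0 : (0 : ℝ) ≤ a := Nat.cast_nonneg a
    have hB := h3 b hb
    have hC := h3 a (hab.trans hb)
    obtain ⟨SA, hSA⟩ : ∃ SA : ℝ, SA = ∑ e ∈ A, f e := ⟨_, rfl⟩
    rw [← hSA] at h2 hB hC
    obtain ⟨r, hr⟩ : ∃ r : ℝ, r = ((b : ℝ) - a) / A.card := ⟨_, rfl⟩
    have hr0 : 0 ≤ r := by
      rw [hr]
      exact div_nonneg (by linarith) hA.le
    have hr1 : r ≤ 1 := by
      rw [hr, div_le_one hA]
      linarith
    have e3 : (b : ℝ) / A.card * SA - (a : ℝ) / A.card * SA = r * SA := by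
      rw [hr]
      ring
    have e4 : ((b : ℝ) - a) / N * SL = r * ((A.card : ℝ) / N * SL) := by
      rw [hr]
      field_simp
    have e5 : |SA - (A.card : ℝ) / N * SL| ≤ 2 * d0 := by
      have e : SA - (A.card : ℝ) / N * SL = (SA - SL / 2) - ((A.card : ℝ) - N / 2) * (SL / N) := by
        field_simp
        ring
      have k0 : 0 ≤ SL / N := div_nonneg hS0 hN.le
      have k1 : SL / N ≤ 1 := by
        rw [div_le_one hN]
        exact hSN
      have k2 : |((A.card : ℝ) - N / 2) * (SL / N)| ≤ d0 := by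
        rw [abs_mul, abs_of_nonneg k0]
        calc |(A.card : ℝ) - N / 2| * (SL / N) ≤ |(A.card : ℝ) - N / 2| * 1 :=
              mul_le_mul_of_nonneg_left k1 (abs_nonneg _)
          _ ≤ d0 := by rw [mul_one]; exact h1
      rw [e]
      have k3 := abs_sub (SA - SL / 2) (((A.card : ℝ) - N / 2) * (SL / N))
      linarith
    have e6 : |r * SA - r * ((A.card : ℝ) / N * SL)| ≤ 2 * d0 := by
      rw [← mul_sub, abs_mul, abs_of_nonneg hr0]
      calc r * |SA - (A.card : ℝ) / N * SL| ≤ 1 * |SA - (A.card : ℝ) / N * SL| :=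
            mul_le_mul_of_nonneg_right hr1 (abs_nonneg _)
        _ ≤ 2 * d0 := by rw [one_mul]; exact e5
    rw [e1, e2, e4]
    have f1 := abs_le.1 hB
    have f2 := abs_le.1 hC
    have f3 := abs_le.1 e6
    rw [abs_le]
    constructor <;> linarith [f1.1, f1.2, f2.1, f2.2, f3.1, f3.2]

theorem wnd {V : Type} (Lo T : Finset V) (hT : T ⊆ Lo) (m p : ℕ) (q : V → ℕ → ℝ)
    (hq : ∀ w ∈ Lo, ∀ P < m, 0 ≤ q w P ∧ q w P ≤ 1) (d0 : ℝ)
    (h1 : |(T.card : ℝ) - Lo.card / 2| ≤ d0)
    (h2 : ∀ P < m, |∑ w ∈ T, q w P - (∑ w ∈ Lo, q w P) / 2| ≤ d0) :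
    ∃ c0 : V → ℕ, (∀ w ∈ T, p ≤ c0 w ∧ c0 w + p < Lo.card + 2 * p) ∧
      (∀ w ∈ Lo \ T, Lo.card + 2 * p + p ≤ c0 w ∧ c0 w + p < 2 * (Lo.card + 2 * p)) ∧
      (∀ w ∈ Lo, ∀ w' ∈ Lo, c0 w = c0 w' → w = w') ∧
      ∀ ℓ, ∀ P < m, |∑ w ∈ Ms Lo p c0 ℓ, q w P -
        ((Ms Lo p c0 ℓ).card : ℝ) / Lo.card * ∑ w ∈ Lo, q w P| ≤ 4 * m + 2 * d0 := by
  have hd0 : 0 ≤ d0 := (abs_nonneg _).trans h1
  have hm0 : (0 : ℝ) ≤ m := Nat.cast_nonneg m
  rcases Lo.eq_empty_or_nonempty with hLo | hLo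
  · subst hLo
    have hT0 : T = ∅ := subset_empty.1 hT
    subst hT0
    refine ⟨fun _ => 0, fun w hw => absurd hw (notMem_empty w), fun w hw => ?_,
      fun w hw => absurd hw (notMem_empty w), fun ℓ P _ => ?_⟩
    · rw [sdiff_self] at hw
      exact absurd hw (notMem_empty w)
    · have e1 : Ms (∅ : Finset V) p (fun _ => 0) ℓ = ∅ := by
        unfold Ms
        exact filter_empty _
      rw [e1, sum_empty, mul_zero, sub_zero, abs_zero]
      linarith
  · obtain ⟨e0, he0⟩ := hLo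
    have hNpos : (0 : ℝ) < Lo.card := by exact_mod_cast card_pos.2 ⟨e0, he0⟩
    have hcard : T.card + (Lo \ T).card = Lo.card := by
      rw [card_sdiff_of_subset hT]
      have := card_le_card hT
      omega
    obtain ⟨σ, s1, s2, s3⟩ := stz e0 T m q 1 zero_le_one (fun e he P hP => by
      rw [abs_le]
      have := hq e (hT he) P hP
      constructor <;> linarith [this.1, this.2])
    obtain ⟨σ', s1', s2', s3'⟩ := stz e0 (Lo \ T) m q 1 zero_le_one (fun e he P hP => by
      rw [abs_le]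
      have := hq e (mem_sdiff.1 he).1 P hP
      constructor <;> linarith [this.1, this.2])
    obtain ⟨idx, hidx⟩ := Wnd_idx T σ s1 s2
    obtain ⟨idx', hidx'⟩ := Wnd_idx (Lo \ T) σ' s1' s2'
    obtain ⟨c0, hc0⟩ : ∃ c0 : V → ℕ, c0 = fun w => if w ∈ T then p + idx w else
      Lo.card + 2 * p + p + idx' w := ⟨_, rfl⟩
    have c1 : ∀ w ∈ T, c0 w = p + idx w := by
      intro w hw
      rw [hc0]
      exact if_pos hw
    have c2 : ∀ w ∈ Lo \ T, c0 w = Lo.card + 2 * p + p + idx' w := by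
      intro w hw
      rw [hc0]
      exact if_neg (mem_sdiff.1 hw).2
    have hsplit : ∀ w ∈ Lo, w ∈ T ∨ w ∈ Lo \ T := by
      intro w hw
      by_cases h : w ∈ T
      · exact Or.inl h
      · exact Or.inr (mem_sdiff.2 ⟨hw, h⟩)
    refine ⟨c0, fun w hw => ?_, fun w hw => ?_, fun w hw w' hw' h => ?_, fun ℓ P hP => ?_⟩
    · have := (hidx w hw).1
      rw [c1 w hw]
      omega
    · have := (hidx' w hw).1
      rw [c2 w hw]
      omega
    · rcases hsplit w hw with g | g <;> rcases hsplit w' hw' with g' | g'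
      · rw [c1 w g, c1 w' g'] at h
        have h5 : idx w = idx w' := by omega
        rw [← (hidx w g).2, ← (hidx w' g').2, h5]
      · exfalso
        rw [c1 w g, c2 w' g'] at h
        have := (hidx w g).1
        omega
      · exfalso
        rw [c2 w g, c1 w' g'] at h
        have := (hidx w' g').1
        omega
      · rw [c2 w g, c2 w' g'] at h
        have h5 : idx' w = idx' w' := by omega
        rw [← (hidx' w g).2, ← (hidx' w' g').2, h5]
    · have hS0 : 0 ≤ ∑ w ∈ Lo, q w P := sum_nonneg fun w hw => (hq w hw P hP).1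
      have hSN : ∑ w ∈ Lo, q w P ≤ Lo.card := by
        refine (sum_le_sum fun w hw => (hq w hw P hP).2).trans ?_
        rw [sum_const, nsmul_eq_mul, mul_one]
      by_cases hℓ : ℓ ≤ Lo.card + 2 * p
      · obtain ⟨g1, g2⟩ := Wnd_img T (Ms Lo p c0 ℓ) σ s1 s2 idx hidx
          (min (ℓ - 2 * p) (min ℓ T.card)) (min ℓ T.card) (by omega) (by
            intro w
            unfold Ms
            rw [mem_filter]
            constructor
            · rintro ⟨k1, k2, k3⟩
              rcases hsplit w k1 with g | g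
              · rw [c1 w g] at k2 k3
                have := (hidx w g).1
                refine ⟨g, ?_, ?_⟩ <;> omega
              · rw [c2 w g] at k2
                omega
            · rintro ⟨k1, k2, k3⟩
              have := (hidx w k1).1
              rw [c1 w k1]
              refine ⟨hT k1, ?_, ?_⟩ <;> omega)
        rw [g1, g2]
        exact Wnd_core T σ m (fun w => q w P) Lo.card _ d0 hNpos hS0 hSN h1 (h2 P hP)
          (fun j hj => by
            have := s3 j hj P hP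
            rw [mul_one] at this
            exact this) _ _ (by omega) (by omega)
      · obtain ⟨g1, g2⟩ := Wnd_img (Lo \ T) (Ms Lo p c0 ℓ) σ' s1' s2' idx' hidx'
          (min (ℓ - (Lo.card + 2 * p) - 2 * p) (min (ℓ - (Lo.card + 2 * p)) (Lo \ T).card))
          (min (ℓ - (Lo.card + 2 * p)) (Lo \ T).card) (by omega) (by
            intro w
            unfold Ms
            rw [mem_filter]
            constructor
            · rintro ⟨k1, k2, k3⟩
              rcases hsplit w k1 with g | g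
              · rw [c1 w g] at k3
                have := (hidx w g).1
                omega
              · rw [c2 w g] at k2 k3
                have := (hidx' w g).1
                refine ⟨g, ?_, ?_⟩ <;> omega
            · rintro ⟨k1, k2, k3⟩
              have := (hidx' w k1).1
              rw [c2 w k1]
              refine ⟨(mem_sdiff.1 k1).1, ?_, ?_⟩ <;> omega)
        have hsum : ∑ w ∈ Lo \ T, q w P + ∑ w ∈ T, q w P = ∑ w ∈ Lo, q w P := sum_sdiff hT
        have hcR : (T.card : ℝ) + ((Lo \ T).card : ℝ) = Lo.card := by exact_mod_cast hcard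
        rw [g1, g2]
        refine Wnd_core (Lo \ T) σ' m (fun w => q w P) Lo.card _ d0 hNpos hS0 hSN ?_ ?_
          (fun j hj => by
            have := s3' j hj P hP
            rw [mul_one] at this
            exact this) _ _ (by omega) (by omega)
        · have e1 : ((Lo \ T).card : ℝ) - (Lo.card : ℝ) / 2 = -((T.card : ℝ) - Lo.card / 2) := by
            linarith
          rw [e1, abs_neg]
          exact h1
        · have e1 : ∑ w ∈ Lo \ T, q w P - (∑ w ∈ Lo, q w P) / 2 =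
              -(∑ w ∈ T, q w P - (∑ w ∈ Lo, q w P) / 2) := by
            linarith
          rw [e1, abs_neg]
          exact h2 P hP

end Pool.Agent.H90.KB
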