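import Mathlib
import Pool.Agent.H90.KB.Pin
import Pool.Agent.H90.KB.Wnd
import Pool.Agent.H90.KB.Lol
import Pool.Agent.H90.KB.Hlv

/-!
KB: the region of the windows of the exceptional vertices (complete; it uses the rows of this directory).
-/

set_option autoImplicit false

namespace Pool.Agent.H90.KB

open Finset Classical
open Pool.Agent.H71.DN Pool.Agent.H71.HL Pool.Agent.H71.DC Pool.Agent.H2.FC

theorem kb {V : Type} [Fintype V] (F : SimpleGraph V) (nd : V → ℕ) (m Δ p t s κ B0 B : ℕ)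
    (C : ℝ) (Z : Finset V) (Qs : ℕ → Finset V) (hnd : ∀ v, nd v ≤ m) (ht : 0 < t)
    (hdeg : ∀ w ∈ pt nd m, dg F w = Δ) (h24 : 24 * t ≤ Δ) (hlo : 3 * (pt nd m).card ≤ t)
    (hxi : ∀ v, nd v < m → 2 * dg F v ≤ t) (hκ : κ = 2 * ((pt nd m).card + 2 * p))
    (h100 : 100 * κ ≤ t) (hB : 2 * B ≤ Δ)
    (hb1 : (B0 : ℝ) + 150 * (m + s : ℕ) * (pt nd m).card ≤ B)
    (hb2 : (B0 : ℝ) + 10000 * κ * ((m + s : ℕ) : ℝ) ^ 2 * Fintype.card V / t ≤ B)
    (hQs : ∀ j < s, ∀ v ∈ Qs j, nd v < m)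
    (g1 : ∑ w ∈ pt nd m, ∑ P ∈ range m,
      (dgi F (pt nd P) w - 7 * dgi F (pt nd P ∩ Z) w) ≤ B0)
    (g2 : ∀ P < m, ∀ P' < m, (ee F (pt nd P) (pt nd P') : ℝ) ≤
      15 * ee F (pt nd P ∩ Z) (pt nd P' ∩ Z) + B0)
    (hC : 22 * (m : ℝ) ^ 2 + 36 * m + 16 +
      (2 * m * (pt nd m).card + 2 * B + m * (2 + B)) / t ≤ C) :
    ∃ (mm : ℕ → V → V) (c0 : V → ℕ), KbOut F nd m Δ p Z C κ mm c0 ∧
      Us F (pt nd m) s Qs κ mm (150 * (m + s : ℕ) * (pt nd m).card)
        (10000 * κ * ((m + s : ℕ) : ℝ) ^ 2 * Fintype.card V / t) := by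
  -- the exceptional set and the proportions
  obtain ⟨Lo, hLo⟩ : ∃ Lo, Lo = pt nd m := ⟨_, rfl⟩
  obtain ⟨q, hq⟩ : ∃ q, q = qq F nd m Δ := ⟨_, rfl⟩
  have hmem : ∀ v, v ∈ Lo ↔ nd v = m := by
    intro v
    rw [hLo]
    simp [pt]
  have hLot : 3 * Lo.card ≤ t := by rw [hLo]; exact hlo
  have hDv : ∀ v, (0 : ℝ) < (Δ : ℝ) - dgi F (pt nd m) v := by
    intro v
    have h1 : dgi F (pt nd m) v ≤ (pt nd m).card := Finset.card_filter_le _ _
    have h2 : dgi F (pt nd m) v < Δ := by omega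
    have h3 : (dgi F (pt nd m) v : ℝ) < Δ := by exact_mod_cast h2
    linarith
  have hq0 : ∀ v P, 0 ≤ q v P := by
    intro v P
    rw [hq]
    exact div_nonneg (Nat.cast_nonneg _) (hDv v).le
  have hqm : ∀ v P, q v P * ((Δ : ℝ) - dgi F (pt nd m) v) = dgi F (pt nd P) v := by
    intro v P
    rw [hq]
    unfold qq
    exact div_mul_cancel₀ _ (hDv v).ne'
  have hqs : ∀ v ∈ pt nd m, ∑ P ∈ range m, q v P = 1 := by
    intro v hv
    have h1 := SelN_tot F nd m hnd v
    rw [hdeg v hv] at h1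
    have h2 : (∑ P ∈ range m, (dgi F (pt nd P) v : ℝ)) + dgi F (pt nd m) v = Δ := by
      exact_mod_cast h1
    have h3 : (∑ P ∈ range m, q v P) * ((Δ : ℝ) - dgi F (pt nd m) v) =
        ∑ P ∈ range m, (dgi F (pt nd P) v : ℝ) := by
      rw [Finset.sum_mul]
      exact Finset.sum_congr rfl fun P _ => hqm v P
    have h4 : (∑ P ∈ range m, q v P) * ((Δ : ℝ) - dgi F (pt nd m) v) =
        1 * ((Δ : ℝ) - dgi F (pt nd m) v) := by rw [h3]; linarith
    exact mul_right_cancel₀ (hDv v).ne' h4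
  have hq01 : ∀ w ∈ pt nd m, ∀ P < m, 0 ≤ q w P ∧ q w P ≤ 1 := by
    intro w hw P hP
    refine ⟨hq0 w P, ?_⟩
    rw [← hqs w hw]
    exact Finset.single_le_sum (f := fun P => q w P) (fun i _ => hq0 w i) (mem_range.2 hP)
  -- the two halves and the windows
  obtain ⟨T, hT, hT1, hT2, hT3⟩ := hlv F (pt nd m) m q hq01
  obtain ⟨c0, w1, w2, w3, w4⟩ := wnd (pt nd m) T hT m p q hq01 (3 * m + 1) hT1 hT2
  rw [← hLo] at hT hT1 hT2 hT3 w1 w2 w3 w4 hq01 hqs hdeg
  obtain ⟨Lr, hLr⟩ : ∃ Lr, Lr = Lo.card + 2 * p := ⟨_, rfl⟩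
  rw [← hLr] at w1 w2
  have hκ2 : κ = 2 * Lr := by rw [hκ, hLr, hLo]
  obtain ⟨ρ, hρd⟩ : ∃ ρ : ℕ → ℝ, ∀ l, ρ l = 1 - ((Ms Lo p c0 l).card : ℝ) / Lo.card :=
    ⟨_, fun _ => rfl⟩
  have hρ : ∀ l, 0 ≤ ρ l ∧ ρ l ≤ 1 := by
    intro l
    have h1 : ((Ms Lo p c0 l).card : ℝ) ≤ Lo.card := by
      exact_mod_cast Finset.card_filter_le _ _
    have h2 : ((Ms Lo p c0 l).card : ℝ) / Lo.card ≤ 1 := div_le_one_of_le₀ h1 (Nat.cast_nonneg _)
    have h3 : 0 ≤ ((Ms Lo p c0 l).card : ℝ) / Lo.card := by positivity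
    rw [hρd]
    constructor <;> linarith
  have h8 : 8 * Lr ≤ Δ := by omega
  have hL1 : Lo.card ≤ Lr := by omega
  have hC0 : (0 : ℝ) ≤ 2 * (3 * m + 2) ^ 2 := by positivity
  have hqs' : ∀ v ∈ Lo, ∑ P ∈ range m, q v P ≤ 1 := fun v hv => (hqs v hv).le
  obtain ⟨nA, a1, a2, a3, a4⟩ := lol F Lo (Lo \ T) sdiff_subset m Δ Lr q hq0 hqs'
    (2 * (3 * m + 2) ^ 2) hC0 (fun P hP => (hT3 P hP).2) hL1 h8 ρ (fun l _ => hρ l)
  obtain ⟨nB, b1, b2, b3, b4⟩ := lol F Lo T hT m Δ Lr q hq0 hqs'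
    (2 * (3 * m + 2) ^ 2) hC0 (fun P hP => (hT3 P hP).1) hL1 h8 (fun l => ρ (l + Lr))
    (fun l _ => hρ (l + Lr))
  obtain ⟨nn, hnn⟩ : ∃ nn : ℕ → V → V, ∀ l, nn l = if l < Lr then nA l else nB (l - Lr) :=
    ⟨_, fun _ => rfl⟩
  have hnA : ∀ l, l < Lr → nn l = nA l := fun l hl => by rw [hnn, if_pos hl]
  have hnB : ∀ l, ¬ l < Lr → nn l = nB (l - Lr) := fun l hl => by rw [hnn, if_neg hl]
  have hni : ∀ l < κ, Inv (nn l) := by
    intro l hl
    by_cases h : l < Lr
    · rw [hnA l h]; exact a1 l h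
    · rw [hnB l h]; exact b1 (l - Lr) (by omega)
  have hna : ∀ l < κ, ∀ v, nn l v ≠ v → F.Adj v (nn l v) ∧ v ∈ Lo ∧ v ∉ Ms Lo p c0 l := by
    intro l hl v hv
    by_cases h : l < Lr
    · rw [hnA l h] at hv ⊢
      have h1 := a2 l h v hv
      have h2 := mem_sdiff.1 h1.2
      refine ⟨h1.1, h2.1, fun h3 => ?_⟩
      have h4 := (mem_filter.1 h3).2
      have h5 := w2 v h1.2
      omega
    · rw [hnB l h] at hv ⊢
      have h1 := b2 (l - Lr) (by omega) v hv
      refine ⟨h1.1, hT h1.2, fun h3 => ?_⟩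
      have h4 := (mem_filter.1 h3).2
      have h5 := w1 v h1.2
      omega
  have hnd2 : ∀ i < κ, ∀ j < κ, i ≠ j → ∀ v, nn i v ≠ v → nn i v ≠ nn j v := by
    intro i hi j hj hij v hv he
    by_cases h : i < Lr <;> by_cases h' : j < Lr
    · rw [hnA i h] at hv he
      rw [hnA j h'] at he
      exact a3 i h j h' hij v hv he
    · rw [hnA i h] at hv he
      rw [hnB j h'] at he
      have h1 := a2 i h v hv
      have h2 : nB (j - Lr) v ≠ v := by rw [← he]; exact hv
      have h3 := b2 (j - Lr) (by omega) v h2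
      exact (mem_sdiff.1 h1.2).2 h3.2
    · rw [hnB i h] at hv he
      rw [hnA j h'] at he
      have h1 := b2 (i - Lr) (by omega) v hv
      have h2 : nA j v ≠ v := by rw [← he]; exact hv
      have h3 := a2 j h' v h2
      exact (mem_sdiff.1 h3.2).2 h1.2
    · rw [hnB i h] at hv he
      rw [hnB j h'] at he
      exact b3 (i - Lr) (by omega) (j - Lr) (by omega) (by omega) v hv he
  have hnc : ∀ l < κ, ∀ P < m, |∑ w ∈ univ.filter (fun w => nn l w ≠ w), q w P -
      ρ l * (∑ w ∈ Lo, (dgi F Lo w : ℝ) * q w P) / Δ| ≤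
        2 * (3 * m + 2) ^ 2 + 4 + 4 * (m : ℝ) ^ 2 + 2 * m := by
    intro l hl P hP
    by_cases h : l < Lr
    · rw [hnA l h]; exact a4 l h P hP
    · rw [hnB l h]
      have h1 := b4 (l - Lr) (by omega) P hP
      have h2 : l - Lr + Lr = l := by omega
      rw [h2] at h1
      exact h1
  -- the peeling
  obtain ⟨W, hWd⟩ : ∃ W : ℕ → Finset V, ∀ l, W l =
      (Lo \ Ms Lo p c0 l) \ univ.filter (fun w => nn l w ≠ w) := ⟨_, fun _ => rfl⟩
  have hW : ∀ l, W l ⊆ pt nd m := by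
    intro l
    rw [hWd, ← hLo]
    exact sdiff_subset.trans sdiff_subset
  obtain ⟨Qt, hQt⟩ : ∃ Qt : ℕ → Finset V, ∀ j, Qt j = if j < m then pt nd j ∩ Z else Qs (j - m) :=
    ⟨_, fun _ => rfl⟩
  obtain ⟨mu, hPl, hUs⟩ := peel F nd m Δ t (m + s) κ B0 B Z Qt W ρ hnd ht
    (by rw [← hLo]; exact hdeg) h24 hlo hxi h100 hB hb1 hb2 (Nat.le_add_right m s)
    (fun P hP => by rw [hQt, if_pos hP]) g1 g2 hW hρ
  have hcov : ∀ l < κ, ∀ w ∈ Lo, (mu l w ≠ w ↔ w ∈ W l) := by
    intro l hl w hw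
    rw [hLo] at hw
    exact hPl.cov l hl w hw
  have hF1 : ∀ l < κ, ∀ v, nn l v ≠ v → mu l v = v := by
    intro l hl v hv
    by_contra h
    have h1 := (hcov l hl v (hna l hl v hv).2.1).1 h
    rw [hWd, mem_sdiff] at h1
    exact h1.2 (mem_filter.2 ⟨mem_univ _, hv⟩)
  have hF2 : ∀ l < κ, ∀ v, mu l v ≠ v → nn l (mu l v) = mu l v := by
    intro l hl v hv
    by_contra h
    have h1 := hF1 l hl (mu l v) h
    rw [hPl.inv l hl v] at h1
    exact hv h1.symm
  obtain ⟨mm, hmm⟩ : ∃ mm : ℕ → V → V, ∀ l v, mm l v = if nn l v ≠ v then nn l v else mu l v :=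
    ⟨_, fun _ _ => rfl⟩
  have hmn : ∀ l v, nn l v ≠ v → mm l v = nn l v := fun l v h => by rw [hmm, if_pos h]
  have hmu : ∀ l v, nn l v = v → mm l v = mu l v := fun l v h => by
    rw [hmm, if_neg (not_not.2 h)]
  have hpc : ∀ l < κ, ∀ v, nd v < m → mm l v = mu l v := by
    intro l hl v hv
    refine hmu l v ?_
    by_contra h
    have h1 := (hmem v).1 (hna l hl v h).2.1
    omega
  have hne : ∀ l < κ, ∀ w ∈ Lo, (mm l w ≠ w ↔ w ∉ Ms Lo p c0 l) := by
    intro l hl w hw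
    by_cases h : nn l w = w
    · rw [hmu l w h, hcov l hl w hw, hWd]
      simp only [mem_sdiff, mem_filter, mem_univ, true_and, h, ne_eq, not_true_eq_false,
        not_false_eq_true, and_true]
      exact ⟨fun h1 => h1.2, fun h1 => ⟨hw, h1⟩⟩
    · rw [hmn l w h]
      exact ⟨fun _ => (hna l hl w h).2.2, fun _ => h⟩
  have hnnLo : ∀ l < κ, ∀ v, nn l v ≠ v → nn l v ∈ Lo := by
    intro l hl v hv
    refine (hna l hl (nn l v) ?_).2.1
    rw [hni l hl v]
    exact hv.symm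
  refine ⟨mm, c0, ⟨?_, ?_, ?_, ?_, ?_, ?_, ?_, ?_⟩, ⟨?_, ?_⟩⟩
  · -- inv
    intro l hl v
    by_cases h : nn l v = v
    · rw [hmu l v h]
      by_cases h2 : mu l v = v
      · rw [h2, hmu l v h, h2]
      · rw [hmu l _ (hF2 l hl v h2), hPl.inv l hl v]
    · have h3 : nn l (nn l v) ≠ nn l v := by
        rw [hni l hl v]
        exact fun h4 => h h4.symm
      rw [hmn l v h, hmn l _ h3, hni l hl v]
  · -- adj
    intro l hl v hv
    by_cases h : nn l v = v
    · rw [hmu l v h] at hv ⊢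
      exact (hPl.adj l hl v hv).1
    · rw [hmn l v h]
      exact (hna l hl v h).1
  · -- dis
    intro i hi j hj hij v hv he
    by_cases h : nn i v = v
    · rw [hmu i v h] at hv he
      have h1 := (hPl.adj i hi v hv).2
      by_cases h' : nn j v = v
      · rw [hmu j v h'] at he
        exact hPl.dis i hi j hj hij v hv he
      · rw [hmn j v h'] at he
        have h2 := (hmem _).1 (hnnLo j hj v h')
        have h3 := (hmem _).1 (hna j hj v h').2.1
        rw [← he] at h2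
        omega
    · rw [hmn i v h] at hv he
      have h2 := (hmem _).1 (hnnLo i hi v h)
      have h3 := (hmem _).1 (hna i hi v h).2.1
      by_cases h' : nn j v = v
      · rw [hmu j v h'] at he
        have h4 : mu j v ≠ v := by rw [← he]; exact hv
        have h1 := (hPl.adj j hj v h4).2
        rw [← he] at h1
        omega
      · rw [hmn j v h'] at he
        exact hnd2 i hi j hj hij v hv he
  · -- al
    intro l hl v hv hvm
    rw [hpc l hl v hvm] at hv
    exact hPl.al l hl v hv hvm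
  · -- c1
    intro w hw
    rw [← hLo] at hw
    by_cases h : w ∈ T
    · have h1 := w1 w h
      omega
    · have h1 := w2 w (mem_sdiff.2 ⟨hw, h⟩)
      omega
  · -- c2
    intro w hw w' hw' he
    rw [← hLo] at hw hw'
    exact w3 w hw w' hw' he
  · -- c3
    intro w hw l hl
    rw [← hLo] at hw
    have h1 := hne l hl w hw
    have h2 : w ∈ Ms Lo p c0 l ↔ c0 w < l + p ∧ l ≤ c0 w + p := by
      unfold Ms
      rw [mem_filter]
      exact ⟨fun h => h.2, fun h => ⟨hw, h⟩⟩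
    rw [← h2]
    constructor
    · intro h3
      by_contra h4
      exact (h1.2 h4) h3
    · intro h3
      by_contra h4
      exact (h1.1 h4) h3
  · -- ct
    intro l hl
    refine ⟨ρ l, (hρ l).1, (hρ l).2, fun P hP => ?_⟩
    have e1 : ((pt nd P).filter fun v => mm l v ≠ v) = (pt nd P).filter fun v => mu l v ≠ v := by
      refine Finset.filter_congr fun v hv => ?_
      have h1 : nd v = P := (mem_filter.1 hv).2
      rw [hpc l hl v (by omega)]
    have h1 := hPl.ct l hl P hP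
    rw [← hq] at h1
    have h2 := w4 l P hP
    have h3 := hnc l hl P hP
    -- the sum over `W`
    have e2 : ∑ w ∈ W l, q w P = ∑ w ∈ Lo, q w P - ∑ w ∈ Ms Lo p c0 l, q w P -
        ∑ w ∈ univ.filter (fun w => nn l w ≠ w), q w P := by
      have hs1 : univ.filter (fun w => nn l w ≠ w) ⊆ Lo \ Ms Lo p c0 l := by
        intro w hw
        have h4 := hna l hl w (mem_filter.1 hw).2
        exact mem_sdiff.2 ⟨h4.2.1, h4.2.2⟩
      have hs2 : Ms Lo p c0 l ⊆ Lo := filter_subset _ _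
      rw [hWd, Finset.sum_sdiff_eq_sub hs1, Finset.sum_sdiff_eq_sub hs2]
    -- the degrees in the piece
    have e3 : ∑ v ∈ pt nd P, (dg F v : ℝ) = yy F nd m P + ∑ w ∈ Lo, (dgi F (pt nd P) w : ℝ) := by
      have h4 : ∀ v ∈ pt nd P, (dg F v : ℝ) =
          (dgi F (univ.filter fun u => nd u < m) v : ℝ) + dgi F Lo v := by
        intro v _
        rw [← Nat.cast_add]
        congr 1
        unfold dg dgi
        rw [← card_union_of_disjoint]
        · congr 1
          ext u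
          simp only [mem_filter, mem_univ, true_and, mem_union, hmem]
          have := hnd u
          constructor
          · intro h5
            by_cases h6 : nd u = m
            · exact Or.inr ⟨h6, h5⟩
            · exact Or.inl ⟨by omega, h5⟩
          · rintro (h5 | h5)
            · exact h5.2
            · exact h5.2
        · rw [Finset.disjoint_left]
          intro u hu1 hu2
          simp only [mem_filter, mem_univ, true_and, hmem] at hu1 hu2
          omega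
      rw [Finset.sum_congr rfl h4, Finset.sum_add_distrib]
      congr 1
      have h5 : ∀ (A B : Finset V), ∑ v ∈ A, (dgi F B v : ℝ) = ∑ w ∈ B, (dgi F A w : ℝ) := by
        intro A B'
        have h6 : ∑ v ∈ A, dgi F B' v = ∑ w ∈ B', dgi F A w := by
          simp only [dgi, Finset.card_filter]
          rw [Finset.sum_comm]
          refine Finset.sum_congr rfl fun w _ => Finset.sum_congr rfl fun v _ => ?_
          by_cases h7 : F.Adj v w
          · rw [if_pos h7, if_pos h7.symm]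
          · rw [if_neg h7, if_neg (fun h8 => h7 h8.symm)]
        exact_mod_cast h6
      exact h5 _ _
    have e4 : ∑ w ∈ Lo, (dgi F (pt nd P) w : ℝ) =
        Δ * ∑ w ∈ Lo, q w P - ∑ w ∈ Lo, (dgi F Lo w : ℝ) * q w P := by
      rw [Finset.mul_sum, ← Finset.sum_sub_distrib]
      refine Finset.sum_congr rfl fun w _ => ?_
      rw [← hqm w P, ← hLo]
      ring
    have hΔ0 : (Δ : ℝ) ≠ 0 := by
      have : 0 < Δ := by omega
      exact_mod_cast this.ne'
    rw [e1, e3, e4]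
    obtain ⟨x, hx⟩ : ∃ x : ℝ, x = (((pt nd P).filter fun v => mu l v ≠ v).card : ℝ) := ⟨_, rfl⟩
    obtain ⟨A, hA⟩ : ∃ A : ℝ, A = ∑ w ∈ Lo, q w P := ⟨_, rfl⟩
    obtain ⟨S, hS⟩ : ∃ S : ℝ, S = ∑ w ∈ Lo, (dgi F Lo w : ℝ) * q w P := ⟨_, rfl⟩
    obtain ⟨M1, hM1⟩ : ∃ M1 : ℝ, M1 = ∑ w ∈ Ms Lo p c0 l, q w P := ⟨_, rfl⟩
    obtain ⟨N1, hN1⟩ : ∃ N1 : ℝ, N1 = ∑ w ∈ univ.filter (fun w => nn l w ≠ w), q w P := ⟨_, rfl⟩
    rw [← hA, ← hM1, ← hN1] at e2
    rw [← hA, ← hM1] at h2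
    rw [← hS, ← hN1] at h3
    rw [← hx, e2] at h1
    rw [← hx, ← hA, ← hS]
    obtain ⟨y, hy⟩ : ∃ y : ℝ, y = yy F nd m P := ⟨_, rfl⟩
    rw [← hy] at h1 ⊢
    have hρl := hρd l
    obtain ⟨r, hr⟩ : ∃ r : ℝ, r = ((Ms Lo p c0 l).card : ℝ) / Lo.card := ⟨_, rfl⟩
    rw [← hr] at h2 hρl
    have e5 : ρ l / Δ * (y + (Δ * A - S)) = ρ l / Δ * y + ρ l * A - ρ l * S / Δ := by
      field_simp
      ring
    rw [e5]
    have e6 : ρ l * A = A - r * A := by rw [hρl]; ring
    rw [e6]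
    rw [abs_le] at h1 h2 h3 ⊢
    constructor <;> nlinarith [h1.1, h1.2, h2.1, h2.2, h3.1, h3.2, hC]
  · -- u1
    refine le_trans ?_ hUs.u1
    rw [← hLo]
    norm_cast
    refine Finset.sum_le_sum fun w hw => ?_
    rw [Finset.sum_range_add]
    refine le_trans (le_of_eq ?_) (Nat.le_add_left _ _)
    refine Finset.sum_congr rfl fun j hj => ?_
    have h1 : Qt (m + j) = Qs j := by
      rw [hQt, if_neg (by omega), Nat.add_sub_cancel_left]
    have h2 : un mm κ (Qs j) w = un mu κ (Qs j) w := by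
      unfold un
      congr 1
      refine Finset.filter_congr fun l hl => ?_
      have hl' := mem_range.1 hl
      by_cases h : nn l w = w
      · rw [hmu l w h]
      · constructor
        · intro h3
          rw [hmn l w h] at h3
          have h4 := hQs j (mem_range.1 hj) _ h3.2
          have h5 := (hmem _).1 (hnnLo l hl' w h)
          omega
        · intro h3
          exact absurd (hF1 l hl' w h) h3.1
    rw [h1, h2]
  · -- u2
    refine le_trans ?_ hUs.u2
    norm_cast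
    have h2 : ∀ j < s, ∀ j' < s, up mm κ (Qs j) (Qs j') = up mu κ (Qs j) (Qs j') := by
      intro j hj j' hj'
      unfold up
      refine Finset.sum_congr rfl fun v hv => ?_
      unfold un
      congr 1
      refine Finset.filter_congr fun l hl => ?_
      rw [hpc l (mem_range.1 hl) v (hQs j hj v hv)]
    have h1 : ∀ j, Qt (m + j) = Qs j := by
      intro j
      rw [hQt, if_neg (by omega), Nat.add_sub_cancel_left]
    rw [Finset.sum_range_add]
    refine le_trans ?_ (Nat.le_add_left _ _)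
    refine Finset.sum_le_sum fun j hj => ?_
    rw [Finset.sum_range_add]
    refine le_trans (le_of_eq ?_) (Nat.le_add_left _ _)
    refine Finset.sum_congr rfl fun j' hj' => ?_
    rw [h1, h1, h2 j (mem_range.1 hj) j' (mem_range.1 hj')]

end Pool.Agent.H90.KB
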